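import Pool.Agent.Helper20.PC.Defs

/-!
# Sectional curvature of a Riemannian metric on a vector space

A metric is a function `G : F → F →L[ℝ] F →L[ℝ] ℝ`.
-/

open Filter
open scoped Topology ContDiff

namespace Pool.Agent.Helper20.PC

variable {F : Type*} [NormedAddCommGroup F] [NormedSpace ℝ F]

/-- `G` is a Riemannian metric near `z`, twice continuously differentiable. -/
structure MetAt (G : F → F →L[ℝ] F →L[ℝ] ℝ) (z : F) : Prop where
  smooth : ContDiffAt ℝ 2 G z
  symm : ∀ᶠ z' in 𝓝 z, ∀ u v, G z' u v = G z' v u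
  pos : ∀ᶠ z' in 𝓝 z, ∀ u, u ≠ 0 → 0 < G z' u u

/-- first derivative of the metric. -/
noncomputable def dG (G : F → F →L[ℝ] F →L[ℝ] ℝ) (z t u v : F) : ℝ :=
  fderiv ℝ (fun z' => G z' u v) z t

/-- second derivative of the metric. -/
noncomputable def ddG (G : F → F →L[ℝ] F →L[ℝ] ℝ) (z s t u v : F) : ℝ :=
  fderiv ℝ (fun z' => dG G z' t u v) z s

section
variable {G : F → F →L[ℝ] F →L[ℝ] ℝ} {z : F}

lemma smooth1 (h : ContDiffAt ℝ 2 G z) (u : F) : ContDiffAt ℝ 2 (fun z' => G z' u) z :=
  h.clm_apply contDiffAt_const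

lemma smooth2 (h : ContDiffAt ℝ 2 G z) (u v : F) : ContDiffAt ℝ 2 (fun z' => G z' u v) z :=
  (smooth1 h u).clm_apply contDiffAt_const

lemma fderiv_one_apply (h : ContDiffAt ℝ 2 G z) (u t v : F) :
    fderiv ℝ (fun z' => G z' u) z t v = dG G z t u v := by
  have h1 := ((smooth1 h u).differentiableAt (by norm_num)).hasFDerivAt.clm_apply
    (hasFDerivAt_const v z)
  rw [dG, h1.fderiv]
  simp

lemma chr_apply (h : ContDiffAt ℝ 2 G z) (u v w : F) :
    chr G z u v w = (1 / 2) * (dG G z u v w + dG G z v u w - dG G z w u v) := by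
  rw [← fderiv_one_apply h, ← fderiv_one_apply h, dG]
  simp [chr]

lemma MetAt.eventually (h : MetAt G z) : ∀ᶠ z' in 𝓝 z, MetAt G z' := by
  have h1 := h.smooth.eventually (by norm_num)
  filter_upwards [h1, h.symm.eventually_nhds, h.pos.eventually_nhds] with z' a b c
  exact ⟨a, b, c⟩

lemma dG_symm (h : MetAt G z) (t u v : F) : dG G z t u v = dG G z t v u := by
  have h1 : (fun z' => G z' u v) =ᶠ[𝓝 z] (fun z' => G z' v u) := h.symm.mono (fun z' hz' => hz' u v)
  rw [dG, dG, h1.fderiv_eq (𝕜 := ℝ)]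

lemma dG_add (s t u v : F) : dG G z (s + t) u v = dG G z s u v + dG G z t u v := by
  simp [dG]

lemma ddG_symm (h : MetAt G z) (s t u v : F) : ddG G z s t u v = ddG G z s t v u := by
  have h1 : (fun z' => dG G z' t u v) =ᶠ[𝓝 z] (fun z' => dG G z' t v u) :=
    h.eventually.mono (fun z' hz' => dG_symm hz' t u v)
  rw [ddG, ddG, h1.fderiv_eq (𝕜 := ℝ)]

lemma differentiableAt_fderiv2 (h : ContDiffAt ℝ 2 G z) (u v : F) :
    DifferentiableAt ℝ (fderiv ℝ (fun z' => G z' u v)) z :=
  ((smooth2 h u v).fderiv_right (m := 1) (by norm_num)).differentiableAt (by norm_num)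

lemma hasFDerivAt_dG (h : ContDiffAt ℝ 2 G z) (t u v : F) :
    HasFDerivAt (fun z' => dG G z' t u v)
      ((fderiv ℝ (fderiv ℝ (fun z' => G z' u v)) z).flip t) z := by
  have h1 := (differentiableAt_fderiv2 h u v).hasFDerivAt.clm_apply (hasFDerivAt_const t z)
  refine h1.congr_fderiv ?_
  ext s
  simp

lemma ddG_eq (h : ContDiffAt ℝ 2 G z) (s t u v : F) :
    ddG G z s t u v = fderiv ℝ (fderiv ℝ (fun z' => G z' u v)) z s t := by
  rw [ddG, (hasFDerivAt_dG h t u v).fderiv]
  simp

lemma ddG_swap (h : ContDiffAt ℝ 2 G z) (s t u v : F) : ddG G z s t u v = ddG G z t s u v := by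
  rw [ddG_eq h, ddG_eq h]
  exact ((smooth2 h u v).isSymmSndFDerivAt (by simp)) s t

lemma chr_symm (h : MetAt G z) (u v : F) : chr G z u v = chr G z v u := by
  ext w
  rw [chr_apply h.smooth, chr_apply h.smooth, dG_symm h w u v]
  ring

/-- compatibility with the metric. -/
lemma dG_eq_chr (h : MetAt G z) (u v w : F) :
    dG G z u v w = chr G z u v w + chr G z u w v := by
  rw [chr_apply h.smooth, chr_apply h.smooth, dG_symm h v u w, dG_symm h w u v, dG_symm h u w v]
  ring

lemma differentiableAt_chr (h : ContDiffAt ℝ 2 G z) (u v : F) :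
    DifferentiableAt ℝ (fun z' => chr G z' u v) z := by
  unfold chr
  have h1 : ∀ u : F, DifferentiableAt ℝ (fderiv ℝ (fun z' => G z' u)) z := fun u =>
    ((smooth1 h u).fderiv_right (m := 1) (by norm_num)).differentiableAt (by norm_num)
  exact ((((h1 v).clm_apply (differentiableAt_const u)).add
    ((h1 u).clm_apply (differentiableAt_const v))).sub (differentiableAt_fderiv2 h u v)).const_smul
    (1 / 2 : ℝ)

lemma fderiv_chr_apply (h : MetAt G z) (t u v w : F) :
    fderiv ℝ (fun z' => chr G z' u v) z t w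
      = (1 / 2) * (ddG G z t u v w + ddG G z t v u w - ddG G z t w u v) := by
  have e1 : fderiv ℝ (fun z' => chr G z' u v) z t w = fderiv ℝ (fun z' => chr G z' u v w) z t := by
    have := ((differentiableAt_chr h.smooth u v).hasFDerivAt.clm_apply (hasFDerivAt_const w z)).fderiv
    rw [this]
    simp
  have e2 : (fun z' => chr G z' u v w) =ᶠ[𝓝 z]
      (fun z' => (1 / 2 : ℝ) * (dG G z' u v w + dG G z' v u w - dG G z' w u v)) :=
    h.eventually.mono (fun z' hz' => chr_apply hz'.smooth u v w)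
  have e3 := (((hasFDerivAt_dG h.smooth u v w).add (hasFDerivAt_dG h.smooth v u w)).sub
    (hasFDerivAt_dG h.smooth w u v)).const_mul (1 / 2 : ℝ)
  have e4 : HasFDerivAt (fun z' => (1 / 2 : ℝ) * (dG G z' u v w + dG G z' v u w - dG G z' w u v)) _ z := e3
  rw [e1, e2.fderiv_eq, e4.fderiv]
  simp only [_root_.smul_apply, _root_.sub_apply, _root_.add_apply, ContinuousLinearMap.flip_apply,
    smul_eq_mul, ddG_eq h.smooth]

variable [FiniteDimensional ℝ F]

omit G z in
lemma invertible_of_pos {B : F →L[ℝ] F →L[ℝ] ℝ} (h : ∀ u, u ≠ 0 → 0 < B u u) : B.IsInvertible := by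
  have hinj : Function.Injective (B : F →ₗ[ℝ] (F →L[ℝ] ℝ)) := by
    rw [injective_iff_map_eq_zero]
    intro u hu
    by_contra hne
    have h1 := h u hne
    have h2 : B u = 0 := hu
    rw [h2] at h1
    simp at h1
  have hfr : Module.finrank ℝ F = Module.finrank ℝ (F →L[ℝ] ℝ) := by
    have e : (F →L[ℝ] ℝ) ≃ₗ[ℝ] (F →ₗ[ℝ] ℝ) := LinearMap.toContinuousLinearMap.symm
    rw [e.finrank_eq, Module.finrank_linearMap, Module.finrank_self, mul_one]
  let e := LinearEquiv.ofInjectiveOfFinrankEq (B : F →ₗ[ℝ] (F →L[ℝ] ℝ)) hinj hfr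
  refine ⟨e.toContinuousLinearEquiv, ?_⟩
  ext u v
  rfl

lemma MetAt.inv (h : MetAt G z) : (G z).IsInvertible := invertible_of_pos h.pos.self_of_nhds

lemma G_Gam (h : MetAt G z) (u v w : F) : G z (Gam G z u v) w = chr G z u v w := by
  rw [Gam, h.inv.self_apply_inverse]

lemma Gam_unique (h : MetAt G z) {u v a : F} (ha : ∀ w, G z a w = chr G z u v w) :
    Gam G z u v = a := by
  have : chr G z u v = G z a := by ext w; exact (ha w).symm
  rw [Gam, this, h.inv.inverse_apply_self]

lemma Gam_symm (h : MetAt G z) (u v : F) : Gam G z u v = Gam G z v u := by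
  rw [Gam, Gam, chr_symm h]

lemma differentiableAt_Gam (h : MetAt G z) (u v : F) : DifferentiableAt ℝ (fun z' => Gam G z' u v) z := by
  obtain ⟨e, he⟩ := h.inv
  have h1 : ContDiffAt ℝ 1 ContinuousLinearMap.inverse (G z) := by
    rw [← he]
    exact contDiffAt_map_inverse e
  have h2 : DifferentiableAt ℝ (fun z' => (G z').inverse) z :=
    (h1.differentiableAt (by norm_num)).comp z (h.smooth.differentiableAt (by norm_num))
  exact h2.clm_apply (differentiableAt_chr h.smooth u v)

/-- derivative of the connection form, lowered. -/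
lemma G_fderiv_Gam (h : MetAt G z) (t u v w : F) :
    G z (fderiv ℝ (fun z' => Gam G z' u v) z t) w
      = fderiv ℝ (fun z' => chr G z' u v) z t w - dG G z t (Gam G z u v) w := by
  have h1 : (fun z' => G z' (Gam G z' u v)) =ᶠ[𝓝 z] (fun z' => chr G z' u v) :=
    h.eventually.mono (fun z' hz' => by ext w; exact G_Gam hz' u v w)
  have h2 := h1.fderiv_eq (𝕜 := ℝ)
  have hdG : DifferentiableAt ℝ G z := h.smooth.differentiableAt (by norm_num)
  have h3 := (hdG.hasFDerivAt.clm_apply (differentiableAt_Gam h u v).hasFDerivAt).fderiv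
  rw [h3] at h2
  have h4 := DFunLike.congr_fun (DFunLike.congr_fun h2 t) w
  have h5 : fderiv ℝ G z t (Gam G z u v) w = dG G z t (Gam G z u v) w := by
    have := ((hdG.hasFDerivAt.clm_apply (hasFDerivAt_const (Gam G z u v) z)).clm_apply
      (hasFDerivAt_const w z)).fderiv
    rw [dG, this]
    simp
  rw [← h4, ← h5]
  simp

/-- the numerator of the sectional curvature, in lowered form. -/
noncomputable def num (G : F → F →L[ℝ] F →L[ℝ] ℝ) (z u v : F) : ℝ :=
  ddG G z u v u v - 1 / 2 * ddG G z u u v v - 1 / 2 * ddG G z v v u u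
    - chr G z u u (Gam G z v v) + chr G z u v (Gam G z u v)

/-- **The curvature in lowered form.** -/
theorem G_Riem (h : MetAt G z) (u v : F) : G z (Riem G z u v v) u = num G z u v := by
  have h1 : G z (Riem G z u v v) u = G z (fderiv ℝ (fun z' => Gam G z' v v) z u) u
      - G z (fderiv ℝ (fun z' => Gam G z' u v) z v) u
      + G z (Gam G z u (Gam G z v v)) u - G z (Gam G z v (Gam G z u v)) u := by
    simp [Riem]
  rw [h1, G_fderiv_Gam h, G_fderiv_Gam h, G_Gam h, G_Gam h, dG_eq_chr h u (Gam G z v v) u,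
    dG_eq_chr h v (Gam G z u v) u, fderiv_chr_apply h, fderiv_chr_apply h, num,
    chr_symm h v u, ddG_symm h u v v u, ddG_symm h v u v u]
  have := ddG_swap h.smooth v u u v
  linarith

end

end Pool.Agent.Helper20.PC
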