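import Pool.Agent.Helper20.PC.Sph

/-!
# Metrics on a product of two spheres
-/

open Filter Metric Module Set
open scoped Topology ContDiff RealInnerProductSpace Manifold

namespace Pool.Agent.Helper20.PC

/-! ### Germs -/

section
variable {F : Type*} [NormedAddCommGroup F] [NormedSpace ℝ F]
variable {G G' : F → F →L[ℝ] F →L[ℝ] ℝ} {z : F}

lemma chr_congr (h : G =ᶠ[𝓝 z] G') (u v : F) : chr G z u v = chr G' z u v := by
  have h1 : ∀ u : F, (fun z' => G z' u) =ᶠ[𝓝 z] (fun z' => G' z' u) := fun u =>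
    h.mono (fun z' hz' => by simp only [hz'])
  have h2 : (fun z' => G z' u v) =ᶠ[𝓝 z] (fun z' => G' z' u v) :=
    h.mono (fun z' hz' => by simp only [hz'])
  rw [chr, chr, (h1 u).fderiv_eq, (h1 v).fderiv_eq, h2.fderiv_eq]

lemma Gam_congr (h : G =ᶠ[𝓝 z] G') (u v : F) : Gam G z u v = Gam G' z u v := by
  rw [Gam, Gam, chr_congr h, h.self_of_nhds]

lemma Riem_congr (h : G =ᶠ[𝓝 z] G') (u v w : F) : Riem G z u v w = Riem G' z u v w := by
  have h1 : ∀ u v : F, (fun z' => Gam G z' u v) =ᶠ[𝓝 z] (fun z' => Gam G' z' u v) := fun u v =>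
    h.eventuallyEq_nhds.mono (fun z' hz' => Gam_congr hz' u v)
  rw [Riem, Riem, (h1 v w).fderiv_eq, (h1 u w).fderiv_eq, Gam_congr h, Gam_congr h, Gam_congr h,
    Gam_congr h]

lemma secCurv_congr (h : G =ᶠ[𝓝 z] G') (u v : F) : secCurv G z u v = secCurv G' z u v := by
  rw [secCurv, secCurv, Riem_congr h, h.self_of_nhds]

/-- If the sectional curvature is positive then so is its numerator. -/
lemma num_pos_of_secCurv [FiniteDimensional ℝ F] (h : MetAt G z) {u v : F}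
    (huv : ∀ t : ℝ, u + t • v ≠ 0) (hv : v ≠ 0) (hK : 0 < secCurv G z u v) : 0 < num G z u v := by
  have hpos := h.pos.self_of_nhds
  have hsym := h.symm.self_of_nhds
  have hvv := hpos v hv
  have h1 := hpos _ (huv (-(G z u v) / G z v v))
  have hden : 0 < G z u u * G z v v - G z u v ^ 2 := by
    have e : G z (u + (-(G z u v) / G z v v) • v) (u + (-(G z u v) / G z v v) • v)
        = (G z u u * G z v v - G z u v ^ 2) / G z v v := by
      simp only [map_add, map_smul, _root_.add_apply, _root_.smul_apply, smul_eq_mul]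
      rw [hsym v u]
      field_simp
      ring
    rw [e] at h1
    exact (div_pos_iff_of_pos_right hvv).1 h1
  rw [secCurv, G_Riem h] at hK
  exact (div_pos_iff_of_pos_right hden).1 hK

end

/-! ### Products -/

section
variable {E₁ : Type*} [NormedAddCommGroup E₁] [InnerProductSpace ℝ E₁]
variable {E₂ : Type*} [NormedAddCommGroup E₂] [InnerProductSpace ℝ E₂]

/-- the extended one-form. -/
noncomputable def extForm (p₀ : sphere (0 : E₁) 1 × sphere (0 : E₂) 1)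
    (η : sphere (0 : E₁) 1 × sphere (0 : E₂) 1 → (E₁ × E₂) →L[ℝ] ℝ) (z : E₁ × E₂) :
    (E₁ × E₂) →L[ℝ] ℝ := (η (toS p₀.1 z.1, toS p₀.2 z.2)) ∘L ((dn z.1).prodMap (dn z.2))

lemma extM_sumMetric (p₀ : sphere (0 : E₁) 1 × sphere (0 : E₂) 1)
    (g₁ : sphere (0 : E₁) 1 → E₁ →L[ℝ] E₁ →L[ℝ] ℝ)
    (g₂ : sphere (0 : E₂) 1 → E₂ →L[ℝ] E₂ →L[ℝ] ℝ)
    (η : sphere (0 : E₁) 1 × sphere (0 : E₂) 1 → (E₁ × E₂) →L[ℝ] ℝ) :
    extM p₀ (sumMetric g₁ g₂ η)
      = rankOne (block (cyl p₀.1 g₁) (fun z => cyl p₀.2 g₂ z.2)) (extForm p₀ η) := by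
  funext z
  refine ContinuousLinearMap.ext (fun u => ContinuousLinearMap.ext (fun v => ?_))
  rw [rankOne_apply, block_apply, cyl_apply, cyl_apply]
  simp [extM, sumMetric, extForm]
  ring

lemma extM_congr (p p₀ : sphere (0 : E₁) 1 × sphere (0 : E₂) 1)
    (g : sphere (0 : E₁) 1 × sphere (0 : E₂) 1 → (E₁ × E₂) →L[ℝ] (E₁ × E₂) →L[ℝ] ℝ)
    {z : E₁ × E₂} (h1 : z.1 ≠ 0) (h2 : z.2 ≠ 0) : extM p g =ᶠ[𝓝 z] extM p₀ g := by
  have e1 : ∀ᶠ z' : E₁ × E₂ in 𝓝 z, z'.1 ≠ 0 := continuous_fst.continuousAt.eventually_ne h1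
  have e2 : ∀ᶠ z' : E₁ × E₂ in 𝓝 z, z'.2 ≠ 0 := continuous_snd.continuousAt.eventually_ne h2
  filter_upwards [e1, e2] with z' a b
  rw [extM, extM, toS_of_ne p.1 a, toS_of_ne p.2 b, toS_of_ne p₀.1 a, toS_of_ne p₀.2 b]

variable [FiniteDimensional ℝ E₁] [FiniteDimensional ℝ E₂] {k l : ℕ}
  [Fact (finrank ℝ E₁ = k + 1)] [Fact (finrank ℝ E₂ = l + 1)]

lemma contDiffAt_comp_toS₂ {W : Type*} [NormedAddCommGroup W] [NormedSpace ℝ W]
    {f : sphere (0 : E₁) 1 × sphere (0 : E₂) 1 → W} {r : ℕ∞}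
    (hf : ContMDiff ((𝓡 k).prod (𝓡 l)) 𝓘(ℝ, W) r f) (p₀ : sphere (0 : E₁) 1 × sphere (0 : E₂) 1)
    {z : E₁ × E₂} (h1 : z.1 ≠ 0) (h2 : z.2 ≠ 0) :
    ContDiffAt ℝ r (fun z => f (toS p₀.1 z.1, toS p₀.2 z.2)) z := by
  have a1 : ContMDiffAt 𝓘(ℝ, E₁ × E₂) (𝓡 k) r (fun z : E₁ × E₂ => toS p₀.1 z.1) z :=
    (contMDiffAt_toS p₀.1 h1).comp (I' := 𝓘(ℝ, E₁)) z
      (contMDiffAt_iff_contDiffAt.2 contDiffAt_fst)
  have a2 : ContMDiffAt 𝓘(ℝ, E₁ × E₂) (𝓡 l) r (fun z : E₁ × E₂ => toS p₀.2 z.2) z :=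
    (contMDiffAt_toS p₀.2 h2).comp (I' := 𝓘(ℝ, E₂)) z
      (contMDiffAt_iff_contDiffAt.2 contDiffAt_snd)
  exact contMDiffAt_iff_contDiffAt.1 ((hf.contMDiffAt).comp z (a1.prodMk a2))

lemma contDiffAt_extForm {η : sphere (0 : E₁) 1 × sphere (0 : E₂) 1 → (E₁ × E₂) →L[ℝ] ℝ} {r : ℕ∞}
    (hη : ContMDiff ((𝓡 k).prod (𝓡 l)) 𝓘(ℝ, (E₁ × E₂) →L[ℝ] ℝ) r η)
    (p₀ : sphere (0 : E₁) 1 × sphere (0 : E₂) 1)
    {z : E₁ × E₂} (h1 : z.1 ≠ 0) (h2 : z.2 ≠ 0) : ContDiffAt ℝ r (extForm p₀ η) z := by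
  refine contDiffAt_of_apply (fun u => ?_)
  have e : (fun z => extForm p₀ η z u) = fun z : E₁ × E₂ => η (toS p₀.1 z.1, toS p₀.2 z.2) (dn z.1 u.1, dn z.2 u.2) := by
    funext z
    simp [extForm, Prod.map]
  rw [e]
  refine (contDiffAt_comp_toS₂ hη p₀ h1 h2).clm_apply ?_
  have b1 : ContDiffAt ℝ r (fun z : E₁ × E₂ => dn z.1 u.1) z :=
    ((contDiffAt_dn h1).comp z contDiffAt_fst).clm_apply contDiffAt_const
  have b2 : ContDiffAt ℝ r (fun z : E₁ × E₂ => dn z.2 u.2) z :=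
    ((contDiffAt_dn h2).comp z contDiffAt_snd).clm_apply contDiffAt_const
  exact b1.prodMk b2

lemma contDiffAt_cyl_snd {g₂ : sphere (0 : E₂) 1 → E₂ →L[ℝ] E₂ →L[ℝ] ℝ} (hg : IsMetricS l g₂)
    (y₀ : sphere (0 : E₂) 1) {z : E₁ × E₂} (h2 : z.2 ≠ 0) :
    ContDiffAt ℝ 2 (fun z : E₁ × E₂ => cyl y₀ g₂ z.2) z :=
  (metAt_cyl hg y₀ h2).smooth.comp z contDiffAt_snd

lemma metAt_block_cyl {g₁ : sphere (0 : E₁) 1 → E₁ →L[ℝ] E₁ →L[ℝ] ℝ} (hg₁ : IsMetricS k g₁)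
    {H : E₁ × E₂ → E₂ →L[ℝ] E₂ →L[ℝ] ℝ} (x₀ : sphere (0 : E₁) 1)
    {z : E₁ × E₂} (h1 : z.1 ≠ 0) (hH : ContDiffAt ℝ 2 H z)
    (hs : ∀ᶠ z' in 𝓝 z, ∀ u v, H z' u v = H z' v u)
    (hp : ∀ᶠ z' in 𝓝 z, ∀ u, u ≠ 0 → 0 < H z' u u) :
    MetAt (block (cyl x₀ g₁) H) z where
  smooth := by
    unfold block
    refine ContDiffAt.add ?_ ?_
    · exact contDiffAt_bilinearComp ((metAt_cyl hg₁ x₀ h1).smooth.comp z contDiffAt_fst)
        contDiffAt_const
    · exact contDiffAt_bilinearComp hH contDiffAt_const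
  symm := by
    have := (continuous_fst (X := E₁) (Y := E₂)).continuousAt (x := z) |>.eventually (metAt_cyl hg₁ x₀ h1).symm
    filter_upwards [this, hs] with z' a b u v
    rw [block_apply, block_apply, a, b]
  pos := by
    have := (continuous_fst (X := E₁) (Y := E₂)).continuousAt (x := z) |>.eventually (metAt_cyl hg₁ x₀ h1).pos
    filter_upwards [this, hp] with z' a b u hu
    rw [block_apply]
    by_cases h : u.1 = 0
    · have h2 : u.2 ≠ 0 := fun h2 => hu (Prod.ext h h2)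
      rw [h]
      simpa using b _ h2
    · have c1 := a _ h
      by_cases h2 : u.2 = 0
      · rw [h2]
        simpa using c1
      · have c2 := b _ h2
        linarith

end

/-! ### The sign lemma -/

section
variable {E : Type*} [NormedAddCommGroup E] [InnerProductSpace ℝ E] [FiniteDimensional ℝ E]

lemma exists_unit_perp (hE : 3 ≤ finrank ℝ E) (x : E) (φ : E →L[ℝ] ℝ) :
    ∃ u : E, ‖u‖ = 1 ∧ ⟪x, u⟫ = 0 ∧ φ u = 0 := by
  let L : E →ₗ[ℝ] ℝ × ℝ := (innerSL ℝ x : E →L[ℝ] ℝ).toLinearMap.prod φ.toLinearMap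
  have h1 : 0 < finrank ℝ (LinearMap.ker L) := by
    have h2 := LinearMap.finrank_range_add_finrank_ker L
    have h3 : finrank ℝ (LinearMap.range L) ≤ 2 := by
      have := Submodule.finrank_le (LinearMap.range L)
      rwa [finrank_prod, finrank_self] at this
    omega
  have hbot : LinearMap.ker L ≠ ⊥ := by
    intro hb
    rw [hb, finrank_bot] at h1
    exact lt_irrefl _ h1
  obtain ⟨u, hu, hu0⟩ := Submodule.exists_mem_ne_zero_of_ne_bot hbot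
  rw [LinearMap.mem_ker] at hu
  have h4 : ⟪x, u⟫ = 0 := congrArg Prod.fst hu
  have h5 : φ u = 0 := congrArg Prod.snd hu
  refine ⟨‖u‖⁻¹ • u, norm_normalize hu0, ?_, ?_⟩
  · rw [inner_smul_right, h4, mul_zero]
  · rw [map_smul, h5, smul_zero]

/-- **The sign lemma.** -/
theorem sign_lemma (hE : 3 ≤ finrank ℝ E) (ℓ : sphere (0 : E) 1 → E →L[ℝ] ℝ)
    (Q : sphere (0 : E) 1 → E → ℝ) (hℓ : Continuous ℓ)
    (hQ : Continuous (fun p : sphere (0 : E) 1 × E => Q p.1 p.2))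
    (hom : ∀ x u (t : ℝ), Q x (t • u) = t ^ 2 * Q x u)
    (h : ∀ x : sphere (0 : E) 1, ∃ σ : ℝ, ∀ u, ⟪(x : E), u⟫ = 0 → u ≠ 0 → ℓ x u = 0 → 0 < σ * Q x u) :
    (∀ x : sphere (0 : E) 1, ∀ u, ⟪(x : E), u⟫ = 0 → u ≠ 0 → ℓ x u = 0 → 0 < Q x u) ∨
    (∀ x : sphere (0 : E) 1, ∀ u, ⟪(x : E), u⟫ = 0 → u ≠ 0 → ℓ x u = 0 → Q x u < 0) := by
  have hcomp : CompactSpace (sphere (0 : E) 1) := isCompact_iff_compactSpace.1 (isCompact_sphere _ _)
  have hrank : 1 < Module.rank ℝ E := by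
    rw [← finrank_eq_rank]
    exact_mod_cast (by omega : 1 < finrank ℝ E)
  have hconn : PreconnectedSpace (sphere (0 : E) 1) :=
    Subtype.preconnectedSpace (isPreconnected_sphere hrank _ _)
  have hcl : ∀ s : ℝ, IsClosed {x : sphere (0 : E) 1 | ∃ u : sphere (0 : E) 1,
      ⟪(x : E), (u : E)⟫ = 0 ∧ ℓ x u = 0 ∧ s * Q x u ≤ 0} := by
    intro s
    have hK : IsClosed {p : sphere (0 : E) 1 × sphere (0 : E) 1 |
        ⟪(p.1 : E), (p.2 : E)⟫ = 0 ∧ ℓ p.1 p.2 = 0 ∧ s * Q p.1 p.2 ≤ 0} := by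
      have c1 : IsClosed {p : sphere (0 : E) 1 × sphere (0 : E) 1 | ⟪(p.1 : E), (p.2 : E)⟫ = 0} :=
        isClosed_eq ((continuous_subtype_val.comp continuous_fst).inner
          (continuous_subtype_val.comp continuous_snd)) continuous_const
      have c2 : IsClosed {p : sphere (0 : E) 1 × sphere (0 : E) 1 | ℓ p.1 p.2 = 0} :=
        isClosed_eq ((hℓ.comp continuous_fst).clm_apply (continuous_subtype_val.comp continuous_snd))
          continuous_const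
      have c3 : IsClosed {p : sphere (0 : E) 1 × sphere (0 : E) 1 | s * Q p.1 p.2 ≤ 0} :=
        isClosed_le (continuous_const.mul (hQ.comp (continuous_fst.prodMk
          (continuous_subtype_val.comp continuous_snd)))) continuous_const
      exact c1.inter (c2.inter c3)
    have := (hK.isCompact.image continuous_fst).isClosed
    convert this using 1
    ext x
    constructor
    · rintro ⟨u, hu⟩
      exact ⟨(x, u), hu, rfl⟩
    · rintro ⟨⟨x', u⟩, hu, rfl⟩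
      exact ⟨u, hu⟩
  have hP := hcl 1
  have hN := hcl (-1)
  set P := {x : sphere (0 : E) 1 | ∃ u : sphere (0 : E) 1,
      ⟪(x : E), (u : E)⟫ = 0 ∧ ℓ x u = 0 ∧ 1 * Q x u ≤ 0} with hPdef
  set N := {x : sphere (0 : E) 1 | ∃ u : sphere (0 : E) 1,
      ⟪(x : E), (u : E)⟫ = 0 ∧ ℓ x u = 0 ∧ (-1) * Q x u ≤ 0} with hNdef
  have hne : ∀ u : sphere (0 : E) 1, (u : E) ≠ 0 := by
    intro u hu
    have := mem_sphere_zero_iff_norm.1 u.2
    rw [hu, norm_zero] at this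
    exact zero_ne_one this
  have hPN : Pᶜ = N := by
    ext x
    constructor
    · intro hx
      obtain ⟨u, hu1, hu2, hu3⟩ := exists_unit_perp hE (x : E) (ℓ x)
      refine ⟨⟨u, mem_sphere_zero_iff_norm.2 hu1⟩, hu2, hu3, ?_⟩
      by_contra hc
      refine hx ⟨⟨u, mem_sphere_zero_iff_norm.2 hu1⟩, hu2, hu3, ?_⟩
      simp only at hc ⊢
      linarith
    · rintro ⟨u, hu1, hu2, hu3⟩ ⟨v, hv1, hv2, hv3⟩
      obtain ⟨σ, hσ⟩ := h x
      have a := hσ u hu1 (hne u) hu2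
      have b := hσ v hv1 (hne v) hv2
      rcases lt_trichotomy σ 0 with hs | hs | hs
      · have : Q x u < 0 := by nlinarith
        linarith
      · rw [hs] at a; simp at a
      · have : 0 < Q x v := by nlinarith
        linarith
  have hclopen : IsClopen P := ⟨hP, by
    rw [← isClosed_compl_iff, hPN]
    exact hN⟩
  have hscale : ∀ x : sphere (0 : E) 1, ∀ u, ⟪(x : E), u⟫ = 0 → u ≠ 0 → ℓ x u = 0 →
      ∃ v : sphere (0 : E) 1, ⟪(x : E), (v : E)⟫ = 0 ∧ ℓ x v = 0 ∧ Q x u = ‖u‖ ^ 2 * Q x v := by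
    intro x u h1 h2 h3
    refine ⟨⟨‖u‖⁻¹ • u, mem_sphere_zero_iff_norm.2 (norm_normalize h2)⟩, ?_, ?_, ?_⟩
    · simp only [inner_smul_right, h1, mul_zero]
    · simp only [map_smul, h3, smul_zero]
    · simp only
      rw [← hom, smul_smul, mul_inv_cancel₀ (norm_ne_zero_iff.2 h2), one_smul]
  rcases isClopen_iff.1 hclopen with hE0 | hE1
  · left
    intro x u h1 h2 h3
    obtain ⟨v, hv1, hv2, hv3⟩ := hscale x u h1 h2 h3
    rw [hv3]
    have hx : x ∉ P := by rw [hE0]; exact notMem_empty _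
    have : 0 < Q x v := by
      by_contra hc
      exact hx ⟨v, hv1, hv2, by linarith⟩
    have := norm_pos_iff.2 h2
    positivity
  · right
    intro x u h1 h2 h3
    obtain ⟨v, hv1, hv2, hv3⟩ := hscale x u h1 h2 h3
    rw [hv3]
    have hx : x ∉ N := by rw [← hPN, hE1]; simp
    have hQv : Q x v < 0 := by
      by_contra hc
      exact hx ⟨v, hv1, hv2, by linarith⟩
    have := norm_pos_iff.2 h2
    have h5 : 0 < ‖u‖ ^ 2 := by positivity
    exact mul_neg_of_pos_of_neg h5 hQv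

end

end Pool.Agent.Helper20.PC
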