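import Pool.Agent.Helper20.PC.Defs

/-!
# Mixed second derivatives as metric perturbations
-/

open Filter Metric Module Set
open scoped Topology ContDiff RealInnerProductSpace Manifold

namespace Pool.Agent.Helper20.PC

section
variable {E₁ : Type*} [NormedAddCommGroup E₁] [InnerProductSpace ℝ E₁]
variable {E₂ : Type*} [NormedAddCommGroup E₂] [InnerProductSpace ℝ E₂]

/-- The extension `z ↦ F (z₁/|z₁|, z₂/|z₂|)` of a function `F` on the product of two spheres. -/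
noncomputable def extF (p₀ : sphere (0 : E₁) 1 × sphere (0 : E₂) 1)
    (F : sphere (0 : E₁) 1 × sphere (0 : E₂) 1 → ℝ) (z : E₁ × E₂) : ℝ :=
  F (toS p₀.1 z.1, toS p₀.2 z.2)

/-- The mixed second derivative `(X, V) ↦ X V F` at `p` (`X` tangent to the first and `V` tangent to
the second sphere) of a function `F` on the product of two spheres, as a bilinear form. -/
noncomputable def mixed (F : sphere (0 : E₁) 1 × sphere (0 : E₂) 1 → ℝ)
    (p : sphere (0 : E₁) 1 × sphere (0 : E₂) 1) : (E₁ × E₂) →L[ℝ] (E₁ × E₂) →L[ℝ] ℝ :=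
  (fderiv ℝ (fderiv ℝ (extF p F)) ((p.1 : E₁), (p.2 : E₂))).bilinearComp
    (ContinuousLinearMap.inl ℝ E₁ E₂ ∘L ContinuousLinearMap.fst ℝ E₁ E₂)
    (ContinuousLinearMap.inr ℝ E₁ E₂ ∘L ContinuousLinearMap.snd ℝ E₁ E₂)

/-- The symmetric tensor `g₁ ⊕ g₂ + 2 d₁ d₂ F` on the product of two spheres: its value on
`(X, V), (X', V')` is `g₁ (X, X') + g₂ (V, V') + X V' F + X' V F`. -/
noncomputable def mixedMetric (g₁ : sphere (0 : E₁) 1 → E₁ →L[ℝ] E₁ →L[ℝ] ℝ)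
    (g₂ : sphere (0 : E₂) 1 → E₂ →L[ℝ] E₂ →L[ℝ] ℝ)
    (F : sphere (0 : E₁) 1 × sphere (0 : E₂) 1 → ℝ)
    (p : sphere (0 : E₁) 1 × sphere (0 : E₂) 1) : (E₁ × E₂) →L[ℝ] (E₁ × E₂) →L[ℝ] ℝ :=
  (g₁ p.1).bilinearComp (ContinuousLinearMap.fst ℝ E₁ E₂) (ContinuousLinearMap.fst ℝ E₁ E₂)
    + (g₂ p.2).bilinearComp (ContinuousLinearMap.snd ℝ E₁ E₂) (ContinuousLinearMap.snd ℝ E₁ E₂)
    + (mixed F p + (mixed F p).flip)

end

end Pool.Agent.Helper20.PC
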