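import Pool.Agent.Helper20.PC.ThmOne
import Pool.Agent.Helper20.PC.DefsMix

/-!
# Graph hypersurfaces: set-up
-/

open Filter Metric Module Set
open scoped Topology ContDiff RealInnerProductSpace Manifold

namespace Pool.Agent.Helper20.PC

section
variable {E : Type*} [NormedAddCommGroup E] [InnerProductSpace ℝ E]

lemma hasFDerivAt_normalize {x : E} (hx : x ≠ 0) : HasFDerivAt (fun z : E => ‖z‖⁻¹ • z) (dn x) x := by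
  have hn : 0 < ‖x‖ := norm_pos_iff.2 hx
  have hn2 : ‖x‖ ^ 2 ≠ 0 := by positivity
  have h1 : HasFDerivAt (fun z : E => Real.sqrt (‖z‖ ^ 2)) _ x :=
    (HasStrictFDerivAt.hasFDerivAt (hasStrictFDerivAt_norm_sq x)).sqrt hn2
  have hs : Real.sqrt (‖x‖ ^ 2) = ‖x‖ := Real.sqrt_sq hn.le
  have h2 : HasFDerivAt (fun z : E => (Real.sqrt (‖z‖ ^ 2))⁻¹) _ x :=
    HasDerivAt.comp_hasFDerivAt x (hasDerivAt_inv (by rw [hs]; exact hn.ne')) h1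
  have h3 := h2.smul (hasFDerivAt_id x)
  have e : (fun z : E => ‖z‖⁻¹ • z) = fun z : E => (Real.sqrt (‖z‖ ^ 2))⁻¹ • id z := by
    funext z
    rw [Real.sqrt_sq (norm_nonneg z)]
    rfl
  rw [e]
  refine h3.congr_fderiv ?_
  ext u
  simp only [hs, _root_.add_apply, _root_.smul_apply, ContinuousLinearMap.smulRight_apply,
    ContinuousLinearMap.id_apply, id_eq, smul_eq_mul, innerSL_apply_apply, dn_apply, dl_apply,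
    nsmul_eq_mul, smul_sub, smul_smul, Nat.cast_ofNat]
  rw [sub_eq_add_neg, ← neg_smul]
  congr 2
  field_simp

end

section
variable {E₁ : Type*} [NormedAddCommGroup E₁] [InnerProductSpace ℝ E₁]
variable {E₂ : Type*} [NormedAddCommGroup E₂] [InnerProductSpace ℝ E₂]

lemma extF_congr (p p₀ : sphere (0 : E₁) 1 × sphere (0 : E₂) 1)
    (ρ : sphere (0 : E₁) 1 × sphere (0 : E₂) 1 → ℝ)
    {z : E₁ × E₂} (h1 : z.1 ≠ 0) (h2 : z.2 ≠ 0) : extF p ρ =ᶠ[𝓝 z] extF p₀ ρ := by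
  have e1 : ∀ᶠ z' : E₁ × E₂ in 𝓝 z, z'.1 ≠ 0 := continuous_fst.continuousAt.eventually_ne h1
  have e2 : ∀ᶠ z' : E₁ × E₂ in 𝓝 z, z'.2 ≠ 0 := continuous_snd.continuousAt.eventually_ne h2
  filter_upwards [e1, e2] with z' a b
  rw [extF, extF, toS_of_ne p.1 a, toS_of_ne p.2 b, toS_of_ne p₀.1 a, toS_of_ne p₀.2 b]

variable [FiniteDimensional ℝ E₁] [FiniteDimensional ℝ E₂] {k l : ℕ}
  [Fact (finrank ℝ E₁ = k + 1)] [Fact (finrank ℝ E₂ = l + 1)]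

lemma extForm_dS {ρ : sphere (0 : E₁) 1 × sphere (0 : E₂) 1 → ℝ}
    (hρ : ContMDiff ((𝓡 k).prod (𝓡 l)) 𝓘(ℝ, ℝ) 3 ρ) (p₀ : sphere (0 : E₁) 1 × sphere (0 : E₂) 1)
    {z : E₁ × E₂} (h1 : z.1 ≠ 0) (h2 : z.2 ≠ 0) :
    extForm p₀ (dS ρ) z = fderiv ℝ (extF p₀ ρ) z := by
  set q : sphere (0 : E₁) 1 × sphere (0 : E₂) 1 := (toS p₀.1 z.1, toS p₀.2 z.2) with hq
  have hq1 : (q.1 : E₁) = ‖z.1‖⁻¹ • z.1 := toS_val p₀.1 h1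
  have hq2 : (q.2 : E₂) = ‖z.2‖⁻¹ • z.2 := toS_val p₀.2 h2
  have e1 : dS ρ q = fderiv ℝ (extF p₀ ρ) ((q.1 : E₁), (q.2 : E₂)) := by
    have : (fun z : E₁ × E₂ => ρ (toS q.1 z.1, toS q.2 z.2)) =ᶠ[𝓝 ((q.1 : E₁), (q.2 : E₂))]
        extF p₀ ρ := extF_congr q p₀ ρ (sphere_ne_zero q.1) (sphere_ne_zero q.2)
    rw [dS, this.fderiv_eq]
  have hd : DifferentiableAt ℝ (extF p₀ ρ) ((q.1 : E₁), (q.2 : E₂)) :=
    (contDiffAt_comp_toS₂ (r := 3) hρ p₀ (z := ((q.1 : E₁), (q.2 : E₂))) (sphere_ne_zero q.1)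
      (sphere_ne_zero q.2)).differentiableAt (by norm_num)
  have hN : HasFDerivAt (fun z : E₁ × E₂ => (‖z.1‖⁻¹ • z.1, ‖z.2‖⁻¹ • z.2))
      ((dn z.1).prodMap (dn z.2)) z := by
    have a1 : HasFDerivAt (fun z : E₁ × E₂ => ‖z.1‖⁻¹ • z.1) (dn z.1 ∘L ContinuousLinearMap.fst ℝ E₁ E₂) z :=
      HasFDerivAt.comp (g := fun x : E₁ => ‖x‖⁻¹ • x) z (hasFDerivAt_normalize h1) hasFDerivAt_fst
    have a2 : HasFDerivAt (fun z : E₁ × E₂ => ‖z.2‖⁻¹ • z.2) (dn z.2 ∘L ContinuousLinearMap.snd ℝ E₁ E₂) z :=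
      HasFDerivAt.comp (g := fun x : E₂ => ‖x‖⁻¹ • x) z (hasFDerivAt_normalize h2) hasFDerivAt_snd
    exact a1.prodMk a2
  have e2 : extF p₀ ρ =ᶠ[𝓝 z] (extF p₀ ρ) ∘ (fun z : E₁ × E₂ => (‖z.1‖⁻¹ • z.1, ‖z.2‖⁻¹ • z.2)) := by
    have e1 : ∀ᶠ z' : E₁ × E₂ in 𝓝 z, z'.1 ≠ 0 := continuous_fst.continuousAt.eventually_ne h1
    have e2 : ∀ᶠ z' : E₁ × E₂ in 𝓝 z, z'.2 ≠ 0 := continuous_snd.continuousAt.eventually_ne h2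
    filter_upwards [e1, e2] with z' a b
    simp only [extF, Function.comp_apply]
    rw [toS_smul p₀.1 z'.1 (inv_pos.2 (norm_pos_iff.2 a)), toS_smul p₀.2 z'.2 (inv_pos.2 (norm_pos_iff.2 b))]
  have hd' : HasFDerivAt (extF p₀ ρ) (fderiv ℝ (extF p₀ ρ) ((q.1 : E₁), (q.2 : E₂)))
      ((fun z : E₁ × E₂ => (‖z.1‖⁻¹ • z.1, ‖z.2‖⁻¹ • z.2)) z) := by
    simp only
    rw [← hq1, ← hq2]
    exact hd.hasFDerivAt
  have e3 := HasFDerivAt.comp z hd' hN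
  rw [e2.fderiv_eq, e3.fderiv, extForm, ← hq, e1]

lemma contDiffAt_cyl_family {J : Set ℝ} (hJ : IsOpen J)
    {h : ℝ → sphere (0 : E₂) 1 → E₂ →L[ℝ] E₂ →L[ℝ] ℝ} (hh : IsFamilyS l J h)
    (y₀ : sphere (0 : E₂) 1) {q : ℝ × E₂} (hq1 : q.1 ∈ J) (hq2 : q.2 ≠ 0) :
    ContDiffAt ℝ 2 (fun q : ℝ × E₂ => cyl y₀ (h q.1) q.2) q := by
  have h0 : ContMDiffAt (𝓘(ℝ, ℝ).prod (𝓡 l)) 𝓘(ℝ, E₂ →L[ℝ] E₂ →L[ℝ] ℝ) 2
      (fun q : ℝ × sphere (0 : E₂) 1 => h q.1 q.2) (q.1, toS y₀ q.2) :=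
    hh.smooth.contMDiffAt ((hJ.prod isOpen_univ).mem_nhds ⟨hq1, mem_univ _⟩)
  have a1 : ContMDiffAt 𝓘(ℝ, ℝ × E₂) 𝓘(ℝ, ℝ) 2 (fun q : ℝ × E₂ => q.1) q :=
    contMDiffAt_iff_contDiffAt.2 contDiffAt_fst
  have a2 : ContMDiffAt 𝓘(ℝ, ℝ × E₂) (𝓡 l) 2 (fun q : ℝ × E₂ => toS y₀ q.2) q :=
    (contMDiffAt_toS (r := 2) y₀ hq2).comp (I' := 𝓘(ℝ, E₂)) q
      (contMDiffAt_iff_contDiffAt.2 contDiffAt_snd)
  have a3 : ContDiffAt ℝ 2 (fun q : ℝ × E₂ => h q.1 (toS y₀ q.2)) q :=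
    contMDiffAt_iff_contDiffAt.1 (h0.comp q (a1.prodMk a2))
  unfold cyl
  have c1 : ContDiffAt ℝ 2 (fun q : ℝ × E₂ => dl q.2) q := (contDiffAt_dl hq2).comp q contDiffAt_snd
  have c2 : ContDiffAt ℝ 2 (fun q : ℝ × E₂ => dn q.2) q := (contDiffAt_dn hq2).comp q contDiffAt_snd
  exact (c1.smulRight c1).add (contDiffAt_bilinearComp a3 c2)

end

end Pool.Agent.Helper20.PC
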