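import Pool.Agent.Helper20.PC.MixCalc
import Pool.Agent.Helper20.PC.Graph

/-!
# Metrics `g₁ + g₂ + 2 d₁ d₂ F` on a product of spheres
-/

set_option maxSynthPendingDepth 3

open Filter Metric Module Set
open scoped Topology ContDiff RealInnerProductSpace Manifold

namespace Pool.Agent.Helper20.PC

/-! ### Second derivative test -/

section
variable {E : Type*} [NormedAddCommGroup E] [NormedSpace ℝ E]

lemma D2_nonpos_of_isLocalMax {φ : E → ℝ} {x : E} (hφ : ContDiffAt ℝ 2 φ x) (hmax : IsLocalMax φ x)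
    (X : E) : D2 φ x X X ≤ 0 := by
  by_contra hcon
  push Not at hcon
  set ψ : ℝ → ℝ := fun t => φ (x + t • X) with hψ
  have hline : ∀ t : ℝ, HasDerivAt (fun t : ℝ => x + t • X) X t := fun t => by
    simpa using ((hasDerivAt_id t).smul_const X).const_add x
  have hc0 : ContinuousAt (fun t : ℝ => x + t • X) 0 := (hline 0).continuousAt
  have hx0 : x + (0 : ℝ) • X = x := by simp
  have hev : ∀ᶠ t : ℝ in 𝓝 0, ContDiffAt ℝ 2 φ (x + t • X) := by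
    have := hφ.eventually (by norm_num)
    rw [← hx0] at this
    exact hc0.eventually this
  have hd1 : deriv ψ =ᶠ[𝓝 0] fun t => fderiv ℝ φ (x + t • X) X := by
    filter_upwards [hev] with t ht
    exact ((ht.differentiableAt (by norm_num)).hasFDerivAt.comp_hasDerivAt t (hline t)).deriv
  have hd2 : deriv (deriv ψ) 0 = D2 φ x X X := by
    rw [hd1.deriv_eq]
    have h1 : HasFDerivAt (fun z' => fderiv ℝ φ z' X) ((fderiv ℝ (fderiv ℝ φ) x).flip X)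
        (x + (0 : ℝ) • X) := by
      rw [hx0]; exact hasFDerivAt_fderiv_apply hφ X
    have h2 := h1.comp_hasDerivAt (0 : ℝ) (hline 0)
    have h3 : HasDerivAt (fun t : ℝ => fderiv ℝ φ (x + t • X) X) _ 0 := h2
    rw [h3.deriv, D2, (hasFDerivAt_fderiv_apply hφ X).fderiv]
  have hmaxψ : IsLocalMax ψ 0 := by
    have : Tendsto (fun t : ℝ => x + t • X) (𝓝 0) (𝓝 x) := by
      have := hc0.tendsto
      rwa [hx0] at this
    have h4 := this.eventually hmax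
    filter_upwards [h4] with t ht
    simp only [hψ, hx0]
    exact ht
  have hcψ : ContinuousAt ψ 0 := by
    have h5 : ContinuousAt φ (x + (0 : ℝ) • X) := by rw [hx0]; exact hφ.continuousAt
    exact ContinuousAt.comp (g := φ) h5 hc0
  have hminψ : IsLocalMin ψ 0 :=
    isLocalMin_of_deriv_deriv_pos (by rw [hd2]; exact hcon) hmaxψ.deriv_eq_zero hcψ
  have hconst : ψ =ᶠ[𝓝 0] fun _ => ψ 0 := by
    filter_upwards [hmaxψ, hminψ] with t a b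
    exact le_antisymm a b
  have h6 : deriv (deriv ψ) 0 = 0 := by
    have h7 : deriv ψ =ᶠ[𝓝 0] deriv (fun _ => ψ 0) := hconst.deriv
    rw [h7.deriv_eq]
    simp
  rw [hd2] at h6
  exact hcon.ne' h6

/-- If the numerator is nonpositive then so is the sectional curvature. -/
lemma secCurv_nonpos_of_num [FiniteDimensional ℝ E] {G : E → E →L[ℝ] E →L[ℝ] ℝ} {z : E}
    (h : MetAt G z) {u v : E} (huv : ∀ t : ℝ, u + t • v ≠ 0) (hv : v ≠ 0) (hK : num G z u v ≤ 0) :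
    secCurv G z u v ≤ 0 := by
  by_contra hc
  push Not at hc
  exact absurd (num_pos_of_secCurv h huv hv hc) (not_lt.2 hK)

end

section
variable {E₁ : Type*} [NormedAddCommGroup E₁] [InnerProductSpace ℝ E₁]
variable {E₂ : Type*} [NormedAddCommGroup E₂] [InnerProductSpace ℝ E₂]

lemma extM_apply (p₀ : sphere (0 : E₁) 1 × sphere (0 : E₂) 1)
    (g : sphere (0 : E₁) 1 × sphere (0 : E₂) 1 → (E₁ × E₂) →L[ℝ] (E₁ × E₂) →L[ℝ] ℝ)
    (z u v : E₁ × E₂) : extM p₀ g z u v = dl z.1 u.1 * dl z.1 v.1 + dl z.2 u.2 * dl z.2 v.2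
      + g (toS p₀.1 z.1, toS p₀.2 z.2) (dn z.1 u.1, dn z.2 u.2) (dn z.1 v.1, dn z.2 v.2) := by
  simp only [extM, add_apply, ContinuousLinearMap.bilinearComp_apply]
  rfl

lemma inner_toS_dn {E : Type*} [NormedAddCommGroup E] [InnerProductSpace ℝ E]
    (x₀ : sphere (0 : E) 1) {x : E} (hx : x ≠ 0) (u : E) :
    ⟪((toS x₀ x : sphere (0 : E) 1) : E), dn x u⟫ = 0 := by
  rw [toS_val x₀ hx, inner_smul_left, inner_dn x u hx, mul_zero]

lemma metAt_extM (p : sphere (0 : E₁) 1 × sphere (0 : E₂) 1)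
    {g : sphere (0 : E₁) 1 × sphere (0 : E₂) 1 → (E₁ × E₂) →L[ℝ] (E₁ × E₂) →L[ℝ] ℝ}
    {z : E₁ × E₂} (h1 : z.1 ≠ 0) (h2 : z.2 ≠ 0) (hs : ContDiffAt ℝ 2 (extM p g) z)
    (hsymm : ∀ q : sphere (0 : E₁) 1 × sphere (0 : E₂) 1, ∀ u v : E₁ × E₂,
      ⟪(q.1 : E₁), u.1⟫ = 0 → ⟪(q.2 : E₂), u.2⟫ = 0 → ⟪(q.1 : E₁), v.1⟫ = 0 →
      ⟪(q.2 : E₂), v.2⟫ = 0 → g q u v = g q v u)
    (hpos : ∀ q : sphere (0 : E₁) 1 × sphere (0 : E₂) 1, ∀ u : E₁ × E₂,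
      ⟪(q.1 : E₁), u.1⟫ = 0 → ⟪(q.2 : E₂), u.2⟫ = 0 → u ≠ 0 → 0 < g q u u) :
    MetAt (extM p g) z where
  smooth := hs
  symm := by
    have e1 : ∀ᶠ z' : E₁ × E₂ in 𝓝 z, z'.1 ≠ 0 := continuous_fst.continuousAt.eventually_ne h1
    have e2 : ∀ᶠ z' : E₁ × E₂ in 𝓝 z, z'.2 ≠ 0 := continuous_snd.continuousAt.eventually_ne h2
    filter_upwards [e1, e2] with z' a b u v
    rw [extM_apply, extM_apply, hsymm _ _ _ (inner_toS_dn p.1 a u.1) (inner_toS_dn p.2 b u.2)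
      (inner_toS_dn p.1 a v.1) (inner_toS_dn p.2 b v.2)]
    ring
  pos := by
    have e1 : ∀ᶠ z' : E₁ × E₂ in 𝓝 z, z'.1 ≠ 0 := continuous_fst.continuousAt.eventually_ne h1
    have e2 : ∀ᶠ z' : E₁ × E₂ in 𝓝 z, z'.2 ≠ 0 := continuous_snd.continuousAt.eventually_ne h2
    filter_upwards [e1, e2] with z' a b u hu
    rw [extM_apply]
    have m1 := mul_self_nonneg (dl z'.1 u.1)
    have m2 := mul_self_nonneg (dl z'.2 u.2)
    by_cases h0 : ((dn z'.1 u.1, dn z'.2 u.2) : E₁ × E₂) = 0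
    · rw [h0]
      have h3 : dn z'.1 u.1 = 0 := congrArg Prod.fst h0
      have h4 : dn z'.2 u.2 = 0 := congrArg Prod.snd h0
      by_cases h5 : dl z'.1 u.1 = 0
      · have h6 : u.1 = 0 := eq_zero_of_dl_dn a h5 h3
        have h7 : dl z'.2 u.2 ≠ 0 := fun h7 => hu (Prod.ext h6 (eq_zero_of_dl_dn b h7 h4))
        have := mul_self_pos.2 h7
        simp only [map_zero]
        linarith
      · have := mul_self_pos.2 h5
        simp only [map_zero]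
        linarith
    · have := hpos (toS p.1 z'.1, toS p.2 z'.2) _ (inner_toS_dn p.1 a u.1) (inner_toS_dn p.2 b u.2) h0
      linarith

variable [FiniteDimensional ℝ E₁] [FiniteDimensional ℝ E₂] {k l : ℕ}
  [Fact (finrank ℝ E₁ = k + 1)] [Fact (finrank ℝ E₂ = l + 1)]

/-- normalisation of both components. -/
noncomputable def nrm (z : E₁ × E₂) : E₁ × E₂ := (‖z.1‖⁻¹ • z.1, ‖z.2‖⁻¹ • z.2)

omit [FiniteDimensional ℝ E₁] [FiniteDimensional ℝ E₂] in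
lemma hasFDerivAt_nrm {z : E₁ × E₂} (h1 : z.1 ≠ 0) (h2 : z.2 ≠ 0) :
    HasFDerivAt (nrm : E₁ × E₂ → E₁ × E₂) ((dn z.1).prodMap (dn z.2)) z := by
  have a1 : HasFDerivAt (fun z : E₁ × E₂ => ‖z.1‖⁻¹ • z.1) (dn z.1 ∘L ContinuousLinearMap.fst ℝ E₁ E₂) z :=
    HasFDerivAt.comp (g := fun x : E₁ => ‖x‖⁻¹ • x) z (hasFDerivAt_normalize h1) hasFDerivAt_fst
  have a2 : HasFDerivAt (fun z : E₁ × E₂ => ‖z.2‖⁻¹ • z.2) (dn z.2 ∘L ContinuousLinearMap.snd ℝ E₁ E₂) z :=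
    HasFDerivAt.comp (g := fun x : E₂ => ‖x‖⁻¹ • x) z (hasFDerivAt_normalize h2) hasFDerivAt_snd
  exact a1.prodMk a2

omit [FiniteDimensional ℝ E₁] [FiniteDimensional ℝ E₂] in
lemma extF_nrm (p₀ : sphere (0 : E₁) 1 × sphere (0 : E₂) 1)
    (F : sphere (0 : E₁) 1 × sphere (0 : E₂) 1 → ℝ) {z : E₁ × E₂} (h1 : z.1 ≠ 0) (h2 : z.2 ≠ 0) :
    extF p₀ F (nrm z) = extF p₀ F z := by
  simp only [extF, nrm]
  rw [toS_smul p₀.1 z.1 (inv_pos.2 (norm_pos_iff.2 h1)), toS_smul p₀.2 z.2 (inv_pos.2 (norm_pos_iff.2 h2))]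

lemma mixed_ext {F : sphere (0 : E₁) 1 × sphere (0 : E₂) 1 → ℝ}
    (hF : ContMDiff ((𝓡 k).prod (𝓡 l)) 𝓘(ℝ, ℝ) 4 F) (p₀ : sphere (0 : E₁) 1 × sphere (0 : E₂) 1)
    {z : E₁ × E₂} (h1 : z.1 ≠ 0) (h2 : z.2 ≠ 0) (X : E₁) (V : E₂) (w : E₁) (w' : E₂) :
    mixed F (toS p₀.1 z.1, toS p₀.2 z.2) (dn z.1 X, w') (w, dn z.2 V)
      = pd (X, 0) (pd (0, V) (extF p₀ F)) z := by
  set q : sphere (0 : E₁) 1 × sphere (0 : E₂) 1 := (toS p₀.1 z.1, toS p₀.2 z.2) with hq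
  have hq1 : (q.1 : E₁) = ‖z.1‖⁻¹ • z.1 := toS_val p₀.1 h1
  have hq2 : (q.2 : E₂) = ‖z.2‖⁻¹ • z.2 := toS_val p₀.2 h2
  have hqN : ((q.1 : E₁), (q.2 : E₂)) = nrm z := by rw [nrm, hq1, hq2]
  have e1 : extF q F =ᶠ[𝓝 ((q.1 : E₁), (q.2 : E₂))] extF p₀ F :=
    extF_congr q p₀ F (sphere_ne_zero q.1) (sphere_ne_zero q.2)
  have hd : ∀ z : E₁ × E₂, z.1 ≠ 0 → z.2 ≠ 0 → ContDiffAt ℝ 4 (extF p₀ F) z := fun z a b =>
    contDiffAt_comp_toS₂ (r := 4) hF p₀ a b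
  have hN1 : (nrm z).1 ≠ 0 := by rw [← hqN]; exact sphere_ne_zero q.1
  have hN2 : (nrm z).2 ≠ 0 := by rw [← hqN]; exact sphere_ne_zero q.2
  have e2 : mixed F q (dn z.1 X, w') (w, dn z.2 V)
      = fderiv ℝ (fderiv ℝ (extF p₀ F)) (nrm z) (dn z.1 X, 0) (0, dn z.2 V) := by
    rw [mixed, e1.fderiv.fderiv_eq, hqN]
    simp
  rw [e2]
  have n1 : ∀ᶠ z' : E₁ × E₂ in 𝓝 z, z'.1 ≠ 0 := continuous_fst.continuousAt.eventually_ne h1
  have n2 : ∀ᶠ z' : E₁ × E₂ in 𝓝 z, z'.2 ≠ 0 := continuous_snd.continuousAt.eventually_ne h2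
  have e3 : extF p₀ F =ᶠ[𝓝 z] (extF p₀ F) ∘ nrm := by
    filter_upwards [n1, n2] with z' a b
    exact (extF_nrm p₀ F a b).symm
  have e4 : pd (0, V) (extF p₀ F) =ᶠ[𝓝 z] fun z' => fderiv ℝ (extF p₀ F) (nrm z') (0, dn z'.2 V) := by
    filter_upwards [e3.eventuallyEq_nhds, n1, n2] with z' c a b
    have hq' : ((toS p₀.1 z'.1 : E₁), (toS p₀.2 z'.2 : E₂)) = nrm z' := by
      rw [nrm, toS_val p₀.1 a, toS_val p₀.2 b]
    have hNa : (nrm z').1 ≠ 0 := by rw [← hq']; exact sphere_ne_zero _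
    have hNb : (nrm z').2 ≠ 0 := by rw [← hq']; exact sphere_ne_zero _
    have h3 := HasFDerivAt.comp z' ((hd _ hNa hNb).differentiableAt (by norm_num)).hasFDerivAt
      (hasFDerivAt_nrm a b)
    rw [pd, c.fderiv_eq, h3.fderiv]
    simp
  have h5 : HasFDerivAt (fun z' => fderiv ℝ (extF p₀ F) (nrm z'))
      ((fderiv ℝ (fderiv ℝ (extF p₀ F)) (nrm z)) ∘L ((dn z.1).prodMap (dn z.2))) z :=
    HasFDerivAt.comp z ((((hd _ hN1 hN2).fderiv_right (m := 3) (by norm_num)).differentiableAt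
      (by norm_num)).hasFDerivAt) (hasFDerivAt_nrm h1 h2)
  have h6 : DifferentiableAt ℝ (fun y : E₂ => ((0 : E₁), dn y V)) z.2 :=
    (differentiableAt_const _).prodMk (((contDiffAt_dn h2 (k := 1)).differentiableAt
      (by norm_num)).clm_apply (differentiableAt_const V))
  have h7 : HasFDerivAt (fun z' : E₁ × E₂ => ((0 : E₁), dn z'.2 V))
      ((fderiv ℝ (fun y : E₂ => ((0 : E₁), dn y V)) z.2) ∘L ContinuousLinearMap.snd ℝ E₁ E₂) z :=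
    HasFDerivAt.comp (g := fun y : E₂ => ((0 : E₁), dn y V)) z h6.hasFDerivAt hasFDerivAt_snd
  have h8 := h5.clm_apply h7
  have h9 : HasFDerivAt (fun z' => fderiv ℝ (extF p₀ F) (nrm z') (0, dn z'.2 V)) _ z := h8
  have h10 : pd (X, 0) (pd (0, V) (extF p₀ F)) z
      = pd (X, 0) (fun z' => fderiv ℝ (extF p₀ F) (nrm z') (0, dn z'.2 V)) z :=
    (pd_congr e4 _).self_of_nhds
  rw [h10, pd, h9.fderiv]
  simp

end

end Pool.Agent.Helper20.PC
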