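import Pool.Agent.Helper20.PC.Block

/-!
# Metrics on spheres and their cylindrical extension
-/

open Filter Metric Module Set
open scoped Topology ContDiff RealInnerProductSpace Manifold

namespace Pool.Agent.Helper20.PC

section
variable {E : Type*} [NormedAddCommGroup E] [InnerProductSpace ℝ E]

lemma toS_of_ne (x₀ : sphere (0 : E) 1) {x : E} (hx : x ≠ 0) :
    toS x₀ x = ⟨‖x‖⁻¹ • x, mem_sphere_zero_iff_norm.2 (norm_normalize hx)⟩ := dif_neg hx

lemma toS_val (x₀ : sphere (0 : E) 1) {x : E} (hx : x ≠ 0) : (toS x₀ x : E) = ‖x‖⁻¹ • x := by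
  rw [toS_of_ne x₀ hx]

lemma toS_smul (x₀ : sphere (0 : E) 1) (x : E) {t : ℝ} (ht : 0 < t) : toS x₀ (t • x) = toS x₀ x := by
  by_cases hx : x = 0
  · subst hx; rw [smul_zero]
  · apply Subtype.ext
    rw [toS_val x₀ (smul_ne_zero ht.ne' hx), toS_val x₀ hx, norm_smul, Real.norm_eq_abs,
      abs_of_pos ht, smul_smul]
    congr 1
    field_simp

lemma toS_self (x₀ x : sphere (0 : E) 1) : toS x₀ (x : E) = x := by
  have h1 : ‖(x : E)‖ = 1 := mem_sphere_zero_iff_norm.1 x.2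
  have hx : (x : E) ≠ 0 := by
    intro h; rw [h, norm_zero] at h1; exact zero_ne_one h1
  apply Subtype.ext
  rw [toS_val x₀ hx, h1, inv_one, one_smul]

lemma dl_apply (x u : E) : dl x u = (‖x‖ ^ 2)⁻¹ * ⟪x, u⟫ := by simp [dl]

lemma dn_apply (x u : E) : dn x u = ‖x‖⁻¹ • (u - dl x u • x) := by simp [dn]

lemma contDiffAt_dl {x : E} (hx : x ≠ 0) {k : WithTop ℕ∞} : ContDiffAt ℝ k (dl : E → E →L[ℝ] ℝ) x := by
  have h1 : ContDiffAt ℝ k (fun x : E => (‖x‖ ^ 2)⁻¹) x :=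
    (contDiffAt_id.norm_sq ℝ).inv (by simpa using hx)
  have h2 : ContDiffAt ℝ k (fun x : E => (innerSL ℝ x : E →L[ℝ] ℝ)) x :=
    (innerSL ℝ (E := E)).contDiff.contDiffAt
  exact h1.smul h2

lemma contDiffAt_dn {x : E} (hx : x ≠ 0) {k : WithTop ℕ∞} : ContDiffAt ℝ k (dn : E → E →L[ℝ] E) x := by
  unfold dn
  refine ContDiffAt.smul ((contDiffAt_norm ℝ hx).inv (norm_ne_zero_iff.2 hx)) ?_
  exact contDiffAt_const.sub ((contDiffAt_dl hx).smulRight contDiffAt_id)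

lemma inner_dn (x u : E) (hx : x ≠ 0) : ⟪x, dn x u⟫ = 0 := by
  have : ‖x‖ ≠ 0 := norm_ne_zero_iff.2 hx
  rw [dn_apply, inner_smul_right, inner_sub_right, inner_smul_right, dl_apply,
    real_inner_self_eq_norm_sq]
  field_simp
  ring

lemma dl_smul (x u : E) {t : ℝ} (ht : 0 < t) : dl (t • x) u = t⁻¹ * dl x u := by
  rw [dl_apply, dl_apply, norm_smul, Real.norm_eq_abs, abs_of_pos ht, inner_smul_left,
    RCLike.conj_to_real]
  field_simp

lemma dn_smul (x u : E) {t : ℝ} (ht : 0 < t) : dn (t • x) u = t⁻¹ • dn x u := by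
  have e : t⁻¹ * dl x u * t = dl x u := by field_simp
  rw [dn_apply, dn_apply, dl_smul x u ht, smul_smul (t⁻¹ * dl x u) t, e, norm_smul,
    Real.norm_eq_abs, abs_of_pos ht, smul_smul, mul_inv]

lemma dn_self (x : E) (hx : x ≠ 0) : dn x x = 0 := by
  have : ‖x‖ ≠ 0 := norm_ne_zero_iff.2 hx
  rw [dn_apply, dl_apply, real_inner_self_eq_norm_sq]
  have e : (‖x‖ ^ 2)⁻¹ * ‖x‖ ^ 2 = 1 := inv_mul_cancel₀ (by positivity)
  rw [e, one_smul, sub_self, smul_zero]

lemma dl_self (x : E) (hx : x ≠ 0) : dl x x = 1 := by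
  have : ‖x‖ ≠ 0 := norm_ne_zero_iff.2 hx
  rw [dl_apply, real_inner_self_eq_norm_sq]
  exact inv_mul_cancel₀ (by positivity)

/-- at a unit vector, on tangent vectors, `dn` is the identity. -/
lemma dn_tangent {x u : E} (hx : ‖x‖ = 1) (hu : ⟪x, u⟫ = 0) : dn x u = u := by
  rw [dn_apply, dl_apply, hu, hx]
  simp

lemma dl_tangent {x u : E} (hu : ⟪x, u⟫ = 0) : dl x u = 0 := by
  rw [dl_apply, hu, mul_zero]

/-- decomposition of a vector. -/
lemma eq_zero_of_dl_dn {x u : E} (hx : x ≠ 0) (h1 : dl x u = 0) (h2 : dn x u = 0) : u = 0 := by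
  rw [dn_apply, h1, zero_smul, sub_zero, smul_eq_zero] at h2
  rcases h2 with h | h
  · exact absurd (inv_eq_zero.1 h) (norm_ne_zero_iff.2 hx)
  · exact h

/-- The cylindrical extension of a metric `g` on the sphere: `(d log |x|)² + (x/|x|)^* g`. -/
noncomputable def cyl (x₀ : sphere (0 : E) 1) (g : sphere (0 : E) 1 → E →L[ℝ] E →L[ℝ] ℝ) (x : E) :
    E →L[ℝ] E →L[ℝ] ℝ :=
  (dl x).smulRight (dl x) + (g (toS x₀ x)).bilinearComp (dn x) (dn x)

lemma cyl_apply (x₀ : sphere (0 : E) 1) (g : sphere (0 : E) 1 → E →L[ℝ] E →L[ℝ] ℝ) (x u v : E) :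
    cyl x₀ g x u v = dl x u * dl x v + g (toS x₀ x) (dn x u) (dn x v) := by
  simp [cyl]

end

section
variable {E : Type*} [NormedAddCommGroup E] [InnerProductSpace ℝ E] [FiniteDimensional ℝ E] {k : ℕ}
  [Fact (finrank ℝ E = k + 1)]

lemma contMDiffAt_toS (x₀ : sphere (0 : E) 1) {y0 : E} (hy0 : y0 ≠ 0) {r : ℕ∞} :
    ContMDiffAt 𝓘(ℝ, E) (𝓡 k) r (toS x₀) y0 := by
  have hn0 : 0 < ‖y0‖ := norm_pos_iff.2 hy0
  let χ : ContDiffBump y0 := ⟨‖y0‖ / 4, ‖y0‖ / 2, by positivity, by linarith⟩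
  set F : E → E := fun y => y0 + χ y • (y - y0) with hF
  have hFc : ContDiff ℝ r F :=
    contDiff_const.add ((χ.contDiff).smul (contDiff_id.sub contDiff_const))
  have hF0 : ∀ y, F y ≠ 0 := by
    intro y h
    have h1 : ‖F y - y0‖ < ‖y0‖ := by
      rw [hF]
      simp only [add_sub_cancel_left, norm_smul, Real.norm_eq_abs, abs_of_nonneg χ.nonneg]
      by_cases hy : y ∈ ball y0 (‖y0‖ / 2)
      · rw [mem_ball_iff_norm] at hy
        calc χ y * ‖y - y0‖ ≤ 1 * ‖y - y0‖ := by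
              exact mul_le_mul_of_nonneg_right χ.le_one (norm_nonneg _)
          _ < ‖y0‖ := by linarith
      · have : χ y = 0 := χ.zero_of_le_dist (by
          rw [mem_ball, not_lt] at hy
          exact hy)
        rw [this, zero_mul]
        exact hn0
    rw [h, zero_sub, norm_neg] at h1
    exact lt_irrefl _ h1
  set N : E → E := fun y => ‖F y‖⁻¹ • F y with hN
  have hNc : ContDiff ℝ r N :=
    (ContDiff.inv (hFc.norm ℝ hF0) (fun y => norm_ne_zero_iff.2 (hF0 y))).smul hFc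
  have hNs : ∀ y, N y ∈ sphere (0 : E) 1 := fun y => by
    rw [mem_sphere_zero_iff_norm]
    exact norm_normalize (hF0 y)
  have h2 : ContMDiff 𝓘(ℝ, E) (𝓡 k) r (Set.codRestrict N (sphere 0 1) hNs) :=
    (contMDiff_iff_contDiff.2 hNc).codRestrict_sphere hNs
  refine (h2 y0).congr_of_eventuallyEq ?_
  filter_upwards [ball_mem_nhds y0 (by positivity : 0 < ‖y0‖ / 4)] with y hy
  have h4 : χ y = 1 := χ.one_of_mem_closedBall (ball_subset_closedBall hy)
  have h5 : F y = y := by simp [hF, h4]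
  have hy1 : y ≠ 0 := by rw [← h5]; exact hF0 y
  apply Subtype.ext
  rw [Set.val_codRestrict_apply, toS_val x₀ hy1]
  simp only [hN, h5]

lemma contDiffAt_comp_toS {W : Type*} [NormedAddCommGroup W] [NormedSpace ℝ W]
    {f : sphere (0 : E) 1 → W} {r : ℕ∞} (hf : ContMDiff (𝓡 k) 𝓘(ℝ, W) r f) (x₀ : sphere (0 : E) 1)
    {x : E} (hx : x ≠ 0) : ContDiffAt ℝ r (fun x => f (toS x₀ x)) x :=
  contMDiffAt_iff_contDiffAt.1 ((hf.contMDiffAt).comp x (contMDiffAt_toS x₀ hx))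

lemma contDiffAt_of_apply {P F₁ F₂ : Type*} [NormedAddCommGroup P] [NormedSpace ℝ P]
    [NormedAddCommGroup F₁] [NormedSpace ℝ F₁] [NormedAddCommGroup F₂] [NormedSpace ℝ F₂]
    [FiniteDimensional ℝ F₁] {f : P → F₁ →L[ℝ] F₂} {x : P} {r : WithTop ℕ∞}
    (h : ∀ u, ContDiffAt ℝ r (fun x => f x u) x) : ContDiffAt ℝ r f x := by
  let d := finrank ℝ F₁
  have hd : d = finrank ℝ (Fin d → ℝ) := (finrank_fin_fun ℝ).symm
  let e₁ := ContinuousLinearEquiv.ofFinrankEq hd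
  let e₂ := (e₁.arrowCongr (1 : F₂ ≃L[ℝ] F₂)).trans (ContinuousLinearEquiv.piRing (Fin d))
  rw [← Function.id_comp f, ← e₂.symm_comp_self]
  exact e₂.symm.contDiff.contDiffAt.comp x (contDiffAt_pi.mpr fun i => h _)

lemma contDiffAt_bilinearComp {P F₁ F₂ : Type*} [NormedAddCommGroup P] [NormedSpace ℝ P]
    [NormedAddCommGroup F₁] [NormedSpace ℝ F₁] [NormedAddCommGroup F₂] [NormedSpace ℝ F₂]
    [FiniteDimensional ℝ F₂]
    {B : P → F₁ →L[ℝ] F₁ →L[ℝ] ℝ} {L : P → F₂ →L[ℝ] F₁} {x : P} {r : WithTop ℕ∞}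
    (hB : ContDiffAt ℝ r B x) (hL : ContDiffAt ℝ r L x) :
    ContDiffAt ℝ r (fun x => (B x).bilinearComp (L x) (L x)) x := by
  refine contDiffAt_of_apply (fun u => contDiffAt_of_apply (fun v => ?_))
  simp only [ContinuousLinearMap.bilinearComp_apply]
  exact (hB.clm_apply (hL.clm_apply contDiffAt_const)).clm_apply (hL.clm_apply contDiffAt_const)

lemma metAt_cyl {g : sphere (0 : E) 1 → E →L[ℝ] E →L[ℝ] ℝ} (hg : IsMetricS k g)
    (x₀ : sphere (0 : E) 1) {x : E} (hx : x ≠ 0) : MetAt (cyl x₀ g) x where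
  smooth := by
    unfold cyl
    refine ((contDiffAt_dl hx).smulRight (contDiffAt_dl hx)).add ?_
    exact contDiffAt_bilinearComp (contDiffAt_comp_toS hg.smooth x₀ hx) (contDiffAt_dn hx)
  symm := by
    filter_upwards [isOpen_ne.mem_nhds hx] with x' hx' u v
    rw [cyl_apply, cyl_apply, mul_comm (dl x' u)]
    congr 1
    refine hg.symm _ _ _ ?_ ?_
    · rw [toS_val x₀ hx', inner_smul_left, inner_dn x' u hx', mul_zero]
    · rw [toS_val x₀ hx', inner_smul_left, inner_dn x' v hx', mul_zero]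
  pos := by
    filter_upwards [isOpen_ne.mem_nhds hx] with x' hx' u hu
    rw [cyl_apply]
    have h1 : ⟪((toS x₀ x' : sphere (0 : E) 1) : E), dn x' u⟫ = 0 := by
      rw [toS_val x₀ hx', inner_smul_left, inner_dn x' u hx', mul_zero]
    by_cases h2 : dn x' u = 0
    · have h3 : dl x' u ≠ 0 := fun h3 => hu (eq_zero_of_dl_dn hx' h3 h2)
      have : 0 < dl x' u * dl x' u := mul_self_pos.2 h3
      rw [h2]
      simpa using h3
    · have := hg.pos _ _ h1 h2
      nlinarith [mul_self_nonneg (dl x' u)]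

end

end Pool.Agent.Helper20.PC
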