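import Pool.Agent.Helper20.PC.RankOne

/-!
# Block metrics on a product
-/

open Filter
open scoped Topology ContDiff

namespace Pool.Agent.Helper20.PC

variable {E₁ : Type*} [NormedAddCommGroup E₁] [NormedSpace ℝ E₁]
variable {E₂ : Type*} [NormedAddCommGroup E₂] [NormedSpace ℝ E₂]

/-- the metric `G₁(x) ⊕ H(x,y)` on `E₁ × E₂`. -/
noncomputable def block (G₁ : E₁ → E₁ →L[ℝ] E₁ →L[ℝ] ℝ) (H : E₁ × E₂ → E₂ →L[ℝ] E₂ →L[ℝ] ℝ)
    (z : E₁ × E₂) : (E₁ × E₂) →L[ℝ] (E₁ × E₂) →L[ℝ] ℝ :=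
  (G₁ z.1).bilinearComp (ContinuousLinearMap.fst ℝ E₁ E₂) (ContinuousLinearMap.fst ℝ E₁ E₂)
    + (H z).bilinearComp (ContinuousLinearMap.snd ℝ E₁ E₂) (ContinuousLinearMap.snd ℝ E₁ E₂)

variable {G₁ : E₁ → E₁ →L[ℝ] E₁ →L[ℝ] ℝ} {H : E₁ × E₂ → E₂ →L[ℝ] E₂ →L[ℝ] ℝ} {z : E₁ × E₂}

lemma block_apply (z u v : E₁ × E₂) : block G₁ H z u v = G₁ z.1 u.1 v.1 + H z u.2 v.2 := by
  simp [block]

lemma dG_fst (h : ContDiffAt ℝ 2 G₁ z.1) (t : E₁ × E₂) (a b : E₁) :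
    fderiv ℝ (fun z' : E₁ × E₂ => G₁ z'.1 a b) z t = dG G₁ z.1 t.1 a b := by
  have h1 : HasFDerivAt (fun z' : E₁ × E₂ => G₁ z'.1 a b)
      ((fderiv ℝ (fun x => G₁ x a b) z.1) ∘L (ContinuousLinearMap.fst ℝ E₁ E₂)) z :=
    HasFDerivAt.comp (g := fun x => G₁ x a b) z
      ((smooth2 h a b).differentiableAt (by norm_num)).hasFDerivAt hasFDerivAt_fst
  rw [h1.fderiv]
  rfl

lemma dG_block (h : ContDiffAt ℝ 2 G₁ z.1) (hH : ContDiffAt ℝ 2 H z) (t u v : E₁ × E₂) :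
    dG (block G₁ H) z t u v = dG G₁ z.1 t.1 u.1 v.1 + fderiv ℝ (fun z' => H z' u.2 v.2) z t := by
  have hd : DifferentiableAt ℝ (fun z' : E₁ × E₂ => G₁ z'.1 u.1 v.1) z :=
    DifferentiableAt.comp (g := fun x => G₁ x u.1 v.1) z
      ((smooth2 h u.1 v.1).differentiableAt (by norm_num)) differentiableAt_fst
  have hd2 : DifferentiableAt ℝ (fun z' => H z' u.2 v.2) z :=
    ((hH.clm_apply contDiffAt_const).clm_apply contDiffAt_const).differentiableAt (by norm_num)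
  have h1 : HasFDerivAt (fun z' : E₁ × E₂ => G₁ z'.1 u.1 v.1 + H z' u.2 v.2) _ z :=
    hd.hasFDerivAt.add hd2.hasFDerivAt
  rw [dG]
  simp_rw [block_apply]
  rw [h1.fderiv, _root_.add_apply, dG_fst h]

variable [FiniteDimensional ℝ E₁] [FiniteDimensional ℝ E₂]

lemma chr_block_X (h : ContDiffAt ℝ 2 G₁ z.1) (hH : ContDiffAt ℝ 2 H z) (hb : MetAt (block G₁ H) z)
    (X : E₁) (w : E₁ × E₂) :
    chr (block G₁ H) z (X, 0) (X, 0) w = chr G₁ z.1 X X w.1 := by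
  rw [chr_apply hb.smooth, chr_apply h, dG_block h hH, dG_block h hH]
  simp

lemma Gam_block_X (h : MetAt G₁ z.1) (hH : ContDiffAt ℝ 2 H z) (hb : MetAt (block G₁ H) z) (X : E₁) :
    Gam (block G₁ H) z (X, 0) (X, 0) = (Gam G₁ z.1 X X, 0) := by
  refine Gam_unique hb (fun w => ?_)
  rw [chr_block_X h.smooth hH hb, block_apply, G_Gam h]
  simp

/-- **Curvature of a block metric** on a mixed plane. -/
theorem num_block (h : MetAt G₁ z.1) (hH : ContDiffAt ℝ 2 H z) (hb : MetAt (block G₁ H) z)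
    (X : E₁) (V : E₂) (hX : ∀ v, fderiv ℝ (fun z' => H z' V v) z (X, 0) = 0) :
    num (block G₁ H) z (X, 0) (0, V) = -(1 / 2) * (D2 (fun z' => H z' V V) z (X, 0) (X, 0)
      - fderiv ℝ (fun z' => H z' V V) z (Gam G₁ z.1 X X, 0)) := by
  have e1 : ddG (block G₁ H) z (X, 0) (0, V) (X, 0) (0, V) = 0 := by
    have : (fun z' => block G₁ H z' (X, 0) (0, V)) = fun _ => 0 := by
      funext z'; rw [block_apply]; simp
    rw [ddG_D2, this]
    simp [D2]
  have e2 : ddG (block G₁ H) z (X, 0) (X, 0) (0, V) (0, V) = D2 (fun z' => H z' V V) z (X, 0) (X, 0) := by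
    have : (fun z' => block G₁ H z' (0, V) (0, V)) = fun z' => H z' V V := by
      funext z'; rw [block_apply]; simp
    rw [ddG_D2, this]
  have e3 : ddG (block G₁ H) z (0, V) (0, V) (X, 0) (X, 0) = 0 := by
    have e : (fun z' => block G₁ H z' (X, 0) (X, 0)) = fun z' => G₁ z'.1 X X := by
      funext z'; rw [block_apply]; simp
    have e4 : (fun z' : E₁ × E₂ => fderiv ℝ (fun z'' : E₁ × E₂ => G₁ z''.1 X X) z' (0, V)) =ᶠ[𝓝 z]
        fun _ => 0 := by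
      have := (continuous_fst (X := E₁) (Y := E₂)).continuousAt (x := z)
      filter_upwards [this.eventually h.eventually] with z' hz'
      rw [dG_fst hz'.smooth]
      simp [dG]
    rw [ddG_D2, e, D2, e4.fderiv_eq]
    simp
  have e5 : chr (block G₁ H) z (X, 0) (0, V) = 0 := by
    refine ContinuousLinearMap.ext (fun w => ?_)
    rw [chr_apply hb.smooth, dG_block h.smooth hH, dG_block h.smooth hH, dG_block h.smooth hH]
    simp only [hX]
    simp [dG]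
  have e6 : chr (block G₁ H) z (X, 0) (X, 0) (Gam (block G₁ H) z (0, V) (0, V))
      = -(1 / 2) * fderiv ℝ (fun z' => H z' V V) z (Gam G₁ z.1 X X, 0) := by
    rw [← G_Gam hb, hb.symm.self_of_nhds, G_Gam hb, Gam_block_X h hH hb, chr_apply hb.smooth,
      dG_block h.smooth hH, dG_block h.smooth hH]
    simp [dG]
  rw [num, e1, e2, e3, e5, e6]
  simp
  ring

end Pool.Agent.Helper20.PC
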