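import Mathlib

/-!
# Metrics on a product of two spheres and their sectional curvature

A metric on an open subset of a vector space `F` is a function `G : F → F →L[ℝ] F →L[ℝ] ℝ`.
A metric on the unit sphere `S` of `E` is a function `g : S → E →L[ℝ] E →L[ℝ] ℝ`; only the
restriction of `g x` to `T_x S = x^⊥` matters.
-/

open Filter Metric Module Set
open scoped Topology ContDiff RealInnerProductSpace Manifold

namespace Pool.Agent.Helper20.PC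

/-! ### Curvature of a metric on a vector space -/

section
variable {F : Type*} [NormedAddCommGroup F] [NormedSpace ℝ F]

/-- Christoffel symbols of the first kind:
`chr G z u v w = (D_u G(v,w) + D_v G(u,w) - D_w G(u,v)) / 2`. -/
noncomputable def chr (G : F → F →L[ℝ] F →L[ℝ] ℝ) (z u v : F) : F →L[ℝ] ℝ :=
  (1 / 2 : ℝ) • (fderiv ℝ (fun z' => G z' v) z u + fderiv ℝ (fun z' => G z' u) z v
    - fderiv ℝ (fun z' => G z' u v) z)

/-- The Levi-Civita connection form: the vector `Γ(u,v)` with `G(Γ(u,v),w) = chr G z u v w`. -/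
noncomputable def Gam (G : F → F →L[ℝ] F →L[ℝ] ℝ) (z u v : F) : F :=
  (G z).inverse (chr G z u v)

/-- The Riemann curvature tensor `R(u,v)w = ∇_u ∇_v w - ∇_v ∇_u w` for constant `u, v, w`. -/
noncomputable def Riem (G : F → F →L[ℝ] F →L[ℝ] ℝ) (z u v w : F) : F :=
  fderiv ℝ (fun z' => Gam G z' v w) z u - fderiv ℝ (fun z' => Gam G z' u w) z v
    + Gam G z u (Gam G z v w) - Gam G z v (Gam G z u w)

/-- The sectional curvature of the plane spanned by `u` and `v` at `z`. -/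
noncomputable def secCurv (G : F → F →L[ℝ] F →L[ℝ] ℝ) (z u v : F) : ℝ :=
  G z (Riem G z u v v) u / (G z u u * G z v v - G z u v ^ 2)

end

/-! ### The sphere -/

section
variable {E : Type*} [NormedAddCommGroup E] [InnerProductSpace ℝ E]

lemma norm_normalize {y : E} (hy : y ≠ 0) : ‖‖y‖⁻¹ • y‖ = 1 := by
  rw [norm_smul, norm_inv, norm_norm, inv_mul_cancel₀ (norm_ne_zero_iff.2 hy)]

open Classical in
/-- The radial projection `x ↦ x/|x|` to the unit sphere (with value `x₀` at `0`). -/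
noncomputable def toS (x₀ : sphere (0 : E) 1) (x : E) : sphere (0 : E) 1 :=
  if hx : x = 0 then x₀ else ⟨‖x‖⁻¹ • x, mem_sphere_zero_iff_norm.2 (norm_normalize hx)⟩

/-- The one-form `d log |x|`. -/
noncomputable def dl (x : E) : E →L[ℝ] ℝ := (‖x‖ ^ 2)⁻¹ • innerSL ℝ x

/-- The derivative of `x ↦ x/|x|`: `u ↦ |x|⁻¹ (u - ⟨x,u⟩ x/|x|²)`. -/
noncomputable def dn (x : E) : E →L[ℝ] E :=
  ‖x‖⁻¹ • (ContinuousLinearMap.id ℝ E - (dl x).smulRight x)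

/-- A `C²` Riemannian metric on the unit sphere; `g x` is only used on `T_x S = x^⊥`. -/
structure IsMetricS [FiniteDimensional ℝ E] (k : ℕ) [Fact (finrank ℝ E = k + 1)]
    (g : sphere (0 : E) 1 → E →L[ℝ] E →L[ℝ] ℝ) : Prop where
  smooth : ContMDiff (𝓡 k) 𝓘(ℝ, E →L[ℝ] E →L[ℝ] ℝ) 2 g
  symm : ∀ x : sphere (0 : E) 1, ∀ u v, ⟪(x : E), u⟫ = 0 → ⟪(x : E), v⟫ = 0 → g x u v = g x v u
  pos : ∀ x : sphere (0 : E) 1, ∀ u, ⟪(x : E), u⟫ = 0 → u ≠ 0 → 0 < g x u u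

/-- A `C²` family of metrics on the unit sphere with parameter in `J`. -/
structure IsFamilyS [FiniteDimensional ℝ E] (l : ℕ) [Fact (finrank ℝ E = l + 1)] (J : Set ℝ)
    (h : ℝ → sphere (0 : E) 1 → E →L[ℝ] E →L[ℝ] ℝ) : Prop where
  smooth : ContMDiffOn (𝓘(ℝ, ℝ).prod (𝓡 l)) 𝓘(ℝ, E →L[ℝ] E →L[ℝ] ℝ) 2
    (fun q : ℝ × sphere (0 : E) 1 => h q.1 q.2) (J ×ˢ univ)
  symm : ∀ t ∈ J, ∀ y : sphere (0 : E) 1, ∀ u v, ⟪(y : E), u⟫ = 0 → ⟪(y : E), v⟫ = 0 →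
    h t y u v = h t y v u
  pos : ∀ t ∈ J, ∀ y : sphere (0 : E) 1, ∀ u, ⟪(y : E), u⟫ = 0 → u ≠ 0 → 0 < h t y u u

end

/-! ### The product of two spheres -/

section
variable {E₁ : Type*} [NormedAddCommGroup E₁] [InnerProductSpace ℝ E₁]
variable {E₂ : Type*} [NormedAddCommGroup E₂] [InnerProductSpace ℝ E₂]

/-- The cylindrical extension `(d log |x|)² + (d log |y|)² + (x/|x|, y/|y|)^* g` to
`(E₁ ∖ 0) × (E₂ ∖ 0)` of a metric `g` on the product of two spheres. -/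
noncomputable def extM (p₀ : sphere (0 : E₁) 1 × sphere (0 : E₂) 1)
    (g : sphere (0 : E₁) 1 × sphere (0 : E₂) 1 → (E₁ × E₂) →L[ℝ] (E₁ × E₂) →L[ℝ] ℝ)
    (z : E₁ × E₂) : (E₁ × E₂) →L[ℝ] (E₁ × E₂) →L[ℝ] ℝ :=
  (dl z.1 ∘L ContinuousLinearMap.fst ℝ E₁ E₂).smulRight (dl z.1 ∘L ContinuousLinearMap.fst ℝ E₁ E₂)
    + (dl z.2 ∘L ContinuousLinearMap.snd ℝ E₁ E₂).smulRight (dl z.2 ∘L ContinuousLinearMap.snd ℝ E₁ E₂)
    + (g (toS p₀.1 z.1, toS p₀.2 z.2)).bilinearComp ((dn z.1).prodMap (dn z.2))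
      ((dn z.1).prodMap (dn z.2))

/-- The metric tensor `g₁ ⊕ g₂ + η ⊗ η` on the product of two spheres. -/
noncomputable def sumMetric (g₁ : sphere (0 : E₁) 1 → E₁ →L[ℝ] E₁ →L[ℝ] ℝ)
    (g₂ : sphere (0 : E₂) 1 → E₂ →L[ℝ] E₂ →L[ℝ] ℝ)
    (η : sphere (0 : E₁) 1 × sphere (0 : E₂) 1 → (E₁ × E₂) →L[ℝ] ℝ)
    (p : sphere (0 : E₁) 1 × sphere (0 : E₂) 1) : (E₁ × E₂) →L[ℝ] (E₁ × E₂) →L[ℝ] ℝ :=
  (g₁ p.1).bilinearComp (ContinuousLinearMap.fst ℝ E₁ E₂) (ContinuousLinearMap.fst ℝ E₁ E₂)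
    + (g₂ p.2).bilinearComp (ContinuousLinearMap.snd ℝ E₁ E₂) (ContinuousLinearMap.snd ℝ E₁ E₂)
    + (η p).smulRight (η p)

/-- The differential at `p` of a function `ρ` on the product of two spheres (composed with the
orthogonal projections to the tangent spaces). -/
noncomputable def dS (ρ : sphere (0 : E₁) 1 × sphere (0 : E₂) 1 → ℝ)
    (p : sphere (0 : E₁) 1 × sphere (0 : E₂) 1) : (E₁ × E₂) →L[ℝ] ℝ :=
  fderiv ℝ (fun z : E₁ × E₂ => ρ (toS p.1 z.1, toS p.2 z.2)) ((p.1 : E₁), (p.2 : E₂))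

/-- The metric `g₁ ⊕ h_ρ + dρ ⊗ dρ`. -/
noncomputable def graphMetric (g₁ : sphere (0 : E₁) 1 → E₁ →L[ℝ] E₁ →L[ℝ] ℝ)
    (h : ℝ → sphere (0 : E₂) 1 → E₂ →L[ℝ] E₂ →L[ℝ] ℝ)
    (ρ : sphere (0 : E₁) 1 × sphere (0 : E₂) 1 → ℝ)
    (p : sphere (0 : E₁) 1 × sphere (0 : E₂) 1) : (E₁ × E₂) →L[ℝ] (E₁ × E₂) →L[ℝ] ℝ :=
  (g₁ p.1).bilinearComp (ContinuousLinearMap.fst ℝ E₁ E₂) (ContinuousLinearMap.fst ℝ E₁ E₂)
    + (h (ρ p) p.2).bilinearComp (ContinuousLinearMap.snd ℝ E₁ E₂) (ContinuousLinearMap.snd ℝ E₁ E₂)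
    + (dS ρ p).smulRight (dS ρ p)

/-- The sectional curvature at `p = (x, y)` of the metric `g` on the product of the unit spheres of
`E₁` and `E₂`, for the plane spanned by two vectors `u`, `v` tangent to the product: it is computed
in the Riemannian product of `ℝ²` and the product of the spheres, realised as
`(E₁ ∖ 0) × (E₂ ∖ 0)` with the metric `(d log |x|)² + (d log |y|)² + (x/|x|, y/|y|)^* g`. -/
noncomputable def sectional
    (g : sphere (0 : E₁) 1 × sphere (0 : E₂) 1 → (E₁ × E₂) →L[ℝ] (E₁ × E₂) →L[ℝ] ℝ)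
    (p : sphere (0 : E₁) 1 × sphere (0 : E₂) 1) (u v : E₁ × E₂) : ℝ :=
  secCurv (extM p g) ((p.1 : E₁), (p.2 : E₂)) u v

end

end Pool.Agent.Helper20.PC
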