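import Pool.Agent.Helper20.PC.Defs

/-!
# Rank-two perturbations of twisted product metrics
-/

open Filter Metric Module Set
open scoped Topology ContDiff RealInnerProductSpace Manifold

namespace Pool.Agent.Helper20.PC

section
variable {E₁ : Type*} [NormedAddCommGroup E₁] [InnerProductSpace ℝ E₁]
variable {E₂ : Type*} [NormedAddCommGroup E₂] [InnerProductSpace ℝ E₂]

/-- `C²` functions on the product of the unit spheres, with values in a normed space. -/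
def IsC2 [FiniteDimensional ℝ E₁] [FiniteDimensional ℝ E₂] (k l : ℕ)
    [Fact (finrank ℝ E₁ = k + 1)] [Fact (finrank ℝ E₂ = l + 1)] {W : Type*} [NormedAddCommGroup W]
    [NormedSpace ℝ W] (f : sphere (0 : E₁) 1 × sphere (0 : E₂) 1 → W) : Prop :=
  ContMDiff ((𝓡 k).prod (𝓡 l)) 𝓘(ℝ, W) 2 f

/-- A `C²` family `h (x, y)` of inner products on the tangent spaces `T_x S = x^⊥` of the unit sphere
of `E₁`, with parameter `y` in the unit sphere of `E₂`. -/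
structure IsFamilySS [FiniteDimensional ℝ E₁] [FiniteDimensional ℝ E₂] (k l : ℕ)
    [Fact (finrank ℝ E₁ = k + 1)] [Fact (finrank ℝ E₂ = l + 1)]
    (h : sphere (0 : E₁) 1 × sphere (0 : E₂) 1 → E₁ →L[ℝ] E₁ →L[ℝ] ℝ) : Prop where
  smooth : IsC2 k l h
  symm : ∀ q : sphere (0 : E₁) 1 × sphere (0 : E₂) 1, ∀ u v, ⟪(q.1 : E₁), u⟫ = 0 →
    ⟪(q.1 : E₁), v⟫ = 0 → h q u v = h q v u
  pos : ∀ q : sphere (0 : E₁) 1 × sphere (0 : E₂) 1, ∀ u, ⟪(q.1 : E₁), u⟫ = 0 → u ≠ 0 → 0 < h q u u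

/-- The bilinear form `A ⊕ B` on `E₁ × E₂`. -/
noncomputable def sumForm (A : E₁ →L[ℝ] E₁ →L[ℝ] ℝ) (B : E₂ →L[ℝ] E₂ →L[ℝ] ℝ) :
    (E₁ × E₂) →L[ℝ] (E₁ × E₂) →L[ℝ] ℝ :=
  A.bilinearComp (ContinuousLinearMap.fst ℝ E₁ E₂) (ContinuousLinearMap.fst ℝ E₁ E₂)
    + B.bilinearComp (ContinuousLinearMap.snd ℝ E₁ E₂) (ContinuousLinearMap.snd ℝ E₁ E₂)

/-- The symmetric bilinear form `p α ⊗ α + r (α ⊗ β + β ⊗ α) + s β ⊗ β`. -/
noncomputable def quadForm {F : Type*} [NormedAddCommGroup F] [NormedSpace ℝ F] (α β : F →L[ℝ] ℝ)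
    (p r s : ℝ) : F →L[ℝ] F →L[ℝ] ℝ :=
  p • α.smulRight α + r • (α.smulRight β + β.smulRight α) + s • β.smulRight β

/-- The metric `h + g₂ + p a ⊗ a + r (a ⊗ b + b ⊗ a) + s b ⊗ b` on the product of two spheres, where
`a` and `b` are forms along the first and the second factor, depending on both variables. -/
noncomputable def twoMetric (h : sphere (0 : E₁) 1 × sphere (0 : E₂) 1 → E₁ →L[ℝ] E₁ →L[ℝ] ℝ)
    (g₂ : sphere (0 : E₂) 1 → E₂ →L[ℝ] E₂ →L[ℝ] ℝ)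
    (a : sphere (0 : E₁) 1 × sphere (0 : E₂) 1 → E₁ →L[ℝ] ℝ)
    (b : sphere (0 : E₁) 1 × sphere (0 : E₂) 1 → E₂ →L[ℝ] ℝ)
    (p r s : sphere (0 : E₁) 1 × sphere (0 : E₂) 1 → ℝ)
    (q : sphere (0 : E₁) 1 × sphere (0 : E₂) 1) : (E₁ × E₂) →L[ℝ] (E₁ × E₂) →L[ℝ] ℝ :=
  sumForm (h q) (g₂ q.2) + quadForm (a q ∘L ContinuousLinearMap.fst ℝ E₁ E₂)
    (b q ∘L ContinuousLinearMap.snd ℝ E₁ E₂) (p q) (r q) (s q)

/-- `a` and `b` are `C²` forms along the first and the second factor, `p`, `r`, `s` are `C²`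
functions. -/
structure IsTwoData [FiniteDimensional ℝ E₁] [FiniteDimensional ℝ E₂] (k l : ℕ)
    [Fact (finrank ℝ E₁ = k + 1)] [Fact (finrank ℝ E₂ = l + 1)]
    (a : sphere (0 : E₁) 1 × sphere (0 : E₂) 1 → E₁ →L[ℝ] ℝ)
    (b : sphere (0 : E₁) 1 × sphere (0 : E₂) 1 → E₂ →L[ℝ] ℝ)
    (p r s : sphere (0 : E₁) 1 × sphere (0 : E₂) 1 → ℝ) : Prop where
  smooth_a : IsC2 k l a
  smooth_b : IsC2 k l b
  smooth_p : IsC2 k l p
  smooth_r : IsC2 k l r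
  smooth_s : IsC2 k l s

/-- The matrix `((p, r), (r, s))` is positive semidefinite everywhere. -/
def IsPsd {X : Type*} (p r s : X → ℝ) : Prop := ∀ q, 0 ≤ p q ∧ 0 ≤ s q ∧ r q ^ 2 ≤ p q * s q

end

end Pool.Agent.Helper20.PC
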