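import Pool.Agent.Helper20.PC.Jacobi

/-!
# The Riemannian divergence in Euclidean coordinates
-/

open Filter Metric Module Set Matrix
open scoped Topology ContDiff RealInnerProductSpace Manifold

namespace Pool.Agent.Helper20.PC

section
variable {E : Type*} [NormedAddCommGroup E] [InnerProductSpace ℝ E] [FiniteDimensional ℝ E]
variable {G : E → E →L[ℝ] E →L[ℝ] ℝ} {x : E}

/-- Riemannian density. -/
noncomputable def rho (G : E → E →L[ℝ] E →L[ℝ] ℝ) (x : E) : ℝ :=
  Real.sqrt (detF (gram (stdOrthonormalBasis ℝ E) (G x)))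

lemma detF_gram_pos (h : MetAt G x) : 0 < detF (gram (stdOrthonormalBasis ℝ E) (G x)) :=
  gram_det_pos _ h.symm.self_of_nhds h.pos.self_of_nhds

lemma rho_pos (h : MetAt G x) : 0 < rho G x := Real.sqrt_pos.2 (detF_gram_pos h)

lemma contDiffAt_gram (h : MetAt G x) :
    ContDiffAt ℝ 1 (fun z => gram (stdOrthonormalBasis ℝ E) (G z)) x := by
  refine contDiffAt_pi.2 (fun i => contDiffAt_pi.2 (fun j => ?_))
  exact (smooth2 h.smooth _ _).of_le (by norm_num)

lemma contDiffAt_rho (h : MetAt G x) : ContDiffAt ℝ 1 (rho G) x := by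
  unfold rho
  refine ContDiffAt.sqrt ?_ (detF_gram_pos h).ne'
  exact contDiff_detF.contDiffAt.comp x (contDiffAt_gram h)

lemma hasFDerivAt_gram (h : MetAt G x) :
    HasFDerivAt (fun z => gram (stdOrthonormalBasis ℝ E) (G z))
      (ContinuousLinearMap.pi fun i => ContinuousLinearMap.pi fun j =>
        fderiv ℝ (fun z => G z (stdOrthonormalBasis ℝ E i) (stdOrthonormalBasis ℝ E j)) x) x := by
  refine hasFDerivAt_pi.2 (fun i => hasFDerivAt_pi.2 (fun j => ?_))
  exact ((smooth2 h.smooth _ _).differentiableAt (by norm_num)).hasFDerivAt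

lemma fderiv_rho (h : MetAt G x) (u : E) :
    fderiv ℝ (rho G) x u = rho G x * (1 / 2 * trace ((Matrix.of (gram (stdOrthonormalBasis ℝ E) (G x)))⁻¹
      * Matrix.of (fun i j => dG G x u (stdOrthonormalBasis ℝ E i) (stdOrthonormalBasis ℝ E j)))) := by
  have hpos := detF_gram_pos h
  have hd : HasFDerivAt detF (fderiv ℝ detF (gram (stdOrthonormalBasis ℝ E) (G x)))
      (gram (stdOrthonormalBasis ℝ E) (G x)) :=
    (contDiff_detF.differentiable (by norm_num) _).hasFDerivAt
  have h0 : HasFDerivAt (fun z => detF (gram (stdOrthonormalBasis ℝ E) (G z)))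
      ((fderiv ℝ detF (gram (stdOrthonormalBasis ℝ E) (G x))) ∘L
        (ContinuousLinearMap.pi fun i => ContinuousLinearMap.pi fun j =>
        fderiv ℝ (fun z => G z (stdOrthonormalBasis ℝ E i) (stdOrthonormalBasis ℝ E j)) x)) x :=
    HasFDerivAt.comp x hd (hasFDerivAt_gram h)
  have h1 := h0.sqrt hpos.ne'
  have h2 : HasFDerivAt (rho G) _ x := h1
  have h6 : Real.sqrt (detF (gram (stdOrthonormalBasis ℝ E) (G x))) = rho G x := rfl
  rw [h2.fderiv, h6, _root_.smul_apply, ContinuousLinearMap.comp_apply, smul_eq_mul]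
  have h3 : (ContinuousLinearMap.pi fun i => ContinuousLinearMap.pi fun j =>
        fderiv ℝ (fun z => G z (stdOrthonormalBasis ℝ E i) (stdOrthonormalBasis ℝ E j)) x) u
      = (fun i j => dG G x u (stdOrthonormalBasis ℝ E i) (stdOrthonormalBasis ℝ E j)) := rfl
  rw [h3, fderiv_detF _ _ (isUnit_iff_ne_zero.2 hpos.ne')]
  have h4 : rho G x ^ 2 = detF (gram (stdOrthonormalBasis ℝ E) (G x)) := Real.sq_sqrt hpos.le
  have h5 := rho_pos h
  rw [← h4]
  field_simp

lemma Gam_add_left (h : MetAt G x) (u v w : E) :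
    Gam G x (u + v) w = Gam G x u w + Gam G x v w := by
  refine Gam_unique h (fun w' => ?_)
  rw [map_add, _root_.add_apply, G_Gam h, G_Gam h, chr_apply h.smooth, chr_apply h.smooth,
    chr_apply h.smooth, dG_add]
  have e1 : dG G x w (u + v) w' = dG G x w u w' + dG G x w v w' := by
    rw [← fderiv_one_apply h.smooth, ← fderiv_one_apply h.smooth, ← fderiv_one_apply h.smooth]
    have : (fun z' => G z' (u + v)) = (fun z' => G z' u + G z' v) := by funext z'; rw [map_add]
    have h1 := ((smooth1 h.smooth u).differentiableAt (by norm_num)).hasFDerivAt.add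
      ((smooth1 h.smooth v).differentiableAt (by norm_num)).hasFDerivAt
    have h2 : HasFDerivAt (fun z' => G z' u + G z' v) _ x := h1
    rw [this, h2.fderiv]
    simp
  have e2 : dG G x w' (u + v) w = dG G x w' u w + dG G x w' v w := by
    rw [← fderiv_one_apply h.smooth, ← fderiv_one_apply h.smooth, ← fderiv_one_apply h.smooth]
    have : (fun z' => G z' (u + v)) = (fun z' => G z' u + G z' v) := by funext z'; rw [map_add]
    have h1 := ((smooth1 h.smooth u).differentiableAt (by norm_num)).hasFDerivAt.add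
      ((smooth1 h.smooth v).differentiableAt (by norm_num)).hasFDerivAt
    have h2 : HasFDerivAt (fun z' => G z' u + G z' v) _ x := h1
    rw [this, h2.fderiv]
    simp
  rw [e1, e2]
  ring

lemma Gam_smul_left (h : MetAt G x) (t : ℝ) (u w : E) :
    Gam G x (t • u) w = t • Gam G x u w := by
  refine Gam_unique h (fun w' => ?_)
  have e0 : ∀ s w', dG G x s (t • u) w' = t * dG G x s u w' := by
    intro s w'
    rw [← fderiv_one_apply h.smooth, ← fderiv_one_apply h.smooth]
    have : (fun z' => G z' (t • u)) = (fun z' => t • G z' u) := by funext z'; rw [map_smul]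
    have h1 := ((smooth1 h.smooth u).differentiableAt (by norm_num)).hasFDerivAt.const_smul t
    have h2 : HasFDerivAt (fun z' => t • G z' u) _ x := h1
    rw [this, h2.fderiv]
    simp
  have e3 : dG G x (t • u) w w' = t * dG G x u w w' := by simp [dG]
  rw [map_smul, _root_.smul_apply, G_Gam h, chr_apply h.smooth, chr_apply h.smooth, e0, e0, e3,
    smul_eq_mul]
  ring

lemma exists_covD (h : MetAt G x) (W : E → E) :
    ∃ T : E →ₗ[ℝ] E, ∀ v, T v = fderiv ℝ W x v + Gam G x v (W x) :=
  ⟨{ toFun := fun v => fderiv ℝ W x v + Gam G x v (W x)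
     map_add' := fun u v => by rw [map_add, Gam_add_left h]; abel
     map_smul' := fun t u => by rw [map_smul, Gam_smul_left h, smul_add]; rfl }, fun v => rfl⟩

lemma exists_Gam_left (h : MetAt G x) (w : E) :
    ∃ T : E →ₗ[ℝ] E, ∀ v, T v = Gam G x v w :=
  ⟨{ toFun := fun v => Gam G x v w
     map_add' := fun u v => by rw [Gam_add_left h]
     map_smul' := fun t u => by rw [Gam_smul_left h]; rfl }, fun v => rfl⟩

lemma trace_Gam_left (h : MetAt G x) (w : E) (T : E →ₗ[ℝ] E) (hT : ∀ v, T v = Gam G x v w) :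
    LinearMap.trace ℝ E T = 1 / 2 * trace ((Matrix.of (gram (stdOrthonormalBasis ℝ E) (G x)))⁻¹
      * Matrix.of (fun i j => dG G x w (stdOrthonormalBasis ℝ E i) (stdOrthonormalBasis ℝ E j))) := by
  have hpos := detF_gram_pos h
  rw [trace_eq_gram (stdOrthonormalBasis ℝ E) (B := G x) (isUnit_iff_ne_zero.2 hpos.ne') T]
  have e : Matrix.of (fun i j => G x (T (stdOrthonormalBasis ℝ E i)) (stdOrthonormalBasis ℝ E j))
      = (1 / 2 : ℝ) • Matrix.of (fun i j => dG G x w (stdOrthonormalBasis ℝ E i) (stdOrthonormalBasis ℝ E j))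
        + Matrix.of (fun i j => 1 / 2 * (dG G x (stdOrthonormalBasis ℝ E i) w (stdOrthonormalBasis ℝ E j)
          - dG G x (stdOrthonormalBasis ℝ E j) w (stdOrthonormalBasis ℝ E i))) := by
    ext i j
    simp only [Matrix.of_apply, Matrix.add_apply, Matrix.smul_apply, smul_eq_mul]
    rw [hT, G_Gam h, chr_apply h.smooth, dG_symm h (stdOrthonormalBasis ℝ E j) (stdOrthonormalBasis ℝ E i) w]
    ring
  rw [e, Matrix.mul_add, trace_add, Matrix.mul_smul, trace_smul, smul_eq_mul,
    trace_symm_antisymm (C := Matrix.of (fun i j => 1 / 2 * (dG G x (stdOrthonormalBasis ℝ E i) w (stdOrthonormalBasis ℝ E j)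
          - dG G x (stdOrthonormalBasis ℝ E j) w (stdOrthonormalBasis ℝ E i)))), add_zero]
  · ext i j
    simp only [transpose_apply, Matrix.of_apply, gram]
    exact h.symm.self_of_nhds _ _
  · ext i j
    simp only [transpose_apply, Matrix.of_apply, Matrix.neg_apply]
    ring

/-- **Riemannian divergence.** -/
theorem trace_fderiv_rho_smul (h : MetAt G x) {W : E → E} (hW : DifferentiableAt ℝ W x)
    (T : E →ₗ[ℝ] E) (hT : ∀ v, T v = fderiv ℝ W x v + Gam G x v (W x)) :
    LinearMap.trace ℝ E (fderiv ℝ (fun z => rho G z • W z) x : E →L[ℝ] E).toLinearMap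
      = rho G x * LinearMap.trace ℝ E T := by
  have hr : DifferentiableAt ℝ (rho G) x := (contDiffAt_rho h).differentiableAt (by norm_num)
  have h1 : HasFDerivAt (fun z => rho G z • W z) _ x := hr.hasFDerivAt.smul hW.hasFDerivAt
  obtain ⟨T', hT'⟩ := exists_Gam_left h (W x)
  have h2 : T = (fderiv ℝ W x : E →L[ℝ] E).toLinearMap + T' := by
    refine LinearMap.ext (fun v => ?_)
    rw [hT, LinearMap.add_apply, hT']
    rfl
  have h3 : (fderiv ℝ (fun z => rho G z • W z) x : E →L[ℝ] E).toLinearMap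
      = rho G x • (fderiv ℝ W x : E →L[ℝ] E).toLinearMap
        + (fderiv ℝ (rho G) x : E →L[ℝ] ℝ).toLinearMap.smulRight (W x) := by
    rw [h1.fderiv]
    rfl
  rw [h3, h2, map_add, map_add, map_smul, LinearMap.trace_smulRight, trace_Gam_left h _ T' hT']
  have h4 : (fderiv ℝ (rho G) x : E →L[ℝ] ℝ).toLinearMap (W x) = fderiv ℝ (rho G) x (W x) := rfl
  rw [h4, fderiv_rho h, smul_eq_mul]
  ring

end

end Pool.Agent.Helper20.PC
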