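import Pool.Agent.Helper20.PC.Div

/-!
# The divergence theorem on the sphere
-/

open Filter Metric Module Set MeasureTheory
open scoped Topology ContDiff RealInnerProductSpace Manifold

namespace Pool.Agent.Helper20.PC

section
variable {E : Type*} [NormedAddCommGroup E] [InnerProductSpace ℝ E] [FiniteDimensional ℝ E]

lemma trF_apply (V : E → E) (x : E) : LinearMap.trace ℝ E (fderiv ℝ V x : E →L[ℝ] E).toLinearMap
    = ∑ i, ⟪stdOrthonormalBasis ℝ E i, fderiv ℝ V x (stdOrthonormalBasis ℝ E i)⟫ :=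
  LinearMap.trace_eq_sum_inner _ (stdOrthonormalBasis ℝ E)

lemma continuousAt_trF {V : E → E} {x : E} (hV : ContDiffAt ℝ 1 V x) :
    ContinuousAt (fun x => LinearMap.trace ℝ E (fderiv ℝ V x : E →L[ℝ] E).toLinearMap) x := by
  simp_rw [trF_apply]
  have h1 : ContinuousAt (fderiv ℝ V) x := hV.continuousAt_fderiv (by norm_num)
  exact tendsto_finsetSum _ (fun i _ =>
    (ContinuousAt.inner continuousAt_const (h1.clm_apply continuousAt_const)))

lemma integral_trF_eq_zero [MeasurableSpace E] [BorelSpace E] {V : E → E} (hV : ContDiff ℝ 1 V)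
    (hc : HasCompactSupport V) :
    ∫ x, LinearMap.trace ℝ E (fderiv ℝ V x : E →L[ℝ] E).toLinearMap = 0 := by
  simp_rw [trF_apply]
  have hcd : Continuous (fderiv ℝ V) := hV.continuous_fderiv (by norm_num)
  have hsd : HasCompactSupport (fderiv ℝ V) := hc.fderiv ℝ
  have hint : ∀ i, Integrable (fun x => ⟪stdOrthonormalBasis ℝ E i,
      fderiv ℝ V x (stdOrthonormalBasis ℝ E i)⟫) volume := by
    intro i
    refine Continuous.integrable_of_hasCompactSupport
      (continuous_const.inner (hcd.clm_apply continuous_const)) ?_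
    refine hsd.comp_left (g := fun L : E →L[ℝ] E => ⟪stdOrthonormalBasis ℝ E i,
      L (stdOrthonormalBasis ℝ E i)⟫) ?_
    simp
  rw [integral_finsetSum _ (fun i _ => hint i)]
  refine Finset.sum_eq_zero (fun i _ => ?_)
  have hg : ContDiff ℝ 1 (fun x => ⟪stdOrthonormalBasis ℝ E i, V x⟫) := contDiff_const.inner ℝ hV
  have e : ∀ x, fderiv ℝ (fun x => ⟪stdOrthonormalBasis ℝ E i, V x⟫) x (stdOrthonormalBasis ℝ E i)
      = ⟪stdOrthonormalBasis ℝ E i, fderiv ℝ V x (stdOrthonormalBasis ℝ E i)⟫ := by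
    intro x
    have h1 := (hasFDerivAt_const (stdOrthonormalBasis ℝ E i) x).inner ℝ
      (hV.differentiable (by norm_num) x).hasFDerivAt
    rw [h1.fderiv]
    simp
  have hcs : HasCompactSupport (fun x => ⟪stdOrthonormalBasis ℝ E i, V x⟫) := by
    refine hc.comp_left (g := fun v : E => ⟪stdOrthonormalBasis ℝ E i, v⟫) ?_
    simp
  have h2 := integral_mul_fderiv_eq_neg_fderiv_mul_of_integrable (μ := (volume : Measure E))
    (f := fun _ : E => (1 : ℝ)) (g := fun x => ⟪stdOrthonormalBasis ℝ E i, V x⟫)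
    (v := stdOrthonormalBasis ℝ E i) (by simp) (by simpa [e] using hint i)
    (by simpa using hg.continuous.integrable_of_hasCompactSupport hcs)
    (fun x _ => differentiableAt_const _) (fun x _ => hg.differentiable (by norm_num) x)
  simpa [e] using h2

/-- **No vector field tangent to the spheres has positive divergence.** -/
theorem no_pos_div (hE : 0 < finrank ℝ E) {Y : E → E} (hY : ∀ x, x ≠ 0 → ContDiffAt ℝ 1 Y x)
    (ht : ∀ x, x ≠ 0 → ⟪x, Y x⟫ = 0)
    (hp : ∀ x : E, ‖x‖ = 1 → 0 < LinearMap.trace ℝ E (fderiv ℝ Y x : E →L[ℝ] E).toLinearMap) :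
    False := by
  let _ : MeasurableSpace E := borel E
  have _ : BorelSpace E := ⟨rfl⟩
  have _ : Nontrivial E := Module.finrank_pos_iff.1 hE
  set U : Set E := {x | x ≠ 0 ∧ 0 < LinearMap.trace ℝ E (fderiv ℝ Y x : E →L[ℝ] E).toLinearMap}
    with hU
  have hUo : IsOpen U := by
    rw [isOpen_iff_mem_nhds]
    rintro x ⟨hx0, hx⟩
    exact Filter.inter_mem (isOpen_ne.mem_nhds hx0)
      ((continuousAt_trF (hY x hx0)).eventually (lt_mem_nhds hx))
  have hSU : sphere (0 : E) 1 ⊆ U := by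
    intro x hx
    have h1 : ‖x‖ = 1 := mem_sphere_zero_iff_norm.1 hx
    exact ⟨by rintro rfl; rw [norm_zero] at h1; exact zero_ne_one h1, hp x h1⟩
  obtain ⟨δ, hδ, hth⟩ := (isCompact_sphere (0 : E) 1).exists_thickening_subset_open hUo hSU
  set r : ℝ := min δ (1 / 2) with hr
  have hr0 : 0 < r := lt_min hδ (by norm_num)
  have hr1 : r ≤ 1 / 2 := min_le_right _ _
  let h : ContDiffBump (1 : ℝ) := ⟨r / 2, r, by positivity, by linarith⟩
  have hzero : ∀ x : E, r ≤ |‖x‖ ^ 2 - 1| → h (‖x‖ ^ 2) = 0 := fun x hx =>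
    h.zero_of_le_dist (by rw [Real.dist_eq]; exact hx)
  have hin : ∀ x : E, |‖x‖ ^ 2 - 1| < r → x ∈ U := by
    intro x hx
    have hx0 : x ≠ 0 := by
      rintro rfl
      rw [norm_zero] at hx
      norm_num at hx
      linarith
    have hn : 0 < ‖x‖ := norm_pos_iff.2 hx0
    refine hth (mem_thickening_iff.2 ⟨‖x‖⁻¹ • x, mem_sphere_zero_iff_norm.2 (norm_normalize hx0), ?_⟩)
    have e : dist x (‖x‖⁻¹ • x) = |‖x‖ - 1| := by
      rw [dist_eq_norm]
      have : x - ‖x‖⁻¹ • x = (1 - ‖x‖⁻¹) • x := by rw [sub_smul, one_smul]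
      rw [this, norm_smul, Real.norm_eq_abs]
      nth_rewrite 2 [← abs_of_pos hn]
      rw [← abs_mul]
      congr 1
      field_simp
    rw [e]
    have h0 : |‖x‖ + 1| = ‖x‖ + 1 := abs_of_pos (by linarith)
    have h1 : |‖x‖ ^ 2 - 1| = |‖x‖ - 1| * |‖x‖ + 1| := by
      rw [← abs_mul]
      congr 1
      ring
    have h2 : |‖x‖ - 1| ≤ |‖x‖ ^ 2 - 1| := by
      rw [h1, h0]
      nlinarith [abs_nonneg (‖x‖ - 1)]
    calc |‖x‖ - 1| ≤ |‖x‖ ^ 2 - 1| := h2
      _ < r := hx
      _ ≤ δ := min_le_left _ _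
  set χ : E → ℝ := fun x => h (‖x‖ ^ 2) with hχ
  have hχc : ContDiff ℝ 1 χ := h.contDiff.comp (contDiff_norm_sq ℝ)
  have hχ0 : χ =ᶠ[𝓝 0] fun _ => 0 := by
    have : ∀ᶠ x : E in 𝓝 0, ‖x‖ ^ 2 < 1 / 2 := by
      have hc : ContinuousAt (fun x : E => ‖x‖ ^ 2) 0 := (continuous_norm.pow 2).continuousAt
      exact hc.eventually (gt_mem_nhds (by simp))
    filter_upwards [this] with x hx
    refine hzero x ?_
    rw [abs_of_neg (by linarith)]
    linarith
  set V : E → E := fun x => χ x • Y x with hV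
  have hV0 : V =ᶠ[𝓝 0] fun _ => 0 := hχ0.mono (fun x hx => by simp only [hV]; rw [hx, zero_smul])
  have hVc : ContDiff ℝ 1 V := by
    rw [contDiff_iff_contDiffAt]
    intro x
    by_cases hx : x = 0
    · subst hx
      exact (contDiffAt_const (c := (0 : E))).congr_of_eventuallyEq hV0
    · exact hχc.contDiffAt.smul (hY x hx)
  have hVs : HasCompactSupport V := by
    refine HasCompactSupport.intro (isCompact_closedBall (0 : E) 2) (fun x hx => ?_)
    rw [mem_closedBall_zero_iff, not_le] at hx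
    have : χ x = 0 := by
      refine hzero x ?_
      rw [abs_of_pos (by nlinarith)]
      nlinarith
    simp only [hV, this, zero_smul]
  have hval : ∀ x, x ≠ 0 → LinearMap.trace ℝ E (fderiv ℝ V x : E →L[ℝ] E).toLinearMap
      = χ x * LinearMap.trace ℝ E (fderiv ℝ Y x : E →L[ℝ] E).toLinearMap := by
    intro x hx
    have h1 : HasFDerivAt (fun x : E => h (‖x‖ ^ 2)) (deriv h (‖x‖ ^ 2) • (2 • innerSL ℝ x)) x :=
      ((h.contDiff (n := 1)).differentiable (by norm_num) _).hasDerivAt.comp_hasFDerivAt x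
        (HasStrictFDerivAt.hasFDerivAt (hasStrictFDerivAt_norm_sq x))
    have h2 : HasFDerivAt V _ x := h1.smul ((hY x hx).differentiableAt (by norm_num)).hasFDerivAt
    have h3 : (fderiv ℝ V x : E →L[ℝ] E).toLinearMap
        = χ x • (fderiv ℝ Y x : E →L[ℝ] E).toLinearMap
          + (deriv h (‖x‖ ^ 2) • (2 • innerSL ℝ x) : E →L[ℝ] ℝ).toLinearMap.smulRight (Y x) := by
      rw [h2.fderiv]
      rfl
    have h4 : (deriv h (‖x‖ ^ 2) • (2 • innerSL ℝ x) : E →L[ℝ] ℝ).toLinearMap (Y x) = 0 := by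
      simp [ht x hx]
    rw [h3, map_add, map_smul, LinearMap.trace_smulRight, h4, add_zero, smul_eq_mul]
  have hval0 : LinearMap.trace ℝ E (fderiv ℝ V 0 : E →L[ℝ] E).toLinearMap = 0 := by
    rw [hV0.fderiv_eq]
    simp
  have hcont : Continuous (fun x => LinearMap.trace ℝ E (fderiv ℝ V x : E →L[ℝ] E).toLinearMap) :=
    continuous_iff_continuousAt.2 (fun x => continuousAt_trF hVc.contDiffAt)
  have hsupp : HasCompactSupport
      (fun x => LinearMap.trace ℝ E (fderiv ℝ V x : E →L[ℝ] E).toLinearMap) := by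
    refine (hVs.fderiv ℝ).comp_left (g := fun L : E →L[ℝ] E => LinearMap.trace ℝ E L.toLinearMap) ?_
    simp
  have hnn : 0 ≤ (fun x => LinearMap.trace ℝ E (fderiv ℝ V x : E →L[ℝ] E).toLinearMap) := by
    intro x
    simp only [Pi.zero_apply]
    by_cases hx : x = 0
    · rw [hx, hval0]
    · rw [hval x hx]
      by_cases hxr : |‖x‖ ^ 2 - 1| < r
      · exact mul_nonneg h.nonneg (hin x hxr).2.le
      · have : χ x = 0 := hzero x (not_lt.1 hxr)
        rw [this, zero_mul]
  obtain ⟨e, he⟩ := exists_norm_eq E (zero_le_one : (0 : ℝ) ≤ 1)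
  have he0 : e ≠ 0 := by rintro rfl; rw [norm_zero] at he; exact zero_ne_one he
  have hne : (fun x => LinearMap.trace ℝ E (fderiv ℝ V x : E →L[ℝ] E).toLinearMap) e ≠ 0 := by
    simp only
    rw [hval e he0]
    have h1 : χ e = 1 := by
      refine h.one_of_mem_closedBall ?_
      rw [he]
      simp only [one_pow]
      exact mem_closedBall_self (by positivity)
    rw [h1, one_mul]
    exact (hp e he).ne'
  have := hcont.integral_pos_of_hasCompactSupport_nonneg_nonzero (μ := (volume : Measure E)) hsupp hnn hne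
  rw [integral_trF_eq_zero hVc hVs] at this
  exact lt_irrefl _ this

end

end Pool.Agent.Helper20.PC
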