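import Pool.Agent.Helper20.PC.Graph

/-!
# Graph hypersurfaces over `S^k × S^l`
-/

open Filter Metric Module Set
open scoped Topology ContDiff RealInnerProductSpace Manifold

namespace Pool.Agent.Helper20.PC

section
variable {E₁ : Type*} [NormedAddCommGroup E₁] [NormedSpace ℝ E₁]
variable {E₂ : Type*} [NormedAddCommGroup E₂] [NormedSpace ℝ E₂]

lemma fderiv_slice' {f : E₁ × E₂ → ℝ} {x : E₁} {y : E₂} (h : DifferentiableAt ℝ f (x, y)) (u : E₁) :
    fderiv ℝ (fun x' => f (x', y)) x u = fderiv ℝ f (x, y) (u, 0) := by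
  have h1 : HasFDerivAt (fun x' : E₁ => f (x', y)) (fderiv ℝ f (x, y) ∘L
      ((ContinuousLinearMap.id ℝ E₁).prod (0 : E₁ →L[ℝ] E₂))) x :=
    HasFDerivAt.comp (g := f) x h.hasFDerivAt ((hasFDerivAt_id x).prodMk (hasFDerivAt_const y x))
  rw [h1.fderiv]
  simp

lemma D2_slice {f : E₁ × E₂ → ℝ} {x : E₁} {y : E₂} (h : ContDiffAt ℝ 2 f (x, y)) (u v : E₁) :
    D2 f (x, y) (u, 0) (v, 0) = D2 (fun x' => f (x', y)) x u v := by
  have hc : ContinuousAt (fun x' : E₁ => (x', y)) x := by fun_prop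
  have h1 : (fun x' => fderiv ℝ (fun x'' => f (x'', y)) x' v) =ᶠ[𝓝 x]
      (fun x' => fderiv ℝ f (x', y) (v, 0)) := by
    filter_upwards [hc.eventually (h.eventually (by norm_num))] with x' hx'
    exact fderiv_slice' (hx'.differentiableAt (by norm_num)) v
  rw [D2, D2, h1.fderiv_eq]
  exact (fderiv_slice' (f := fun z => fderiv ℝ f z (v, 0))
    (hasFDerivAt_fderiv_apply h (v, 0)).differentiableAt u).symm

lemma D2_comp_of_crit {ψ : ℝ → ℝ} {r : E₁ → ℝ} {x X : E₁} (hψ : ContDiffAt ℝ 2 ψ (r x))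
    (hr : ContDiffAt ℝ 2 r x) (h0 : fderiv ℝ r x X = 0) :
    D2 (fun x' => ψ (r x')) x X X = deriv ψ (r x) * D2 r x X X := by
  have h1 : (fun x' => fderiv ℝ (fun x'' => ψ (r x'')) x' X) =ᶠ[𝓝 x]
      (fun x' => deriv ψ (r x') * fderiv ℝ r x' X) := by
    filter_upwards [hr.continuousAt.eventually (hψ.eventually (by norm_num)),
      hr.eventually (by norm_num)] with x' a b
    have h2 := HasDerivAt.comp_hasFDerivAt x' (a.differentiableAt (by norm_num)).hasDerivAt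
      (b.differentiableAt (by norm_num)).hasFDerivAt
    have h3 : HasFDerivAt (fun x'' => ψ (r x'')) _ x' := h2
    rw [h3.fderiv]
    simp
  have hdψ : DifferentiableAt ℝ (deriv ψ) (r x) := by
    have : ContDiffAt ℝ 1 (deriv ψ) (r x) := by
      have h4 : ContDiffAt ℝ 1 (fderiv ℝ ψ) (r x) := hψ.fderiv_right (by norm_num)
      exact h4.clm_apply contDiffAt_const
    exact this.differentiableAt (by norm_num)
  have h5 : HasFDerivAt (fun x' => deriv ψ (r x')) _ x :=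
    HasDerivAt.comp_hasFDerivAt x hdψ.hasDerivAt (hr.differentiableAt (by norm_num)).hasFDerivAt
  have h6 := h5.mul (hasFDerivAt_fderiv_apply hr X)
  have h7 : HasFDerivAt (fun x' => deriv ψ (r x') * fderiv ℝ r x' X) _ x := h6
  rw [D2, h1.fderiv_eq, h7.fderiv]
  simp [h0, D2, (hasFDerivAt_fderiv_apply hr X).fderiv]

lemma fderiv_comp_scalar {ψ : ℝ → ℝ} {r : E₁ → ℝ} {x : E₁} (hψ : DifferentiableAt ℝ ψ (r x))
    (hr : DifferentiableAt ℝ r x) (u : E₁) :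
    fderiv ℝ (fun x' => ψ (r x')) x u = deriv ψ (r x) * fderiv ℝ r x u := by
  have h2 := HasDerivAt.comp_hasFDerivAt x hψ.hasDerivAt hr.hasFDerivAt
  have h3 : HasFDerivAt (fun x'' => ψ (r x'')) _ x := h2
  rw [h3.fderiv]
  simp

end

section
variable {E₁ : Type*} [NormedAddCommGroup E₁] [InnerProductSpace ℝ E₁] [FiniteDimensional ℝ E₁]
variable {E₂ : Type*} [NormedAddCommGroup E₂] [InnerProductSpace ℝ E₂] [FiniteDimensional ℝ E₂]
variable {k l : ℕ} [Fact (finrank ℝ E₁ = k + 1)] [Fact (finrank ℝ E₂ = l + 1)]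

omit [FiniteDimensional ℝ E₁] [Fact (finrank ℝ E₁ = k + 1)] in
lemma isMetricS_of_family {J : Set ℝ} (hJ : IsOpen J)
    {h : ℝ → sphere (0 : E₂) 1 → E₂ →L[ℝ] E₂ →L[ℝ] ℝ} (hh : IsFamilyS l J h) {t : ℝ} (ht : t ∈ J) :
    IsMetricS l (h t) where
  smooth := by
    intro y
    have h0 : ContMDiffAt (𝓘(ℝ, ℝ).prod (𝓡 l)) 𝓘(ℝ, E₂ →L[ℝ] E₂ →L[ℝ] ℝ) 2
        (fun q : ℝ × sphere (0 : E₂) 1 => h q.1 q.2) (t, y) :=
      hh.smooth.contMDiffAt ((hJ.prod isOpen_univ).mem_nhds ⟨ht, mem_univ _⟩)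
    have h1 : ContMDiffAt (𝓡 l) (𝓘(ℝ, ℝ).prod (𝓡 l)) 2 (fun y : sphere (0 : E₂) 1 => (t, y)) y :=
      contMDiffAt_const.prodMk contMDiffAt_id
    exact h0.comp y h1
  symm := hh.symm t ht
  pos := hh.pos t ht

omit [FiniteDimensional ℝ E₁] [Fact (finrank ℝ E₁ = k + 1)] in
lemma contDiffAt_cyl_family_comp {J : Set ℝ} (hJ : IsOpen J)
    {h : ℝ → sphere (0 : E₂) 1 → E₂ →L[ℝ] E₂ →L[ℝ] ℝ} (hh : IsFamilyS l J h)
    (y₀ : sphere (0 : E₂) 1) {P : Type*} [NormedAddCommGroup P] [NormedSpace ℝ P] {z : P}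
    {R : P → ℝ} {Y : P → E₂} (hR : ContDiffAt ℝ 2 R z) (hY : ContDiffAt ℝ 2 Y z)
    (hRJ : R z ∈ J) (hY0 : Y z ≠ 0) : ContDiffAt ℝ 2 (fun z => cyl y₀ (h (R z)) (Y z)) z := by
  have h1 := contDiffAt_cyl_family hJ hh y₀ (q := (R z, Y z)) hRJ hY0
  have h2 : ContDiffAt ℝ 2 (fun z => (R z, Y z)) z := hR.prodMk hY
  exact ContDiffAt.comp z h1 h2

theorem thmTwo (hk : 2 ≤ k) (hl : 2 ≤ l)
    {g₁ : sphere (0 : E₁) 1 → E₁ →L[ℝ] E₁ →L[ℝ] ℝ} (hg₁ : IsMetricS k g₁)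
    {J : Set ℝ} (hJ : IsOpen J)
    {h : ℝ → sphere (0 : E₂) 1 → E₂ →L[ℝ] E₂ →L[ℝ] ℝ} (hh : IsFamilyS l J h)
    {ρ : sphere (0 : E₁) 1 × sphere (0 : E₂) 1 → ℝ}
    (hρ : ContMDiff ((𝓡 k).prod (𝓡 l)) 𝓘(ℝ, ℝ) 3 ρ) (hρJ : ∀ p, ρ p ∈ J) (y : sphere (0 : E₂) 1) :
    ∃ x : sphere (0 : E₁) 1, ∃ X : E₁, ∃ V : E₂, ⟪(x : E₁), X⟫ = 0 ∧ ⟪(y : E₂), V⟫ = 0 ∧
      X ≠ 0 ∧ V ≠ 0 ∧
      secCurv (extM (x, y) (graphMetric g₁ h ρ)) ((x : E₁), (y : E₂)) (X, 0) (0, V) ≤ 0 := by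
  have hfin₁ : finrank ℝ E₁ = k + 1 := Fact.out
  have hfin₂ : finrank ℝ E₂ = l + 1 := Fact.out
  by_contra hcon
  push Not at hcon
  obtain ⟨e, he⟩ : ∃ e : E₁, ‖e‖ = 1 :=
    (exists_unit_perp (by omega : 3 ≤ finrank ℝ E₁) (0 : E₁) 0).imp (fun _ h => h.1)
  set x₀ : sphere (0 : E₁) 1 := ⟨e, mem_sphere_zero_iff_norm.2 he⟩ with hx₀
  set R : E₁ × E₂ → ℝ := extF (x₀, y) ρ with hR
  set α : E₁ × E₂ → (E₁ × E₂) →L[ℝ] ℝ := fderiv ℝ R with hα
  set H : E₁ × E₂ → E₂ →L[ℝ] E₂ →L[ℝ] ℝ := fun z => cyl y (h (R z)) z.2 with hH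
  set β : E₁ → E₁ →L[ℝ] ℝ := fun x => (α (x, (y : E₂))) ∘L ContinuousLinearMap.inl ℝ E₁ E₂ with hβ
  have hy0 : (y : E₂) ≠ 0 := sphere_ne_zero y
  have hRJ : ∀ z, R z ∈ J := fun z => hρJ _
  have hRs : ∀ z : E₁ × E₂, z.1 ≠ 0 → z.2 ≠ 0 → ContDiffAt ℝ 3 R z := fun z h1 h2 =>
    contDiffAt_comp_toS₂ (r := 3) hρ (x₀, y) h1 h2
  have hαs : ∀ x : E₁, x ≠ 0 → ContDiffAt ℝ 2 α (x, (y : E₂)) := fun x hx =>
    (hRs (x, (y : E₂)) hx hy0).fderiv_right (by norm_num)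
  have hHs' : ∀ z : E₁ × E₂, z.1 ≠ 0 → z.2 ≠ 0 → ContDiffAt ℝ 2 H z := by
    intro z h1 h2
    exact contDiffAt_cyl_family_comp hJ hh y ((hRs z h1 h2).of_le (by norm_num)) contDiffAt_snd
      (hRJ z) h2
  have hHs : ∀ x : E₁, x ≠ 0 → ContDiffAt ℝ 2 H (x, (y : E₂)) := fun x hx => hHs' (x, (y : E₂)) hx hy0
  have hblock : ∀ x : E₁, x ≠ 0 → MetAt (block (cyl x₀ g₁) H) (x, (y : E₂)) := by
    intro x hx
    have c2 := (continuous_snd (X := E₁) (Y := E₂)).continuousAt (x := (x, (y : E₂)))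
    refine metAt_block_cyl hg₁ x₀ hx (hHs x hx) ?_ ?_
    · filter_upwards [c2.eventually_ne hy0] with z hz
      exact (metAt_cyl (isMetricS_of_family hJ hh (hRJ z)) y hz).symm.self_of_nhds
    · filter_upwards [c2.eventually_ne hy0] with z hz
      exact (metAt_cyl (isMetricS_of_family hJ hh (hRJ z)) y hz).pos.self_of_nhds
  have hβs : ∀ x : E₁, x ≠ 0 → ContDiffAt ℝ 1 β x := fun x hx =>
    (contDiffAt_slice (hαs x hx)).of_le (by norm_num)
  have hβa : ∀ x u, β x u = α (x, (y : E₂)) (u, 0) := fun x u => rfl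
  have hext : ∀ z : E₁ × E₂, z.1 ≠ 0 → z.2 ≠ 0 → extForm (x₀, y) (dS ρ) z = α z := fun z h1 h2 =>
    extForm_dS hρ (x₀, y) h1 h2
  have hβx : ∀ x : E₁, x ≠ 0 → β x x = 0 := by
    intro x hx
    rw [hβa, ← hext (x, (y : E₂)) hx hy0, extForm]
    have e0 : ((dn x).prodMap (dn (y : E₂))) (x, 0) = 0 := by
      simp [dn_self x hx]
    rw [ContinuousLinearMap.comp_apply]
    simp only
    rw [e0, map_zero]
  have hSB : ∀ x : E₁, x ≠ 0 → ∀ u : E₁,
      Sv (block (cyl x₀ g₁) H) α (x, (y : E₂)) (u, 0) (u, 0) = Bv (cyl x₀ g₁) β x u u := by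
    intro x hx u
    have h1 : dα β x u u = dα α (x, (y : E₂)) (u, 0) (u, 0) := by
      rw [dα, dα]
      exact fderiv_slice (f := fun z => α z (u, 0))
        ((smoothα (hαs x hx) (u, 0)).differentiableAt (by norm_num)) u
    rw [Sv, Bv, Gam_block_X (metAt_cyl hg₁ x₀ hx) (hHs x hx) (hblock x hx), hβa, h1]
    ring
  -- the block part
  have hnum : ∀ x : E₁, x ≠ 0 → ∀ X V, β x X = 0 →
      num (block (cyl x₀ g₁) H) (x, (y : E₂)) (X, 0) (0, V)
        = -(1 / 2) * deriv (fun t => cyl y (h t) (y : E₂) V V) (R (x, (y : E₂)))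
          * Bv (cyl x₀ g₁) β x X X := by
    intro x hx X V hX
    set r : E₁ → ℝ := fun x' => R (x', (y : E₂)) with hr
    have hrs : ContDiffAt ℝ 3 r x := by
      have a1 : ContDiffAt ℝ 3 (fun x' : E₁ => (x', (y : E₂))) x := contDiffAt_id.prodMk contDiffAt_const
      exact ContDiffAt.comp (g := R) x (hRs (x, (y : E₂)) hx hy0) a1
    have hψ : ∀ v w, ContDiffAt ℝ 2 (fun t => cyl y (h t) (y : E₂) v w) (r x) := by
      intro v w
      have a2 : ContDiffAt ℝ 2 (fun t : ℝ => cyl y (h t) (y : E₂)) (r x) :=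
        contDiffAt_cyl_family_comp hJ hh y contDiffAt_id contDiffAt_const (hRJ _) hy0
      exact (a2.clm_apply contDiffAt_const).clm_apply contDiffAt_const
    have hdr : ∀ u, fderiv ℝ r x u = β x u := by
      intro u
      rw [hβa]
      exact fderiv_slice (f := R) ((hRs (x, (y : E₂)) hx hy0).differentiableAt (by norm_num)) u
    have hHd : ∀ v w, ContDiffAt ℝ 2 (fun z' => H z' v w) (x, (y : E₂)) := fun v w =>
      ((hHs x hx).clm_apply contDiffAt_const).clm_apply contDiffAt_const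
    have hfd : ∀ v w u, fderiv ℝ (fun z' => H z' v w) (x, (y : E₂)) (u, 0)
        = deriv (fun t => cyl y (h t) (y : E₂) v w) (r x) * β x u := by
      intro v w u
      rw [← fderiv_slice (f := fun z' => H z' v w) ((hHd v w).differentiableAt (by norm_num)) u,
        ← hdr]
      exact fderiv_comp_scalar (ψ := fun t => cyl y (h t) (y : E₂) v w) (r := r)
        ((hψ v w).differentiableAt (by norm_num)) (hrs.differentiableAt (by norm_num)) u
    rw [num_block (metAt_cyl hg₁ x₀ hx) (hHs x hx) (hblock x hx) X V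
      (fun v => by rw [hfd, hX, mul_zero]), hfd, D2_slice (hHd V V)]
    have h2 : D2 (fun x' => H (x', (y : E₂)) V V) x X X
        = deriv (fun t => cyl y (h t) (y : E₂) V V) (r x) * D2 r x X X :=
      D2_comp_of_crit (ψ := fun t => cyl y (h t) (y : E₂) V V) (r := r) (hψ V V)
        (hrs.of_le (by norm_num)) (by rw [hdr, hX])
    have h3 : dα β x X X = D2 r x X X := by
      rw [D2, dα]
      have e1 : (fun x' => β x' X) =ᶠ[𝓝 x] fun x' => fderiv ℝ r x' X := by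
        filter_upwards [isOpen_ne.mem_nhds hx] with x' hx'
        rw [hβa]
        exact (fderiv_slice (f := R) ((hRs (x', (y : E₂)) hx' hy0).differentiableAt (by norm_num)) X).symm
      rw [e1.fderiv_eq]
    rw [h2, Bv, h3]
    ring
  -- positivity of the numerator
  have hpos : ∀ x : sphere (0 : E₁) 1, ∀ X V, ⟪(x : E₁), X⟫ = 0 → ⟪(y : E₂), V⟫ = 0 → X ≠ 0 → V ≠ 0 →
      β x X = 0 → α ((x : E₁), (y : E₂)) (0, V) = 0 →
      0 < (-(1 / 2) * deriv (fun t => cyl y (h t) (y : E₂) V V) (R ((x : E₁), (y : E₂)))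
        + 1 / (1 + wv (block (cyl x₀ g₁) H) α ((x : E₁), (y : E₂)))
          * Sv (block (cyl x₀ g₁) H) α ((x : E₁), (y : E₂)) (0, V) (0, V)) * Bv (cyl x₀ g₁) β x X X := by
    intro x X V hX hV hX0 hV0 hβX hαV
    have hx0 := sphere_ne_zero x
    have h1 := hcon x X V hX hV hX0 hV0
    have h2 : extM (x, y) (graphMetric g₁ h ρ) =ᶠ[𝓝 ((x : E₁), (y : E₂))]
        rankOne (block (cyl x₀ g₁) H) α := by
      refine (extM_congr (x, y) (x₀, y) _ hx0 hy0).trans ?_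
      have e1 : ∀ᶠ z' : E₁ × E₂ in 𝓝 ((x : E₁), (y : E₂)), z'.1 ≠ 0 :=
        continuous_fst.continuousAt.eventually_ne hx0
      have e2 : ∀ᶠ z' : E₁ × E₂ in 𝓝 ((x : E₁), (y : E₂)), z'.2 ≠ 0 :=
        continuous_snd.continuousAt.eventually_ne hy0
      filter_upwards [e1, e2] with z a b
      refine ContinuousLinearMap.ext (fun u => ContinuousLinearMap.ext (fun v => ?_))
      rw [rankOne_apply, block_apply, ← hext z a b, cyl_apply, hH]
      simp only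
      rw [cyl_apply]
      simp [extM, graphMetric, extForm, hR, extF]
      ring
    rw [secCurv_congr h2] at h1
    have h3 := num_pos_of_secCurv (metAt_rankOne (hblock x hx0) (hαs x hx0))
      (fun t ht => hX0 (by simpa using congrArg Prod.fst ht))
      (fun hv => hV0 (by simpa using congrArg Prod.snd hv)) h1
    have hw := wv_nonneg (α := α) (hblock x hx0)
    rw [num_rankOne (hblock x hx0) (hαs x hx0) _ _ (by rw [← hβa]; exact hβX) hαV,
      hnum x hx0 X V hβX, hSB x hx0] at h3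
    have h4 : 0 < 1 / (1 + wv (block (cyl x₀ g₁) H) α ((x : E₁), (y : E₂))) := by positivity
    have h5 : 0 ≤ 1 / (1 + wv (block (cyl x₀ g₁) H) α ((x : E₁), (y : E₂)))
        * Sv (block (cyl x₀ g₁) H) α ((x : E₁), (y : E₂)) (X, 0) (0, V) ^ 2 := by positivity
    nlinarith [sq_nonneg (dα α ((x : E₁), (y : E₂)) (X, 0) (0, V) - dα α ((x : E₁), (y : E₂)) (0, V) (X, 0))]
  -- the sign lemma
  have hsign := sign_lemma (E := E₁) (by omega) (fun x => β x) (fun x u => Bv (cyl x₀ g₁) β x u u)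
    (continuous_sphere_of (fun x hx => (hβs x hx).continuousAt)) (continuous_Bv hg₁ x₀ hβs)
    (fun x u t => Bv_smul_smul (metAt_cyl hg₁ x₀ (sphere_ne_zero x)) (hβs _ (sphere_ne_zero x)) t u)
    (fun x => by
      obtain ⟨V, hV1, hV2, hV3⟩ := exists_unit_perp (by omega : 3 ≤ finrank ℝ E₂) (y : E₂)
        ((α ((x : E₁), (y : E₂))) ∘L ContinuousLinearMap.inr ℝ E₁ E₂)
      have hV0 : V ≠ 0 := by rintro rfl; rw [norm_zero] at hV1; exact zero_ne_one hV1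
      exact ⟨_, fun u hu hu0 hℓ => hpos x u V hu hV2 hu0 hV0 hℓ (by simpa using hV3)⟩)
  rcases hsign with h | h
  · exact lemD hk hg₁ x₀ hβs hβx h
  · refine lemD hk hg₁ x₀ (β := fun x => -β x) (fun x hx => (hβs x hx).neg)
      (fun x hx => by rw [_root_.neg_apply, hβx x hx, neg_zero]) (fun x u hu hu0 hℓ => ?_)
    have h1 := h x u hu hu0 (by simpa using hℓ)
    have h2 : Bv (cyl x₀ g₁) (fun x => -β x) x u u = -Bv (cyl x₀ g₁) β x u u := by
      have h3 : (fun z' => (fun x => -β x) z' u) = fun z' => -(β z' u) := by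
        funext z'; simp
      rw [Bv, Bv, dα, dα, h3, fderiv_fun_neg]
      simp
      ring
    rw [h2]
    linarith

end

end Pool.Agent.Helper20.PC
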