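import Pool.Agent.Helper20.PC.RankTwo
import Pool.Agent.Helper20.PC.MixSphere
import Pool.Agent.Helper20.PC.ThmTwo

/-!
# The metrics `A(x,y) ⊕ B(y)` at a minimal slice
-/

set_option maxSynthPendingDepth 3

open Filter Metric Module Set
open scoped Topology ContDiff RealInnerProductSpace Manifold

namespace Pool.Agent.Helper20.PC

section
variable {E₁ : Type*} [NormedAddCommGroup E₁] [NormedSpace ℝ E₁]
variable {E₂ : Type*} [NormedAddCommGroup E₂] [NormedSpace ℝ E₂]

/-- the metric `A(x,y) ⊕ B(y)` on `E₁ × E₂`. -/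
noncomputable def blockA (A : E₁ × E₂ → E₁ →L[ℝ] E₁ →L[ℝ] ℝ) (B : E₂ → E₂ →L[ℝ] E₂ →L[ℝ] ℝ)
    (z : E₁ × E₂) : (E₁ × E₂) →L[ℝ] (E₁ × E₂) →L[ℝ] ℝ :=
  (A z).bilinearComp (ContinuousLinearMap.fst ℝ E₁ E₂) (ContinuousLinearMap.fst ℝ E₁ E₂)
    + (B z.2).bilinearComp (ContinuousLinearMap.snd ℝ E₁ E₂) (ContinuousLinearMap.snd ℝ E₁ E₂)

variable {A : E₁ × E₂ → E₁ →L[ℝ] E₁ →L[ℝ] ℝ} {B : E₂ → E₂ →L[ℝ] E₂ →L[ℝ] ℝ} {x : E₁} {y : E₂}

lemma blockA_apply (z u v : E₁ × E₂) : blockA A B z u v = A z u.1 v.1 + B z.2 u.2 v.2 := by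
  simp [blockA]

/-- `A(x,y) ⊕ B(y)` is a metric near `(x,y)` and the slice through `y` is minimal at `(x,y)`. -/
structure SliceMin (A : E₁ × E₂ → E₁ →L[ℝ] E₁ →L[ℝ] ℝ) (B : E₂ → E₂ →L[ℝ] E₂ →L[ℝ] ℝ)
    (x : E₁) (y : E₂) : Prop where
  smoothA : ContDiffAt ℝ 2 A (x, y)
  symmA : ∀ᶠ z in 𝓝 (x, y), ∀ u v, A z u v = A z v u
  posA : ∀ᶠ z in 𝓝 (x, y), ∀ u, u ≠ 0 → 0 < A z u u
  metB : MetAt B y
  min : ∀ u, IsLocalMin (fun y' => A (x, y') u u) y

lemma contDiffAt_inl (x : E₁) (y : E₂) : ContDiffAt ℝ 2 (fun x' : E₁ => (x', y)) x :=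
  contDiffAt_id.prodMk contDiffAt_const

lemma contDiffAt_inr (x : E₁) (y : E₂) : ContDiffAt ℝ 2 (fun y' : E₂ => (x, y')) y :=
  contDiffAt_const.prodMk contDiffAt_id

lemma fderiv_sliceR {f : E₁ × E₂ → ℝ} {x : E₁} {y : E₂} (h : DifferentiableAt ℝ f (x, y)) (w : E₂) :
    fderiv ℝ (fun y' => f (x, y')) y w = fderiv ℝ f (x, y) (0, w) := by
  have h1 : HasFDerivAt (fun y' : E₂ => f (x, y')) (fderiv ℝ f (x, y) ∘L
      ((0 : E₂ →L[ℝ] E₁).prod (ContinuousLinearMap.id ℝ E₂))) y :=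
    HasFDerivAt.comp (g := f) y h.hasFDerivAt ((hasFDerivAt_const x y).prodMk (hasFDerivAt_id y))
  rw [h1.fderiv]
  simp

lemma D2_sliceR {f : E₁ × E₂ → ℝ} {x : E₁} {y : E₂} (h : ContDiffAt ℝ 2 f (x, y)) (u v : E₂) :
    D2 f (x, y) (0, u) (0, v) = D2 (fun y' => f (x, y')) y u v := by
  have hc : ContinuousAt (fun y' : E₂ => (x, y')) y := by fun_prop
  have h1 : (fun y' => fderiv ℝ (fun y'' => f (x, y'')) y' v) =ᶠ[𝓝 y]
      (fun y' => fderiv ℝ f (x, y') (0, v)) := by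
    filter_upwards [hc.eventually (h.eventually (by norm_num))] with y' hy'
    exact fderiv_sliceR (hy'.differentiableAt (by norm_num)) v
  rw [D2, D2, h1.fderiv_eq]
  exact (fderiv_sliceR (f := fun z => fderiv ℝ f z (0, v))
    (hasFDerivAt_fderiv_apply h (0, v)).differentiableAt u).symm

lemma D2_nonneg_of_isLocalMin {φ : E₂ → ℝ} {y : E₂} (hφ : ContDiffAt ℝ 2 φ y) (hmin : IsLocalMin φ y)
    (X : E₂) : 0 ≤ D2 φ y X X := by
  have h1 := D2_nonpos_of_isLocalMax hφ.neg hmin.neg X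
  have h2 : D2 (-φ) y X X = -D2 φ y X X := by
    have e1 : (fun z' => fderiv ℝ (-φ) z' X) = fun z' => -(fderiv ℝ φ z' X) := by
      funext z'
      rw [fderiv_neg]
      rfl
    rw [D2, e1, fderiv_fun_neg]
    rfl
  have h3 : D2 (fun x => -φ x) y X X = D2 (-φ) y X X := rfl
  rw [h3, h2] at h1
  linarith

namespace SliceMin

lemma smoothA2 (h : SliceMin A B x y) (u v : E₁) : ContDiffAt ℝ 2 (fun z => A z u v) (x, y) :=
  (h.smoothA.clm_apply contDiffAt_const).clm_apply contDiffAt_const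

lemma crit' (h : SliceMin A B x y) (u : E₁) (w : E₂) : fderiv ℝ (fun z => A z u u) (x, y) (0, w) = 0 := by
  rw [← fderiv_sliceR (f := fun z => A z u u) ((h.smoothA2 u u).differentiableAt (by norm_num)) w,
    (h.min u).fderiv_eq_zero]
  rfl

lemma crit (h : SliceMin A B x y) (u v : E₁) (w : E₂) :
    fderiv ℝ (fun z => A z u v) (x, y) (0, w) = 0 := by
  have e : (fun z => A z (u + v) (u + v)) =ᶠ[𝓝 (x, y)]
      fun z => A z u u + 2 * A z u v + A z v v := by
    filter_upwards [h.symmA] with z hz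
    simp only [map_add, add_apply]
    rw [hz v u]
    ring
  have d1 := ((h.smoothA2 u u).differentiableAt (by norm_num)).hasFDerivAt
  have d2 := ((h.smoothA2 u v).differentiableAt (by norm_num)).hasFDerivAt
  have d3 := ((h.smoothA2 v v).differentiableAt (by norm_num)).hasFDerivAt
  have d4 : HasFDerivAt (fun z => A z u u + 2 * A z u v + A z v v) _ (x, y) :=
    (d1.add (d2.const_mul 2)).add d3
  have h1 := h.crit' (u + v) w
  rw [e.fderiv_eq, d4.fderiv] at h1
  simp only [add_apply, smul_apply, smul_eq_mul, h.crit'] at h1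
  linarith

lemma convex (h : SliceMin A B x y) (u : E₁) (w : E₂) : 0 ≤ D2 (fun z => A z u u) (x, y) (0, w) (0, w) := by
  rw [D2_sliceR (h.smoothA2 u u)]
  exact D2_nonneg_of_isLocalMin (ContDiffAt.comp (g := fun z => A z u u) y (h.smoothA2 u u)
    (contDiffAt_inr x y)) (h.min u) w

lemma smooth [FiniteDimensional ℝ E₁] [FiniteDimensional ℝ E₂] (h : SliceMin A B x y) :
    ContDiffAt ℝ 2 (blockA A B) (x, y) := by
  unfold blockA
  refine ContDiffAt.add ?_ ?_
  · exact contDiffAt_bilinearComp h.smoothA contDiffAt_const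
  · exact contDiffAt_bilinearComp (ContDiffAt.comp (g := B) (x, y) h.metB.smooth contDiffAt_snd)
      contDiffAt_const

lemma met [FiniteDimensional ℝ E₁] [FiniteDimensional ℝ E₂] (h : SliceMin A B x y) :
    MetAt (blockA A B) (x, y) where
  smooth := h.smooth
  symm := by
    have := (continuous_snd (X := E₁) (Y := E₂)).continuousAt (x := (x, y)) |>.eventually h.metB.symm
    filter_upwards [this, h.symmA] with z' a b u v
    rw [blockA_apply, blockA_apply, a, b]
  pos := by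
    have := (continuous_snd (X := E₁) (Y := E₂)).continuousAt (x := (x, y)) |>.eventually h.metB.pos
    filter_upwards [this, h.posA] with z' a b u hu
    rw [blockA_apply]
    by_cases h : u.1 = 0
    · have h2 : u.2 ≠ 0 := fun h2 => hu (Prod.ext h h2)
      rw [h]
      simpa using a _ h2
    · have c1 := b _ h
      by_cases h2 : u.2 = 0
      · rw [h2]
        simpa using c1
      · have c2 := a _ h2
        linarith

lemma slice_met (h : SliceMin A B x y) : MetAt (fun x' => A (x', y)) x where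
  smooth := ContDiffAt.comp (g := A) x h.smoothA (contDiffAt_inl x y)
  symm := by
    have hc : ContinuousAt (fun x' : E₁ => (x', y)) x := by fun_prop
    exact hc.eventually h.symmA
  pos := by
    have hc : ContinuousAt (fun x' : E₁ => (x', y)) x := by fun_prop
    exact hc.eventually h.posA

lemma dG_block [FiniteDimensional ℝ E₁] [FiniteDimensional ℝ E₂] (h : SliceMin A B x y)
    (t u v : E₁ × E₂) : dG (blockA A B) (x, y) t u v
      = dG (fun x' => A (x', y)) x t.1 u.1 v.1 + dG B y t.2 u.2 v.2 := by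
  have d1 := ((h.smoothA2 u.1 v.1).differentiableAt (by norm_num)).hasFDerivAt
  have hB : DifferentiableAt ℝ (fun y' => B y' u.2 v.2) y :=
    (smooth2 h.metB.smooth _ _).differentiableAt (by norm_num)
  have d2 : HasFDerivAt (fun z : E₁ × E₂ => B z.2 u.2 v.2)
      ((fderiv ℝ (fun y' => B y' u.2 v.2) y) ∘L (ContinuousLinearMap.snd ℝ E₁ E₂)) (x, y) :=
    HasFDerivAt.comp (g := fun y' => B y' u.2 v.2) (x, y) hB.hasFDerivAt hasFDerivAt_snd
  have d3 : HasFDerivAt (fun z : E₁ × E₂ => A z u.1 v.1 + B z.2 u.2 v.2) _ (x, y) := d1.add d2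
  have e : (fun z : E₁ × E₂ => blockA A B z u v) = fun z => A z u.1 v.1 + B z.2 u.2 v.2 := by
    funext z; rw [blockA_apply]
  have e2 : (fderiv ℝ (fun z => A z u.1 v.1) (x, y)) t
      = fderiv ℝ (fun z => A z u.1 v.1) (x, y) (t.1, 0) + fderiv ℝ (fun z => A z u.1 v.1) (x, y) (0, t.2) := by
    rw [← map_add]; simp
  rw [dG, e, d3.fderiv, add_apply, e2, h.crit, add_zero, dG, dG,
    fderiv_slice' (f := fun z => A z u.1 v.1) ((h.smoothA2 _ _).differentiableAt (by norm_num)) t.1]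
  rfl

variable [FiniteDimensional ℝ E₁] [FiniteDimensional ℝ E₂]

lemma Gam_XX (h : SliceMin A B x y) (X : E₁) :
    Gam (blockA A B) (x, y) (X, 0) (X, 0) = (Gam (fun x' => A (x', y)) x X X, 0) := by
  refine Gam_unique h.met (fun w => ?_)
  have h1 : A (x, y) (Gam (fun x' => A (x', y)) x X X) w.1 = chr (fun x' => A (x', y)) x X X w.1 :=
    G_Gam h.slice_met X X w.1
  rw [chr_apply h.smooth, h.dG_block, h.dG_block, blockA_apply]
  simp only
  rw [h1, chr_apply h.slice_met.smooth]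
  simp [dG]

lemma Gam_VV (h : SliceMin A B x y) (V : E₂) :
    Gam (blockA A B) (x, y) (0, V) (0, V) = (0, Gam B y V V) := by
  refine Gam_unique h.met (fun w => ?_)
  have h1 : B y (Gam B y V V) w.2 = chr B y V V w.2 := G_Gam h.metB V V w.2
  rw [chr_apply h.smooth, h.dG_block, h.dG_block, blockA_apply]
  simp only
  rw [h1, chr_apply h.metB.smooth]
  simp [dG]

lemma chr_XV (h : SliceMin A B x y) (X : E₁) (V : E₂) :
    chr (blockA A B) (x, y) (X, 0) (0, V) = 0 := by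
  refine ContinuousLinearMap.ext (fun w => ?_)
  rw [chr_apply h.smooth, h.dG_block, h.dG_block, h.dG_block]
  simp [dG]

lemma Gam_XV (h : SliceMin A B x y) (X : E₁) (V : E₂) :
    Gam (blockA A B) (x, y) (X, 0) (0, V) = 0 := by
  refine Gam_unique h.met (fun w => ?_)
  rw [h.chr_XV]
  simp

lemma num_le (h : SliceMin A B x y) (X : E₁) (V : E₂) :
    num (blockA A B) (x, y) (X, 0) (0, V) ≤ 0 := by
  have e1 : ddG (blockA A B) (x, y) (X, 0) (0, V) (X, 0) (0, V) = 0 := by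
    have : (fun z' => blockA A B z' (X, 0) (0, V)) = fun _ => 0 := by
      funext z'; rw [blockA_apply]; simp
    rw [ddG_D2, this]
    simp [D2]
  have e2 : ddG (blockA A B) (x, y) (X, 0) (X, 0) (0, V) (0, V) = 0 := by
    have e : (fun z' => blockA A B z' (0, V) (0, V)) = fun z' => B z'.2 V V := by
      funext z'; rw [blockA_apply]; simp
    have e4 : (fun z' : E₁ × E₂ => fderiv ℝ (fun z'' : E₁ × E₂ => B z''.2 V V) z' (X, 0)) =ᶠ[𝓝 (x, y)]
        fun _ => 0 := by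
      have hc : ContinuousAt (fun z : E₁ × E₂ => z.2) (x, y) := continuousAt_snd
      filter_upwards [hc.eventually (h.metB.smooth.eventually (by norm_num))] with z' hz'
      have hB : DifferentiableAt ℝ (fun y' => B y' V V) z'.2 :=
        (smooth2 hz' _ _).differentiableAt (by norm_num)
      have d2 : HasFDerivAt (fun z : E₁ × E₂ => B z.2 V V)
          ((fderiv ℝ (fun y' => B y' V V) z'.2) ∘L (ContinuousLinearMap.snd ℝ E₁ E₂)) z' :=
        HasFDerivAt.comp (g := fun y' => B y' V V) z' hB.hasFDerivAt hasFDerivAt_snd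
      rw [d2.fderiv]
      simp
    rw [ddG_D2, e, D2, e4.fderiv_eq]
    simp
  have e3 : 0 ≤ ddG (blockA A B) (x, y) (0, V) (0, V) (X, 0) (X, 0) := by
    have e : (fun z' => blockA A B z' (X, 0) (X, 0)) = fun z' => A z' X X := by
      funext z'; rw [blockA_apply]; simp
    rw [ddG_D2, e]
    exact h.convex X V
  have e4 : chr (blockA A B) (x, y) (X, 0) (X, 0) (Gam (blockA A B) (x, y) (0, V) (0, V)) = 0 := by
    rw [h.Gam_VV, chr_apply h.smooth, h.dG_block, h.dG_block]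
    simp [dG]
  rw [num, e1, e2, e4, h.chr_XV]
  simp only [zero_apply]
  linarith

end SliceMin

/-- the one-form `u ↦ a(u.1)`. -/
noncomputable def lf (a : E₁ × E₂ → E₁ →L[ℝ] ℝ) (z : E₁ × E₂) : (E₁ × E₂) →L[ℝ] ℝ :=
  (a z) ∘L ContinuousLinearMap.fst ℝ E₁ E₂

/-- the one-form `u ↦ b(u.2)`. -/
noncomputable def rf (b : E₁ × E₂ → E₂ →L[ℝ] ℝ) (z : E₁ × E₂) : (E₁ × E₂) →L[ℝ] ℝ :=
  (b z) ∘L ContinuousLinearMap.snd ℝ E₁ E₂

variable {a : E₁ × E₂ → E₁ →L[ℝ] ℝ} {b : E₁ × E₂ → E₂ →L[ℝ] ℝ} {p r s : E₁ × E₂ → ℝ}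

lemma lf_apply (z u : E₁ × E₂) : lf a z u = a z u.1 := rfl
lemma rf_apply (z u : E₁ × E₂) : rf b z u = b z u.2 := rfl

lemma contDiffAt_lf {z : E₁ × E₂} (h : ContDiffAt ℝ 2 a z) : ContDiffAt ℝ 2 (lf a) z :=
  h.clm_comp contDiffAt_const

lemma contDiffAt_rf {z : E₁ × E₂} (h : ContDiffAt ℝ 2 b z) : ContDiffAt ℝ 2 (rf b) z :=
  h.clm_comp contDiffAt_const

variable [FiniteDimensional ℝ E₁] [FiniteDimensional ℝ E₂]

lemma SliceMin.nv_rf (h : SliceMin A B x y) : nv (blockA A B) (rf b) (x, y) = (0, nv B (fun y' => b (x, y')) y) := by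
  have h1 : ∀ w, blockA A B (x, y) (0, nv B (fun y' => b (x, y')) y) w = rf b (x, y) w := by
    intro w
    rw [blockA_apply, rf_apply]
    have := G_nv (α := fun y' => b (x, y')) h.metB w.2
    simp only [map_zero, zero_apply, zero_add]
    exact this
  have h2 : blockA A B (x, y) (0, nv B (fun y' => b (x, y')) y) = rf b (x, y) :=
    ContinuousLinearMap.ext h1
  rw [nv, ← h2, h.met.inv.inverse_apply_self]

/-- **Curvature at a minimal slice** of a rank-two perturbation. -/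
theorem SliceMin.num_two (h : SliceMin A B x y) (ht : Two (blockA A B) (lf a) (rf b) p r s (x, y))
    (hR : MetAt (rankTwo (blockA A B) (lf a) (rf b) p r s) (x, y))
    (hD : 0 < DD (blockA A B) (lf a) (rf b) p r s (x, y)) (X : E₁) (V : E₂)
    (hX : a (x, y) X = 0) (hV : b (x, y) V = 0)
    (hq : 0 ≤ (p (x, y) + (p (x, y) * s (x, y) - r (x, y) ^ 2) * wv (blockA A B) (rf b) (x, y))
          * dα (lf a) (x, y) (0, V) (X, 0) ^ 2
        + 2 * r (x, y) * dα (lf a) (x, y) (0, V) (X, 0) * dα (rf b) (x, y) (X, 0) (0, V)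
        + (s (x, y) + (p (x, y) * s (x, y) - r (x, y) ^ 2) * wv (blockA A B) (lf a) (x, y))
          * dα (rf b) (x, y) (X, 0) (0, V) ^ 2)
    (hq' : 0 ≤ p (x, y) * dα (lf a) (x, y) (0, V) (X, 0) ^ 2
        - 2 * r (x, y) * dα (lf a) (x, y) (0, V) (X, 0) * dα (rf b) (x, y) (X, 0) (0, V)
        + s (x, y) * dα (rf b) (x, y) (X, 0) (0, V) ^ 2) :
    num (rankTwo (blockA A B) (lf a) (rf b) p r s) (x, y) (X, 0) (0, V)
      ≤ (r (x, y) / DD (blockA A B) (lf a) (rf b) p r s (x, y)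
          * Sv (blockA A B) (rf b) (x, y) (0, V) (0, V))
        * (dα (fun x' => a (x', y)) x X X - a (x, y) (Gam (fun x' => A (x', y)) x X X)) := by
  have hort : lf a (x, y) (nv (blockA A B) (rf b) (x, y)) = 0 := by
    rw [h.nv_rf, lf_apply]; simp
  have k0 : ∀ t : E₁ × E₂, dα (lf a) (x, y) t (0, V) = 0 := by
    intro t
    have : (fun z' => lf a z' ((0 : E₁), V)) = fun _ => 0 := by funext z'; rw [lf_apply]; simp
    rw [dα, this]; simp
  have k0' : ∀ t : E₁ × E₂, dα (rf b) (x, y) t (X, 0) = 0 := by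
    intro t
    have : (fun z' => rf b z' (X, (0 : E₂))) = fun _ => 0 := by funext z'; rw [rf_apply]; simp
    rw [dα, this]; simp
  have s1 : Sv (blockA A B) (lf a) (x, y) (0, V) (0, V) = 0 := by
    rw [Sv, k0, h.Gam_VV, lf_apply]; simp
  have s2 : Sv (blockA A B) (rf b) (x, y) (X, 0) (X, 0) = 0 := by
    rw [Sv, k0', h.Gam_XX, rf_apply]; simp
  have s3 : Sv (blockA A B) (lf a) (x, y) (X, 0) (0, V) = 1 / 2 * dα (lf a) (x, y) (0, V) (X, 0) := by
    rw [Sv, k0, h.Gam_XV]; simp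
  have s4 : Sv (blockA A B) (rf b) (x, y) (X, 0) (0, V) = 1 / 2 * dα (rf b) (x, y) (X, 0) (0, V) := by
    rw [Sv, k0', h.Gam_XV]; simp
  have s5 : Sv (blockA A B) (lf a) (x, y) (X, 0) (X, 0)
      = dα (fun x' => a (x', y)) x X X - a (x, y) (Gam (fun x' => A (x', y)) x X X) := by
    have e1 : dα (lf a) (x, y) (X, 0) (X, 0) = dα (fun x' => a (x', y)) x X X := by
      rw [dα, dα]
      exact (fderiv_slice' (f := fun z => lf a z (X, 0))
        ((smoothα ht.hα (X, 0)).differentiableAt (by norm_num)) X).symm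
    rw [Sv, h.Gam_XX, lf_apply, e1]
    ring
  rw [num_rankTwo h.met ht hR hort hD.ne' (X, 0) (0, V) (by rw [lf_apply]; exact hX)
    (by rw [rf_apply]; simp) (by rw [lf_apply]; simp) (by rw [rf_apply]; exact hV),
    s1, s2, s3, s4, s5, k0, k0']
  have h0 := h.num_le X V
  generalize hDD : DD (blockA A B) (lf a) (rf b) p r s (x, y) = D at hD
  have h1 : 0 ≤ 1 / 4 * (1 / D * ((p (x, y) + (p (x, y) * s (x, y) - r (x, y) ^ 2) * wv (blockA A B) (rf b) (x, y))
          * dα (lf a) (x, y) (0, V) (X, 0) ^ 2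
        + 2 * r (x, y) * dα (lf a) (x, y) (0, V) (X, 0) * dα (rf b) (x, y) (X, 0) (0, V)
        + (s (x, y) + (p (x, y) * s (x, y) - r (x, y) ^ 2) * wv (blockA A B) (lf a) (x, y))
          * dα (rf b) (x, y) (X, 0) (0, V) ^ 2)) := by positivity
  have h2 : r (x, y) / D = 1 / D * r (x, y) := by ring
  rw [h2]
  linarith

end

end Pool.Agent.Helper20.PC
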