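import Pool.Agent.Helper20.VF.NullInt
import Pool.Agent.Helper20.PC.TwoBlock
import Pool.Agent.Helper20.VF.Final
import Pool.Agent.Helper20.VF.MatIneq

/-!
# One-forms on spheres of even dimension have zeros
-/

set_option maxSynthPendingDepth 3

open MeasureTheory Set Metric Filter Module
open scoped Topology RealInnerProductSpace ContDiff Manifold

namespace Pool.Agent.Helper20.PC

open Pool.Agent.Helper20.VF

section
variable {E : Type*} [NormedAddCommGroup E] [InnerProductSpace ℝ E] [FiniteDimensional ℝ E]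

lemma sgE_top {n : ℕ} (hfr : finrank ℝ E = n + 3) {V : E → E} (hV : UField V) {x : E} (hx : ‖x‖ = 1) :
    sgE (Lw V x) (n + 2) = 0 := by
  have hx0 : x ≠ 0 := by rintro rfl; simp at hx
  obtain ⟨b, hb0, hb1⟩ := exists_adapted hfr hx (hV.unit x hx0) (hV.tang x)
  have hLk : ∀ (k : Fin 2) δ, ⟪b (Sum.inl k), Lw V x δ⟫ = 0 := by
    intro k δ
    fin_cases k
    · simp only [Fin.zero_eta, hb0]; exact inner_x_Lw hV hx δ
    · simp only [Fin.mk_one, hb1]; exact inner_V_Lw hV hx0 δ
  have hz : ∀ k, n + 1 < k → sg (Am b (Lw V x)) k = 0 := by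
    intro k hk
    rw [sg, Finset.powersetCard_eq_empty.2 (by simpa using hk), Finset.sum_empty]
  have h1 : sgE (Lw V x) (n + 2) = sg (Am b (Lw V x)) (n + 2) := by
    refine coeff_eq (N := finrank ℝ E + 1) (M := finrank ℝ E + 1) (fun k => sgE (Lw V x) k)
      (fun k => sg (Am b (Lw V x)) k) (fun t => ?_) (by omega) (by omega)
    rw [← det_sgE, det_id_add_tan b (Lw V x) hLk t, det_one_add_smul', Fintype.card_fin]
    refine Finset.sum_subset (Finset.range_subset_range.2 (by omega)) (fun k hk hk' => ?_)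
    rw [Finset.mem_range] at hk hk'
    rw [hz k (by omega), mul_zero]
  rw [h1, hz _ (by omega)]

lemma Ik_pos [MeasurableSpace E] [BorelSpace E] {m : ℕ} (hfr : finrank ℝ E = 2 * m + 3)
    {V : E → E} (hV : UField V) {j : ℕ} (hj : j ≤ m + 1) : 0 < Ik V (2 * j) := by
  have : Nontrivial E := Module.nontrivial_of_finrank_pos (R := ℝ) (by omega)
  induction j with
  | zero =>
    simp only [Ik, mul_zero, sgE_zero]
    rw [integral_const, smul_eq_mul, mul_one, Measure.real, ENNReal.toReal_pos_iff]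
    refine ⟨?_, measure_lt_top _ _⟩
    rw [Measure.toSphere_apply_univ]
    have h1 : 0 < (volume : Measure E) (ball 0 1) := measure_ball_pos _ _ one_pos
    have h2 : (0 : ENNReal) < (finrank ℝ E : ENNReal) := by
      rw [hfr]; exact_mod_cast Nat.succ_pos _
    exact ENNReal.mul_pos h2.ne' h1.ne'
  | succ j ih =>
    have h1 := Ik_rec hV (n := 2 * m) hfr (k := 2 * j) (by omega)
    have h2 := ih (by omega)
    rw [hfr] at h1
    have h3 : (0 : ℝ) < ((2 * m + 3 : ℕ) : ℝ) - (((2 * j : ℕ) : ℝ) + 2) := by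
      have : ((j : ℕ) : ℝ) ≤ (m : ℝ) := by exact_mod_cast (by omega : j ≤ m)
      push_cast
      linarith
    have h4 : 0 < (((2 * j : ℕ) : ℝ) + 2) * Ik V (2 * j + 2) := by
      rw [h1]
      exact mul_pos h3 h2
    have h5 : (0 : ℝ) < ((2 * j : ℕ) : ℝ) + 2 := by positivity
    rw [show 2 * (j + 1) = 2 * j + 2 by ring]
    exact (mul_pos_iff_of_pos_left h5).1 h4

/-- **Hairy ball theorem** for `C¹` fields. -/
theorem hairy_ball {m : ℕ} (hfr : finrank ℝ E = 2 * m + 3) {V : E → E} (hV : UField V) : False := by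
  let _ : MeasurableSpace E := borel E
  have : BorelSpace E := ⟨rfl⟩
  have h1 := Ik_pos hfr hV (j := m + 1) le_rfl
  have h2 : Ik V (2 * (m + 1)) = 0 := by
    rw [Ik, show 2 * (m + 1) = 2 * m + 2 by ring]
    have : ∀ u : sphere (0 : E) 1, sgE (Lw V (u : E)) (2 * m + 2) = 0 := fun u =>
      sgE_top hfr hV (mem_sphere_zero_iff_norm.1 u.2)
    simp only [this, integral_zero]
  rw [h2] at h1
  exact lt_irrefl _ h1

/-- A `C¹` one-form on a sphere of even dimension has a zero. -/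
theorem exists_zero_form {l : ℕ} [Fact (finrank ℝ E = l + 1)] (hl : 2 ≤ l) (hle : Even l)
    {β : sphere (0 : E) 1 → E →L[ℝ] ℝ} (hβ : ContMDiff (𝓡 l) 𝓘(ℝ, E →L[ℝ] ℝ) 1 β) :
    ∃ y : sphere (0 : E) 1, ∀ V : E, ⟪(y : E), V⟫ = 0 → β y V = 0 := by
  have hfin : finrank ℝ E = l + 1 := Fact.out
  by_contra hcon
  push Not at hcon
  obtain ⟨j, hj⟩ := hle
  have : Nontrivial E := Module.nontrivial_of_finrank_pos (R := ℝ) (by omega)
  obtain ⟨x₀⟩ : Nonempty (sphere (0 : E) 1) := (NormedSpace.sphere_nonempty.2 zero_le_one).to_subtype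
  set ℓ : E → E →L[ℝ] ℝ := fun x => β (toS x₀ x) ∘L dn x with hℓ
  set w : E → E := fun x => (InnerProductSpace.toDual ℝ E).symm (ℓ x) with hw
  have hwi : ∀ x u, ⟪w x, u⟫ = ℓ x u := fun x u => by
    rw [hw]
    exact InnerProductSpace.toDual_symm_apply
  have hℓs : ∀ x, x ≠ 0 → ContDiffAt ℝ 1 ℓ x := fun x hx =>
    (contDiffAt_comp_toS (r := 1) hβ x₀ hx).clm_comp (contDiffAt_dn hx)
  have hws : ∀ x, x ≠ 0 → ContDiffAt ℝ 1 w x := fun x hx =>
    ((InnerProductSpace.toDual ℝ E).symm.toContinuousLinearEquiv.contDiff.contDiffAt).comp x (hℓs x hx)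
  have hw0 : ∀ x, x ≠ 0 → w x ≠ 0 := by
    intro x hx h0
    obtain ⟨V, hV1, hV2⟩ := hcon (toS x₀ x)
    have h1 : ⟪x, V⟫ = 0 := by
      rw [toS_val x₀ hx, inner_smul_left] at hV1
      simpa [hx] using hV1
    have h2 : ℓ x V = ‖x‖⁻¹ * β (toS x₀ x) V := by
      simp only [hℓ, ContinuousLinearMap.comp_apply, dn_apply, dl_tangent h1, zero_smul, sub_zero,
        map_smul, smul_eq_mul]
    have h3 : ℓ x V = 0 := by rw [← hwi, h0, inner_zero_left]
    rw [h2] at h3
    rcases mul_eq_zero.1 h3 with h4 | h4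
    · exact (inv_ne_zero (norm_ne_zero_iff.2 hx)) h4
    · exact hV2 h4
  have hwt : ∀ x, ⟪w x, x⟫ = 0 := by
    intro x
    by_cases hx : x = 0
    · rw [hx, inner_zero_right]
    · rw [hwi]
      simp only [hℓ, ContinuousLinearMap.comp_apply, dn_self x hx, map_zero]
  have hwsc : ∀ x, ∀ t : ℝ, 0 < t → w (t • x) = t⁻¹ • w x := by
    intro x t ht
    have : ℓ (t • x) = t⁻¹ • ℓ x := by
      refine ContinuousLinearMap.ext (fun u => ?_)
      simp only [hℓ, ContinuousLinearMap.comp_apply, toS_smul x₀ x ht, dn_smul x u ht, map_smul,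
        smul_apply]
    simp only [hw, this, map_smul]
  refine hairy_ball (m := j - 1) (by omega) (V := fun x => ‖w x‖⁻¹ • w x) ⟨?_, ?_, ?_, ?_⟩
  · intro x hx
    have hx' : x ≠ 0 := hx
    exact (((contDiffAt_norm ℝ (hw0 x hx')).comp x (hws x hx')).inv
      (norm_ne_zero_iff.2 (hw0 x hx')) |>.smul (hws x hx')).contDiffWithinAt
  · intro x t ht
    rw [hwsc x t ht, norm_smul, norm_inv, Real.norm_eq_abs, abs_of_pos ht, smul_smul, mul_inv, inv_inv]
    congr 1
    field_simp
  · intro x hx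
    exact norm_normalize (hw0 x hx)
  · intro x
    rw [inner_smul_right, real_inner_comm, hwt, mul_zero]

end

end Pool.Agent.Helper20.PC
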