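import Pool.Agent.Helper20.PC.Prod

/-!
# Jacobi's formula and Riemannian divergence
-/

open Filter Metric Module Set Matrix
open scoped Topology ContDiff RealInnerProductSpace Manifold

namespace Pool.Agent.Helper20.PC

section
variable {n : ℕ}

/-- determinant of an array. -/
noncomputable def detF (m : Fin n → Fin n → ℝ) : ℝ := (Matrix.of m).det

lemma contDiff_detF : ContDiff ℝ 1 (detF : (Fin n → Fin n → ℝ) → ℝ) := by
  unfold detF
  simp_rw [Matrix.det_apply', Matrix.of_apply]
  fun_prop

lemma hasDerivAt_det_one_add (M : Matrix (Fin n) (Fin n) ℝ) :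
    HasDerivAt (fun t : ℝ => (1 + t • M).det) (trace M) 0 := by
  have h0 : (fun t : ℝ => (1 + t • M).det) = fun t : ℝ => (1 + trace M * t) +
      (det (1 + (Polynomial.X : Polynomial ℝ) • M.map Polynomial.C)).divX.divX.eval t * t ^ 2 := by
    funext t
    exact Matrix.det_one_add_smul t M
  rw [h0]
  have h1 : HasDerivAt (fun t : ℝ => (1 + trace M * t) +
      (det (1 + (Polynomial.X : Polynomial ℝ) • M.map Polynomial.C)).divX.divX.eval t * t ^ 2)
      ((0 + trace M * 1) + ((Polynomial.derivative (det (1 + (Polynomial.X : Polynomial ℝ) • M.map Polynomial.C)).divX.divX).eval 0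
        * (0 : ℝ) ^ 2 + ((det (1 + (Polynomial.X : Polynomial ℝ) • M.map Polynomial.C)).divX.divX).eval 0
          * (((2 : ℕ) : ℝ) * (0 : ℝ) ^ (2 - 1)))) 0 := by
    refine HasDerivAt.add ?_ ?_
    · exact (hasDerivAt_const _ _).add ((hasDerivAt_id (0 : ℝ)).const_mul _)
    · exact (Polynomial.hasDerivAt _ _).mul (hasDerivAt_pow 2 (0 : ℝ))
  simpa using h1

lemma fderiv_detF (m d : Fin n → Fin n → ℝ) (hm : IsUnit (Matrix.of m).det) :
    fderiv ℝ detF m d = detF m * trace ((Matrix.of m)⁻¹ * Matrix.of d) := by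
  have h1 : HasFDerivAt detF (fderiv ℝ detF m) (m + (0 : ℝ) • d) := by
    rw [zero_smul, add_zero]
    exact (contDiff_detF.differentiable (by norm_num) m).hasFDerivAt
  have h2 : HasDerivAt (fun t : ℝ => m + t • d) d 0 := by
    simpa using ((hasDerivAt_id (0 : ℝ)).smul_const d).const_add m
  have h3 : HasDerivAt (fun t : ℝ => detF (m + t • d)) (fderiv ℝ detF m d) 0 :=
    h1.comp_hasDerivAt (0 : ℝ) h2
  have h4 : (fun t : ℝ => detF (m + t • d)) = fun t : ℝ =>
      detF m * (1 + t • ((Matrix.of m)⁻¹ * Matrix.of d)).det := by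
    funext t
    rw [detF, detF, ← det_mul, Matrix.mul_add, Matrix.mul_one, Matrix.mul_smul, ← Matrix.mul_assoc,
      Matrix.mul_nonsing_inv _ hm, Matrix.one_mul]
    rfl
  rw [h4] at h3
  exact h3.unique ((hasDerivAt_det_one_add _).const_mul _)

end

section
variable {E : Type*} [NormedAddCommGroup E] [InnerProductSpace ℝ E] [FiniteDimensional ℝ E] {n : ℕ}

/-- Gram matrix. -/
noncomputable def gram (b : OrthonormalBasis (Fin n) ℝ E) (B : E →L[ℝ] E →L[ℝ] ℝ)
    (i j : Fin n) : ℝ := B (b i) (b j)

lemma gram_det_pos (b : OrthonormalBasis (Fin n) ℝ E) {B : E →L[ℝ] E →L[ℝ] ℝ}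
    (hs : ∀ u v, B u v = B v u) (hp : ∀ u, u ≠ 0 → 0 < B u u) : 0 < (Matrix.of (gram b B)).det := by
  have : (Matrix.of (gram b B)).PosDef := by
    refine Matrix.PosDef.of_dotProduct_mulVec_pos ?_ ?_
    · ext i j
      simp [gram, hs (b i)]
    · intro x hx
      have e : star x ⬝ᵥ (Matrix.of (gram b B) *ᵥ x) = B (∑ i, x i • b i) (∑ j, x j • b j) := by
        simp only [map_sum, map_smul, _root_.sum_apply, _root_.smul_apply, smul_eq_mul,
          dotProduct, mulVec, gram, Matrix.of_apply, star_trivial]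
        refine Finset.sum_congr rfl (fun i _ => ?_)
        congr 1
        refine Finset.sum_congr rfl (fun j _ => ?_)
        rw [hs (b i) (b j)]
        ring
      rw [e]
      refine hp _ (fun h => hx ?_)
      have h2 : (Finset.univ.sum (fun i : Fin n => x i • (b.toBasis : Fin n → E) i)) = 0 := by
        simpa using h
      have hli : LinearIndependent ℝ (b.toBasis : Fin n → E) := b.toBasis.linearIndependent
      have h3 := linearIndependent_iff'.1 hli Finset.univ x h2
      funext i
      exact h3 i (Finset.mem_univ _)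
  exact this.det_pos

/-- trace in terms of a form. -/
lemma trace_eq_gram (b : OrthonormalBasis (Fin n) ℝ E) {B : E →L[ℝ] E →L[ℝ] ℝ}
    (hM : IsUnit (Matrix.of (gram b B)).det) (T : E →ₗ[ℝ] E) :
    LinearMap.trace ℝ E T
      = trace ((Matrix.of (gram b B))⁻¹ * Matrix.of (fun i j => B (T (b i)) (b j))) := by
  have h1 : Matrix.of (fun i j => B (T (b i)) (b j))
      = (LinearMap.toMatrix b.toBasis b.toBasis T)ᵀ * Matrix.of (gram b B) := by
    ext i j
    rw [Matrix.of_apply, Matrix.mul_apply]
    have e : T (b i) = ∑ k, (LinearMap.toMatrix b.toBasis b.toBasis T) k i • b k := by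
      have := b.toBasis.sum_repr (T (b i))
      rw [← this]
      refine Finset.sum_congr rfl (fun k _ => ?_)
      rw [LinearMap.toMatrix_apply]
      simp
    rw [e]
    simp only [map_sum, map_smul, _root_.sum_apply, _root_.smul_apply, smul_eq_mul,
      transpose_apply, Matrix.of_apply, gram]
  rw [h1, ← Matrix.mul_assoc, Matrix.trace_mul_comm, ← Matrix.mul_assoc, Matrix.mul_nonsing_inv _ hM,
    Matrix.one_mul, trace_transpose, ← LinearMap.trace_eq_matrix_trace]

lemma trace_symm_antisymm {M C : Matrix (Fin n) (Fin n) ℝ} (hM : Mᵀ = M) (hC : Cᵀ = -C) :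
    trace (M⁻¹ * C) = 0 := by
  have h1 : trace (M⁻¹ * C) = - trace (M⁻¹ * C) := by
    calc trace (M⁻¹ * C) = trace ((M⁻¹ * C)ᵀ) := (trace_transpose _).symm
      _ = trace (-(C * M⁻¹)) := by
        rw [transpose_mul, transpose_nonsing_inv, hM, hC, Matrix.neg_mul]
      _ = - trace (M⁻¹ * C) := by rw [trace_neg, trace_mul_comm]
  linarith

end

end Pool.Agent.Helper20.PC
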