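import Pool.Agent.Helper20.PC.DivThm

/-!
# Lemma D, first part: algebra
-/

open Filter Metric Module Set
open scoped Topology ContDiff RealInnerProductSpace Manifold

namespace Pool.Agent.Helper20.PC

/-- a `G`-orthonormal basis adapted to two vectors. -/
lemma exists_adapted_basis {V : Type*} [AddCommGroup V] [Module ℝ V] [FiniteDimensional ℝ V]
    (G : V →ₗ[ℝ] V →ₗ[ℝ] ℝ) (hs : ∀ u v, G u v = G v u) (hp : ∀ u, u ≠ 0 → 0 < G u u) {x n : V}
    (hx : G x x = 1) (hn : G n n = 1) (hxn : G x n = 0) :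
    ∃ s : Finset V, x ∈ s ∧ n ∈ s ∧ (∀ u ∈ s, G u u = 1) ∧ (∀ u ∈ s, ∀ v ∈ s, u ≠ v → G u v = 0) ∧
      s.card = finrank ℝ V ∧ ∀ T : V →ₗ[ℝ] V, LinearMap.trace ℝ V T = ∑ u ∈ s, G (T u) u := by
  classical
  have hp' : ∀ u, 0 ≤ G u u := fun u => by
    by_cases h : u = 0
    · rw [h]; simp
    · exact (hp u h).le
  let core : InnerProductSpace.Core ℝ V :=
    { inner := fun u v => G u v
      conj_inner_symm := fun u v => by simp [hs v u]
      re_inner_nonneg := fun u => by simpa using hp' u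
      add_left := fun u v w => by simp
      smul_left := fun u v r => by simp
      definite := fun u hu => by
        by_contra h
        exact (hp u h).ne' hu }
  let _ : NormedAddCommGroup V := core.toNormedAddCommGroup
  let _ : InnerProductSpace ℝ V := InnerProductSpace.ofCore core.toCore
  have hin : ∀ u v : V, inner ℝ u v = G u v := fun u v => rfl
  have hne : x ≠ n := by
    rintro rfl
    rw [hx] at hxn
    exact one_ne_zero hxn
  have hov : Orthonormal ℝ ((↑) : ({x, n} : Set V) → V) := by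
    rw [orthonormal_subtype_iff_ite]
    intro u hu v hv
    rcases hu with rfl | hu <;> rcases hv with rfl | hv
    · rw [hin, hx, if_pos rfl]
    · rw [hv, hin, hxn, if_neg hne]
    · rw [hu, hin, hs, hxn, if_neg hne.symm]
    · rw [hu, hv, hin, hn, if_pos rfl]
  obtain ⟨s, b, hsub, hb⟩ := hov.exists_orthonormalBasis_extension
  refine ⟨s, hsub (by simp), hsub (by simp), ?_, ?_, ?_, ?_⟩
  · intro u hu
    have := b.orthonormal.1 ⟨u, hu⟩
    rw [hb] at this
    simp only at this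
    rw [← hin, real_inner_self_eq_norm_sq, this, one_pow]
  · intro u hu v hv huv
    have := b.orthonormal.2 (i := ⟨u, hu⟩) (j := ⟨v, hv⟩) (fun h => huv (congrArg Subtype.val h))
    rw [hb] at this
    exact this
  · rw [finrank_eq_card_basis b.toBasis, Fintype.card_coe]
  · intro T
    rw [LinearMap.trace_eq_sum_inner T b, hb, ← Finset.sum_coe_sort s]
    refine Finset.sum_congr rfl (fun u _ => ?_)
    rw [hin, hs]

section
variable {E : Type*} [NormedAddCommGroup E] [InnerProductSpace ℝ E] [FiniteDimensional ℝ E]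
variable {G : E → E →L[ℝ] E →L[ℝ] ℝ} {β : E → E →L[ℝ] ℝ} {x : E}

/-- the covariant derivative of a one-form. -/
noncomputable def Bv (G : E → E →L[ℝ] E →L[ℝ] ℝ) (β : E → E →L[ℝ] ℝ) (x v u : E) : ℝ :=
  dα β x v u - β x (Gam G x v u)

lemma dα_eq (hβ : DifferentiableAt ℝ β x) (v u : E) : dα β x v u = fderiv ℝ β x v u := by
  have h1 := hβ.hasFDerivAt.clm_apply (hasFDerivAt_const u x)
  rw [dα, h1.fderiv]
  simp

lemma dG_eq (hG : DifferentiableAt ℝ G x) (t u v : E) : dG G x t u v = fderiv ℝ G x t u v := by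
  have h1 := (hG.hasFDerivAt.clm_apply (hasFDerivAt_const u x)).clm_apply (hasFDerivAt_const v x)
  rw [dG, h1.fderiv]
  simp

lemma contDiffAt_nv (h : MetAt G x) (hβ : ContDiffAt ℝ 1 β x) : ContDiffAt ℝ 1 (nv G β) x := by
  obtain ⟨e, he⟩ := h.inv
  have h1 : ContDiffAt ℝ 1 ContinuousLinearMap.inverse (G x) := by
    rw [← he]
    exact contDiffAt_map_inverse e
  have h2 : ContDiffAt ℝ 1 (fun z' => (G z').inverse) x :=
    h1.comp x (h.smooth.of_le (by norm_num))
  exact h2.clm_apply hβ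

lemma beta_Gam (h : MetAt G x) (u v : E) : β x (Gam G x u v) = chr G x u v (nv G β x) := by
  rw [← G_nv h, h.symm.self_of_nhds, G_Gam h]

lemma G_covD_nv (h : MetAt G x) (hβ : ContDiffAt ℝ 1 β x) (v u : E) :
    G x (fderiv ℝ (nv G β) x v + Gam G x v (nv G β x)) u = Bv G β x v u := by
  have hGd : DifferentiableAt ℝ G x := h.smooth.differentiableAt (by norm_num)
  have hβd : DifferentiableAt ℝ β x := hβ.differentiableAt (by norm_num)
  have h1 : (fun z' => G z' (nv G β z')) =ᶠ[𝓝 x] β :=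
    h.eventually.mono (fun z' hz' => by ext w; exact G_nv hz' w)
  have h2 := h1.fderiv_eq (𝕜 := ℝ)
  have h3 := (hGd.hasFDerivAt.clm_apply
    ((contDiffAt_nv h hβ).differentiableAt (by norm_num)).hasFDerivAt).fderiv
  rw [h3] at h2
  have h4 := DFunLike.congr_fun (DFunLike.congr_fun h2 v) u
  have h5 : G x (fderiv ℝ (nv G β) x v) u + dG G x v (nv G β x) u = dα β x v u := by
    rw [dG_eq hGd, dα_eq hβd, ← h4]
    simp
  rw [map_add, _root_.add_apply, G_Gam h, Bv, beta_Gam h, ← h5, dG_eq_chr h]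
  ring

lemma fderiv_wv (h : MetAt G x) (hβ : ContDiffAt ℝ 1 β x) (v : E) :
    fderiv ℝ (wv G β) x v = 2 * Bv G β x v (nv G β x) := by
  have hβd : DifferentiableAt ℝ β x := hβ.differentiableAt (by norm_num)
  have h1 := hβd.hasFDerivAt.clm_apply
    ((contDiffAt_nv h hβ).differentiableAt (by norm_num)).hasFDerivAt
  have h2 : HasFDerivAt (wv G β) _ x := h1
  have h3 := G_covD_nv h hβ v (nv G β x)
  rw [map_add, _root_.add_apply, G_Gam h, h.symm.self_of_nhds, G_nv h] at h3
  rw [h2.fderiv]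
  simp only [_root_.add_apply, ContinuousLinearMap.comp_apply, ContinuousLinearMap.flip_apply]
  rw [← dα_eq hβd]
  have h4 : dα β x v (nv G β x) = Bv G β x v (nv G β x) + chr G x v (nv G β x) (nv G β x) := by
    rw [Bv, beta_Gam h]; ring
  rw [h4]
  linarith

lemma contDiffAt_wv (h : MetAt G x) (hβ : ContDiffAt ℝ 1 β x) : ContDiffAt ℝ 1 (wv G β) x :=
  hβ.clm_apply (contDiffAt_nv h hβ)

/-- the regularised unit vector field. -/
noncomputable def Wf (G : E → E →L[ℝ] E →L[ℝ] ℝ) (β : E → E →L[ℝ] ℝ) (ε : ℝ) (z : E) : E :=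
  (Real.sqrt (ε + wv G β z))⁻¹ • nv G β z

lemma contDiffAt_Wf (h : MetAt G x) (hβ : ContDiffAt ℝ 1 β x) {ε : ℝ} (hε : 0 < ε) :
    ContDiffAt ℝ 1 (Wf G β ε) x := by
  have hw := wv_nonneg (α := β) h
  have h1 : 0 < ε + wv G β x := by linarith
  refine ContDiffAt.smul (ContDiffAt.inv ((contDiffAt_const.add (contDiffAt_wv h hβ)).sqrt h1.ne') ?_)
    (contDiffAt_nv h hβ)
  exact (Real.sqrt_pos.2 h1).ne'

lemma G_covD_Wf (h : MetAt G x) (hβ : ContDiffAt ℝ 1 β x) {ε : ℝ} (hε : 0 < ε) (v u : E) :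
    G x (fderiv ℝ (Wf G β ε) x v + Gam G x v (Wf G β ε x)) u
      = (Real.sqrt (ε + wv G β x))⁻¹ * (Bv G β x v u
        - Bv G β x v (nv G β x) * β x u / (ε + wv G β x)) := by
  have hw := wv_nonneg (α := β) h
  have h1 : 0 < ε + wv G β x := by linarith
  have hs := Real.sqrt_pos.2 h1
  have hsq : Real.sqrt (ε + wv G β x) ^ 2 = ε + wv G β x := Real.sq_sqrt h1.le
  have h2 : HasFDerivAt (fun z => ε + wv G β z) (fderiv ℝ (wv G β) x) x :=
    ((contDiffAt_wv h hβ).differentiableAt (by norm_num)).hasFDerivAt.const_add ε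
  have h3 := (HasDerivAt.comp_hasFDerivAt x (hasDerivAt_inv hs.ne') (h2.sqrt h1.ne')).smul
    ((contDiffAt_nv h hβ).differentiableAt (by norm_num)).hasFDerivAt
  have h4 : HasFDerivAt (Wf G β ε) _ x := h3
  rw [h4.fderiv]
  have h5 : Gam G x v (Wf G β ε x) = (Real.sqrt (ε + wv G β x))⁻¹ • Gam G x v (nv G β x) := by
    rw [Wf, Gam_symm h, Gam_smul_left h, Gam_symm h]
  rw [h5]
  have h6 := G_covD_nv h hβ v u
  rw [map_add, _root_.add_apply] at h6
  simp only [_root_.add_apply, _root_.smul_apply, ContinuousLinearMap.smulRight_apply, map_add,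
    map_smul, smul_eq_mul, Function.comp_apply]
  rw [G_nv h, fderiv_wv h hβ, ← h6]
  rw [← hsq]
  simp only [Real.sqrt_sq hs.le]
  field_simp
  ring

end

end Pool.Agent.Helper20.PC
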