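import Pool.Agent.Helper20.PC.LemD1

/-!
# Lemma D, second part
-/

open Filter Metric Module Set
open scoped Topology ContDiff RealInnerProductSpace Manifold

namespace Pool.Agent.Helper20.PC

/-- a compactness lemma. -/
lemma exists_large {X : Type*} [TopologicalSpace X] {s : Set X} (hs : IsCompact s) {q f p : X → ℝ}
    (hq : Continuous q) (hf : Continuous f) (hp : Continuous p) (hf0 : ∀ x, 0 ≤ f x)
    (hp0 : ∀ x, 0 ≤ p x) (h : ∀ x ∈ s, f x = 0 → 0 < q x) :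
    ∃ N : ℕ, ∀ x ∈ s, 0 < q x + N * f x - p x / (N + 1) := by
  have hmono : ∀ x, Monotone (fun N : ℕ => q x + N * f x - p x / (N + 1)) := by
    intro x a b hab
    have h1 : (a : ℝ) ≤ b := by exact_mod_cast hab
    have h2 : (a : ℝ) * f x ≤ b * f x := mul_le_mul_of_nonneg_right h1 (hf0 x)
    have h3 : p x / ((b : ℝ) + 1) ≤ p x / (a + 1) :=
      div_le_div_of_nonneg_left (hp0 x) (by positivity) (by linarith)
    simp only
    linarith
  obtain ⟨N, hN⟩ := hs.elim_directed_cover (fun N : ℕ => {x | 0 < q x + N * f x - p x / (N + 1)})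
    (fun N => isOpen_lt continuous_const ((hq.add (continuous_const.mul hf)).sub
      (hp.div_const _)))
    (fun x hx => by
      rw [mem_iUnion]
      rcases (hf0 x).eq_or_lt with h0 | h0
      · obtain ⟨N, hN⟩ := exists_nat_gt (p x / q x)
        have hqx := h x hx h0.symm
        refine ⟨N, ?_⟩
        simp only [mem_ofPred_eq]
        rw [← h0, mul_zero, add_zero, sub_pos, div_lt_iff₀ (by positivity)]
        rw [div_lt_iff₀ hqx] at hN
        nlinarith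
      · obtain ⟨N, hN⟩ := exists_nat_gt ((p x - q x) / f x)
        refine ⟨N, ?_⟩
        simp only [mem_ofPred_eq]
        rw [div_lt_iff₀ h0] at hN
        have : p x / ((N : ℝ) + 1) ≤ p x := div_le_self (hp0 x) (by linarith [Nat.cast_nonneg (α := ℝ) N])
        linarith)
    (directed_of_isDirected_le (fun a b hab x hx => lt_of_lt_of_le hx (hmono x hab)))
  exact ⟨N, fun x hx => hN hx⟩

section
variable {E : Type*} [NormedAddCommGroup E] [InnerProductSpace ℝ E] [FiniteDimensional ℝ E] {k : ℕ}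
  [Fact (finrank ℝ E = k + 1)]

lemma cyl_self_apply (x₀ : sphere (0 : E) 1) (g : sphere (0 : E) 1 → E →L[ℝ] E →L[ℝ] ℝ) {x : E}
    (hx : x ≠ 0) (w : E) : cyl x₀ g x x w = dl x w := by
  rw [cyl_apply, dn_self x hx, dl_self x hx]
  simp

lemma fderiv_dl {x : E} (hx : x ≠ 0) (u w : E) :
    fderiv ℝ (fun z => dl z w) x u = (‖x‖ ^ 2)⁻¹ * ⟪u, w⟫ - 2 * ⟪x, u⟫ * ((‖x‖ ^ 2)⁻¹) ^ 2 * ⟪x, w⟫ := by
  have hn : ‖x‖ ^ 2 ≠ 0 := by simpa using hx
  have h1 : HasFDerivAt (fun z : E => (‖z‖ ^ 2)⁻¹) _ x :=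
    HasDerivAt.comp_hasFDerivAt x (hasDerivAt_inv hn)
      (HasStrictFDerivAt.hasFDerivAt (hasStrictFDerivAt_norm_sq x))
  have h2 : HasFDerivAt (fun z : E => ⟪z, w⟫) _ x := (hasFDerivAt_id x).inner ℝ (hasFDerivAt_const w x)
  have h3 := h1.mul h2
  have h4 : HasFDerivAt (fun z : E => dl z w) _ x :=
    h3.congr_of_eventuallyEq (Eventually.of_forall (fun z => dl_apply z w))
  rw [h4.fderiv]
  simp
  ring

/-- the connection of the cylinder in the radial direction. -/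
lemma Gam_cyl_self {g : sphere (0 : E) 1 → E →L[ℝ] E →L[ℝ] ℝ} (hg : IsMetricS k g)
    (x₀ : sphere (0 : E) 1) {x : E} (hx : x ≠ 0) : Gam (cyl x₀ g) x x x = -x := by
  have h := metAt_cyl hg x₀ hx
  have hGd : DifferentiableAt ℝ (cyl x₀ g) x := h.smooth.differentiableAt (by norm_num)
  have hn : ‖x‖ ^ 2 ≠ 0 := by simpa using hx
  -- first identity
  have h1 : ∀ u w, dG (cyl x₀ g) x u x w + cyl x₀ g x u w
      = (‖x‖ ^ 2)⁻¹ * ⟪u, w⟫ - 2 * ⟪x, u⟫ * ((‖x‖ ^ 2)⁻¹) ^ 2 * ⟪x, w⟫ := by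
    intro u w
    have e1 : (fun z => cyl x₀ g z z w) =ᶠ[𝓝 x] fun z => dl z w := by
      filter_upwards [isOpen_ne.mem_nhds hx] with z hz
      exact cyl_self_apply x₀ g hz w
    have e2 := (hGd.hasFDerivAt.clm_apply (hasFDerivAt_id x)).clm_apply (hasFDerivAt_const w x)
    have e3 : HasFDerivAt (fun z => cyl x₀ g z z w) _ x := e2
    rw [← fderiv_dl hx, ← e1.fderiv_eq, e3.fderiv, dG_eq hGd]
    simp
    ring
  have h2 : ∀ w, dG (cyl x₀ g) x w x x = - 2 * dl x w := by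
    intro w
    have := h1 w x
    rw [h.symm.self_of_nhds, cyl_self_apply x₀ g hx, real_inner_self_eq_norm_sq] at this
    have e4 : dl x w = (‖x‖ ^ 2)⁻¹ * ⟪x, w⟫ := dl_apply x w
    rw [real_inner_comm w x] at this
    have e5 : (‖x‖ ^ 2)⁻¹ * ⟪w, x⟫ - 2 * ⟪w, x⟫ * ((‖x‖ ^ 2)⁻¹) ^ 2 * ‖x‖ ^ 2 = -((‖x‖ ^ 2)⁻¹ * ⟪w, x⟫) := by
      field_simp
      ring
    rw [real_inner_comm w x] at e4
    rw [e5] at this
    linarith
  refine Gam_unique h (fun w => ?_)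
  rw [chr_apply h.smooth, h2, map_neg, _root_.neg_apply, cyl_self_apply x₀ g hx]
  have e6 := h1 x w
  rw [cyl_self_apply x₀ g hx, real_inner_self_eq_norm_sq] at e6
  have e4 : dl x w = (‖x‖ ^ 2)⁻¹ * ⟪x, w⟫ := dl_apply x w
  have e7 : (‖x‖ ^ 2)⁻¹ * ⟪x, w⟫ - 2 * ‖x‖ ^ 2 * ((‖x‖ ^ 2)⁻¹) ^ 2 * ⟪x, w⟫ = -((‖x‖ ^ 2)⁻¹ * ⟪x, w⟫) := by
    field_simp
    ring
  rw [e7] at e6
  linarith

end

end Pool.Agent.Helper20.PC
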