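import Pool.Agent.Helper20.PC.LemD2

/-!
# Lemma D
-/

open Filter Metric Module Set
open scoped Topology ContDiff RealInnerProductSpace Manifold

namespace Pool.Agent.Helper20.PC

section
variable {E : Type*} [NormedAddCommGroup E] [InnerProductSpace ℝ E] [FiniteDimensional ℝ E]
variable {G : E → E →L[ℝ] E →L[ℝ] ℝ} {β : E → E →L[ℝ] ℝ} {x : E}

lemma Bv_formula (h : MetAt G x) (hβ : ContDiffAt ℝ 1 β x) (u : E) :
    Bv G β x u u = fderiv ℝ β x u u
      - (dG G x u u (nv G β x) - 1 / 2 * dG G x (nv G β x) u u) := by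
  rw [Bv, beta_Gam h, chr_apply h.smooth, dα_eq (hβ.differentiableAt (by norm_num))]
  ring

lemma Bv_smul_smul (h : MetAt G x) (hβ : ContDiffAt ℝ 1 β x) (t : ℝ) (u : E) :
    Bv G β x (t • u) (t • u) = t ^ 2 * Bv G β x u u := by
  have hd := hβ.differentiableAt (by norm_num)
  rw [Bv, Bv, dα_eq hd, dα_eq hd, Gam_smul_left h, Gam_symm h, Gam_smul_left h]
  simp only [map_smul, _root_.smul_apply, smul_eq_mul]
  ring

lemma Bv_smul_right (h : MetAt G x) (hβ : ContDiffAt ℝ 1 β x) (t : ℝ) (v u : E) :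
    Bv G β x v (t • u) = t * Bv G β x v u := by
  rw [← G_covD_nv h hβ, ← G_covD_nv h hβ, map_smul, smul_eq_mul]

end

section
variable {E : Type*} [NormedAddCommGroup E] [InnerProductSpace ℝ E] [FiniteDimensional ℝ E] {k : ℕ}
  [Fact (finrank ℝ E = k + 1)]

lemma sphere_ne_zero (x : sphere (0 : E) 1) : (x : E) ≠ 0 := by
  intro h
  have h1 : ‖(x : E)‖ = 1 := mem_sphere_zero_iff_norm.1 x.2
  rw [h, norm_zero] at h1
  exact zero_ne_one h1

lemma continuous_sphere_of {W : Type*} [TopologicalSpace W] {f : E → W}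
    (hf : ∀ x, x ≠ 0 → ContinuousAt f x) : Continuous (fun x : sphere (0 : E) 1 => f x) :=
  continuous_iff_continuousAt.2 (fun x =>
    (hf x (sphere_ne_zero x)).comp continuous_subtype_val.continuousAt)

omit [Fact (finrank ℝ E = k + 1)] in
lemma dG_expand {G : E → E →L[ℝ] E →L[ℝ] ℝ} {x : E} (h : ContDiffAt ℝ 2 G x) (t u v : E) :
    dG G x t u v = ∑ i, ∑ j, ⟪stdOrthonormalBasis ℝ E i, u⟫ * ⟪stdOrthonormalBasis ℝ E j, v⟫
      * fderiv ℝ (fun z => G z (stdOrthonormalBasis ℝ E i) (stdOrthonormalBasis ℝ E j)) x t := by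
  have hGd : DifferentiableAt ℝ G x := h.differentiableAt (by norm_num)
  have e : ∀ i j, fderiv ℝ (fun z => G z (stdOrthonormalBasis ℝ E i) (stdOrthonormalBasis ℝ E j)) x t
      = fderiv ℝ G x t (stdOrthonormalBasis ℝ E i) (stdOrthonormalBasis ℝ E j) := fun i j =>
    dG_eq hGd t _ _
  simp_rw [e]
  rw [dG_eq hGd]
  conv_lhs => rw [← (stdOrthonormalBasis ℝ E).sum_repr' u, ← (stdOrthonormalBasis ℝ E).sum_repr' v]
  simp only [map_sum, map_smul, _root_.sum_apply, _root_.smul_apply, smul_eq_mul, Finset.mul_sum]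
  rw [Finset.sum_comm]
  refine Finset.sum_congr rfl (fun i _ => Finset.sum_congr rfl (fun j _ => ?_))
  ring

omit [Fact (finrank ℝ E = k + 1)] in
lemma continuous_dG {P : Type*} [TopologicalSpace P] {G : E → E →L[ℝ] E →L[ℝ] ℝ}
    (h : ∀ x, x ≠ 0 → ContDiffAt ℝ 2 G x) {y : P → sphere (0 : E) 1} {t u v : P → E}
    (hy : Continuous y) (ht : Continuous t) (hu : Continuous u) (hv : Continuous v) :
    Continuous (fun p => dG G (y p) (t p) (u p) (v p)) := by
  have e : (fun p => dG G (y p) (t p) (u p) (v p)) = fun p => ∑ i, ∑ j,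
      ⟪stdOrthonormalBasis ℝ E i, u p⟫ * ⟪stdOrthonormalBasis ℝ E j, v p⟫
      * fderiv ℝ (fun z => G z (stdOrthonormalBasis ℝ E i) (stdOrthonormalBasis ℝ E j)) (y p) (t p) := by
    funext p
    exact dG_expand (h _ (sphere_ne_zero (y p))) _ _ _
  rw [e]
  refine continuous_finsetSum _ (fun i _ => continuous_finsetSum _ (fun j _ => ?_))
  have c1 : Continuous (fun p => fderiv ℝ (fun z => G z (stdOrthonormalBasis ℝ E i)
      (stdOrthonormalBasis ℝ E j)) (y p)) :=
    (continuous_sphere_of (fun x hx => ((smooth2 (h x hx) _ _).continuousAt_fderiv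
      (by norm_num)))).comp hy
  exact ((continuous_const.inner hu).mul (continuous_const.inner hv)).mul (c1.clm_apply ht)

lemma continuous_Bv {g : sphere (0 : E) 1 → E →L[ℝ] E →L[ℝ] ℝ} (hg : IsMetricS k g)
    (x₀ : sphere (0 : E) 1) {β : E → E →L[ℝ] ℝ} (hβ : ∀ x, x ≠ 0 → ContDiffAt ℝ 1 β x) :
    Continuous (fun p : sphere (0 : E) 1 × E => Bv (cyl x₀ g) β p.1 p.2 p.2) := by
  have e : (fun p : sphere (0 : E) 1 × E => Bv (cyl x₀ g) β p.1 p.2 p.2)
      = fun p : sphere (0 : E) 1 × E => fderiv ℝ β p.1 p.2 p.2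
      - (dG (cyl x₀ g) p.1 p.2 p.2 (nv (cyl x₀ g) β p.1)
        - 1 / 2 * dG (cyl x₀ g) p.1 (nv (cyl x₀ g) β p.1) p.2 p.2) := by
    funext p
    exact Bv_formula (metAt_cyl hg x₀ (sphere_ne_zero p.1)) (hβ _ (sphere_ne_zero p.1)) _
  rw [e]
  have c1 : Continuous (fun p : sphere (0 : E) 1 × E => fderiv ℝ β p.1) :=
    (continuous_sphere_of (fun x hx => (hβ x hx).continuousAt_fderiv (by norm_num))).comp continuous_fst
  have c3 : Continuous (fun p : sphere (0 : E) 1 × E => nv (cyl x₀ g) β p.1) :=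
    (continuous_sphere_of (fun x hx => (contDiffAt_nv (metAt_cyl hg x₀ hx)
      (hβ x hx)).continuousAt)).comp continuous_fst
  have hs : ∀ x, x ≠ 0 → ContDiffAt ℝ 2 (cyl x₀ g) x := fun x hx => (metAt_cyl hg x₀ hx).smooth
  exact ((c1.clm_apply continuous_snd).clm_apply continuous_snd).sub
    ((continuous_dG hs continuous_fst continuous_snd continuous_snd c3).sub
      (continuous_const.mul (continuous_dG hs continuous_fst c3 continuous_snd continuous_snd)))

/-- uniform estimate. -/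
lemma Bv_bound {g : sphere (0 : E) 1 → E →L[ℝ] E →L[ℝ] ℝ} (hg : IsMetricS k g)
    (x₀ : sphere (0 : E) 1) {β : E → E →L[ℝ] ℝ} (hβ : ∀ x, x ≠ 0 → ContDiffAt ℝ 1 β x)
    (h : ∀ x : sphere (0 : E) 1, ∀ u, ⟪(x : E), u⟫ = 0 → u ≠ 0 → β x u = 0 →
      0 < Bv (cyl x₀ g) β x u u) :
    ∃ N : ℕ, ∀ x : sphere (0 : E) 1, ∀ u, ⟪(x : E), u⟫ = 0 →
      cyl x₀ g x u u / (N + 1) ≤ Bv (cyl x₀ g) β x u u + N * (β x u) ^ 2 := by
  have hcomp : CompactSpace (sphere (0 : E) 1) := isCompact_iff_compactSpace.1 (isCompact_sphere _ _)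
  have hm : ∀ x : sphere (0 : E) 1, MetAt (cyl x₀ g) (x : E) := fun x => metAt_cyl hg x₀ (sphere_ne_zero x)
  have hmap : Continuous (fun p : sphere (0 : E) 1 × sphere (0 : E) 1 => (p.1, (p.2 : E))) :=
    continuous_fst.prodMk (continuous_subtype_val.comp continuous_snd)
  have cq : Continuous (fun p : sphere (0 : E) 1 × sphere (0 : E) 1 => Bv (cyl x₀ g) β p.1 p.2 p.2) :=
    (continuous_Bv hg x₀ hβ).comp hmap
  have cβ : Continuous (fun x : sphere (0 : E) 1 => β x) :=
    continuous_sphere_of (fun x hx => (hβ x hx).continuousAt)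
  have cG : Continuous (fun x : sphere (0 : E) 1 => cyl x₀ g x) :=
    continuous_sphere_of (fun x hx => (metAt_cyl hg x₀ hx).smooth.continuousAt)
  have c2 : Continuous (fun p : sphere (0 : E) 1 × sphere (0 : E) 1 => (p.2 : E)) :=
    continuous_subtype_val.comp continuous_snd
  have cf : Continuous (fun p : sphere (0 : E) 1 × sphere (0 : E) 1 => (β p.1 p.2) ^ 2) :=
    ((cβ.comp continuous_fst).clm_apply c2).pow 2
  have cp : Continuous (fun p : sphere (0 : E) 1 × sphere (0 : E) 1 => cyl x₀ g p.1 p.2 p.2) :=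
    ((cG.comp continuous_fst).clm_apply c2).clm_apply c2
  have hs : IsClosed {p : sphere (0 : E) 1 × sphere (0 : E) 1 | ⟪(p.1 : E), (p.2 : E)⟫ = 0} :=
    isClosed_eq ((continuous_subtype_val.comp continuous_fst).inner c2) continuous_const
  obtain ⟨N, hN⟩ := exists_large hs.isCompact cq cf cp (fun p => sq_nonneg _)
    (fun p => ((hm p.1).pos.self_of_nhds _ (sphere_ne_zero p.2)).le)
    (fun p hp hp0 => h p.1 p.2 hp (sphere_ne_zero p.2) (by simpa using hp0))
  refine ⟨N, fun x u hu => ?_⟩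
  by_cases hu0 : u = 0
  · subst hu0
    have := Bv_smul_smul (hm x) (hβ _ (sphere_ne_zero x)) 0 (0 : E)
    simp only [zero_smul] at this
    rw [this]
    simp
  · have hn : 0 < ‖u‖ := norm_pos_iff.2 hu0
    have hv := hN (x, ⟨‖u‖⁻¹ • u, mem_sphere_zero_iff_norm.2 (norm_normalize hu0)⟩)
      (by simp only [mem_ofPred_eq, inner_smul_right, hu, mul_zero])
    simp only at hv
    rw [Bv_smul_smul (hm x) (hβ _ (sphere_ne_zero x)), map_smul, map_smul, map_smul, _root_.smul_apply, smul_eq_mul,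
      smul_eq_mul, smul_eq_mul] at hv
    have h1 : 0 < ‖u‖ ^ 2 * (‖u‖⁻¹ ^ 2 * Bv (cyl x₀ g) β x u u + N * (‖u‖⁻¹ * β x u) ^ 2
      - ‖u‖⁻¹ * (‖u‖⁻¹ * cyl x₀ g x u u) / (N + 1)) := mul_pos (by positivity) hv
    have h2 : ‖u‖ ^ 2 * (‖u‖⁻¹ ^ 2 * Bv (cyl x₀ g) β x u u + N * (‖u‖⁻¹ * β x u) ^ 2
      - ‖u‖⁻¹ * (‖u‖⁻¹ * cyl x₀ g x u u) / (N + 1))
      = Bv (cyl x₀ g) β x u u + N * (β x u) ^ 2 - cyl x₀ g x u u / (N + 1) := by
      field_simp
    rw [h2] at h1
    linarith

/-- **Lemma D.** -/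
theorem lemD (hk : 2 ≤ k) {g : sphere (0 : E) 1 → E →L[ℝ] E →L[ℝ] ℝ} (hg : IsMetricS k g)
    (x₀ : sphere (0 : E) 1) {β : E → E →L[ℝ] ℝ} (hβ : ∀ x, x ≠ 0 → ContDiffAt ℝ 1 β x)
    (hβx : ∀ x, x ≠ 0 → β x x = 0)
    (h : ∀ x : sphere (0 : E) 1, ∀ u, ⟪(x : E), u⟫ = 0 → u ≠ 0 → β x u = 0 →
      0 < Bv (cyl x₀ g) β x u u) : False := by
  classical
  have hfin : finrank ℝ E = k + 1 := Fact.out
  obtain ⟨N, hN⟩ := Bv_bound hg x₀ hβ h
  set ε : ℝ := 1 / ((N : ℝ) + 1) ^ 2 with hε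
  have hε0 : 0 < ε := by positivity
  have hεN : 0 < 1 / ((N : ℝ) + 1) - N * ε := by
    have : 1 / ((N : ℝ) + 1) - N * ε = ε := by
      rw [hε]
      field_simp
      ring
    rw [this]
    exact hε0
  have hm : ∀ x : E, x ≠ 0 → MetAt (cyl x₀ g) x := fun x hx => metAt_cyl hg x₀ hx
  refine no_pos_div (E := E) (by omega) (Y := fun z => rho (cyl x₀ g) z • Wf (cyl x₀ g) β ε z)
    (fun x hx => (contDiffAt_rho (hm x hx)).smul (contDiffAt_Wf (hm x hx) (hβ x hx) hε0))
    (fun x hx => ?_) (fun x hx => ?_)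
  · have h1 : cyl x₀ g x (nv (cyl x₀ g) β x) x = β x x := G_nv (hm x hx) x
    rw [(hm x hx).symm.self_of_nhds, cyl_self_apply x₀ g hx, hβx x hx, dl_apply] at h1
    have h2 : ⟪x, nv (cyl x₀ g) β x⟫ = 0 := by
      rcases mul_eq_zero.1 h1 with h3 | h3
      · exact absurd h3 (inv_ne_zero (by simpa using hx))
      · exact h3
    rw [inner_smul_right, Wf, inner_smul_right, h2, mul_zero, mul_zero]
  · have hx0 : x ≠ 0 := by rintro rfl; rw [norm_zero] at hx; exact zero_ne_one hx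
    have hmx := hm x hx0
    have hβc := hβ x hx0
    obtain ⟨T, hT⟩ := exists_covD hmx (Wf (cyl x₀ g) β ε)
    rw [trace_fderiv_rho_smul hmx ((contDiffAt_Wf hmx hβc hε0).differentiableAt (by norm_num)) T hT]
    refine mul_pos (rho_pos hmx) ?_
    -- notation
    set Z := nv (cyl x₀ g) β x with hZ
    set w := wv (cyl x₀ g) β x with hw
    have hw0 : 0 ≤ w := wv_nonneg hmx
    have hwZ : w = cyl x₀ g x Z Z := by rw [hZ, G_nv hmx]; rfl
    have hperp : ∀ u, cyl x₀ g x x u = 0 → ⟪x, u⟫ = 0 := by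
      intro u hu
      rw [cyl_self_apply x₀ g hx0, dl_apply, hx] at hu
      simpa using hu
    have hxx : cyl x₀ g x x x = 1 := by rw [cyl_self_apply x₀ g hx0, dl_self x hx0]
    have hxZ : cyl x₀ g x x Z = 0 := by
      rw [hmx.symm.self_of_nhds, G_nv hmx, hβx x hx0]
    obtain ⟨n, hnn, hxn, hZn⟩ : ∃ n, cyl x₀ g x n n = 1 ∧ cyl x₀ g x x n = 0 ∧ Z = Real.sqrt w • n := by
      by_cases hZ0 : Z = 0
      · obtain ⟨u, hu1, hu2, -⟩ := exists_unit_perp (by omega : 3 ≤ finrank ℝ E) x (0 : E →L[ℝ] ℝ)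
        have hu0 : u ≠ 0 := by rintro rfl; rw [norm_zero] at hu1; exact zero_ne_one hu1
        have hpos := hmx.pos.self_of_nhds u hu0
        have hs := Real.sqrt_pos.2 hpos
        have hsq := Real.sq_sqrt hpos.le
        refine ⟨(Real.sqrt (cyl x₀ g x u u))⁻¹ • u, ?_, ?_, ?_⟩
        · rw [map_smul, map_smul, _root_.smul_apply, smul_eq_mul, smul_eq_mul]
          nth_rewrite 3 [← hsq]
          field_simp
        · rw [map_smul, cyl_self_apply x₀ g hx0, dl_apply, hu2]
          simp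
        · have : w = 0 := by rw [hwZ, hZ0]; simp
          rw [this, hZ0]
          simp
      · have hwpos : 0 < w := by rw [hwZ]; exact hmx.pos.self_of_nhds Z hZ0
        have hs := Real.sqrt_pos.2 hwpos
        have hsq := Real.sq_sqrt hwpos.le
        refine ⟨(Real.sqrt w)⁻¹ • Z, ?_, ?_, ?_⟩
        · rw [map_smul, map_smul, _root_.smul_apply, smul_eq_mul, smul_eq_mul, ← hwZ]
          nth_rewrite 3 [← hsq]
          field_simp
        · rw [map_smul, hxZ, smul_zero]
        · rw [smul_smul, mul_inv_cancel₀ hs.ne', one_smul]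
    have hβZ : ∀ u, β x u = Real.sqrt w * cyl x₀ g x n u := by
      intro u
      rw [← G_nv hmx, ← hZ, hZn, map_smul, _root_.smul_apply, smul_eq_mul]
    obtain ⟨s, hxs, hns, hs1, hs2, hscard, htr⟩ := exists_adapted_basis
      (LinearMap.mk₂ ℝ (fun u v => cyl x₀ g x u v) (fun _ _ _ => by simp) (fun _ _ _ => by simp)
        (fun _ _ _ => by simp) (fun _ _ _ => by simp))
      (fun u v => by simpa using hmx.symm.self_of_nhds u v)
      (fun u hu => by simpa using hmx.pos.self_of_nhds u hu) (x := x) (n := n)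
      (by simpa using hxx) (by simpa using hnn) (by simpa using hxn)
    simp only [LinearMap.mk₂_apply] at hs1 hs2 htr
    have hxnne : n ≠ x := by
      rintro rfl
      rw [hnn] at hxn
      exact one_ne_zero hxn
    set φ := (Real.sqrt (ε + w))⁻¹ with hφ
    have hεw : 0 < ε + w := by linarith
    have hφ0 : 0 < φ := inv_pos.2 (Real.sqrt_pos.2 hεw)
    have hterm : ∀ u, cyl x₀ g x (T u) u = φ * (Bv (cyl x₀ g) β x u u
        - Bv (cyl x₀ g) β x u Z * β x u / (ε + w)) := by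
      intro u
      rw [hT, G_covD_Wf hmx hβc hε0]
    rw [htr T]
    simp_rw [hterm]
    rw [← Finset.mul_sum]
    refine mul_pos hφ0 ?_
    set F : E → ℝ := fun u => Bv (cyl x₀ g) β x u u - Bv (cyl x₀ g) β x u Z * β x u / (ε + w) with hF
    have hFx : F x = 0 := by
      have e1 : Bv (cyl x₀ g) β x x x = 0 := by
        have e2 : (fun z => β z z) =ᶠ[𝓝 x] fun _ => 0 := by
          filter_upwards [isOpen_ne.mem_nhds hx0] with z hz
          exact hβx z hz
        have e3 := (hβc.differentiableAt (by norm_num)).hasFDerivAt.clm_apply (hasFDerivAt_id x)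
        have e4 : HasFDerivAt (fun z => β z z) _ x := e3
        have e5 := DFunLike.congr_fun (e4.fderiv.symm.trans e2.fderiv_eq) x
        simp only [_root_.add_apply, ContinuousLinearMap.comp_apply, ContinuousLinearMap.flip_apply,
          id_eq, ContinuousLinearMap.id_apply, fderiv_const_apply, _root_.zero_apply, hβx x hx0,
          zero_add] at e5
        rw [Bv, Gam_cyl_self hg x₀ hx0, map_neg, hβx x hx0, dα_eq (hβc.differentiableAt (by norm_num)), e5]
        simp
      simp only [hF]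
      rw [e1, hβx x hx0]
      simp
    have hFn : -(N * ε) ≤ F n := by
      have e1 : β x n = Real.sqrt w := by rw [hβZ, hnn, mul_one]
      have e2 : Bv (cyl x₀ g) β x n Z = Real.sqrt w * Bv (cyl x₀ g) β x n n := by
        rw [hZn, Bv_smul_right hmx hβc]
      have e3 := hN ⟨x, mem_sphere_zero_iff_norm.2 hx⟩ n (hperp n hxn)
      simp only at e3
      rw [e1, Real.sq_sqrt hw0, hnn] at e3
      have e4 : F n = Bv (cyl x₀ g) β x n n * (ε / (ε + w)) := by
        simp only [hF]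
        rw [e1, e2]
        have : Real.sqrt w * Bv (cyl x₀ g) β x n n * Real.sqrt w = w * Bv (cyl x₀ g) β x n n := by
          nth_rewrite 3 [← Real.sq_sqrt hw0]
          ring
        rw [this]
        field_simp
        ring
      rw [e4]
      have e5 : 0 < 1 / ((N : ℝ) + 1) := by positivity
      have e6 : -(N * w) ≤ Bv (cyl x₀ g) β x n n := by linarith
      have e7 : 0 < ε / (ε + w) := by positivity
      have e8 : -(N * w) * (ε / (ε + w)) ≤ Bv (cyl x₀ g) β x n n * (ε / (ε + w)) :=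
        mul_le_mul_of_nonneg_right e6 e7.le
      have e9 : w * (ε / (ε + w)) ≤ ε := by
        rw [mul_div_assoc', div_le_iff₀ hεw]
        nlinarith
      have e10 : (N : ℝ) * (w * (ε / (ε + w))) ≤ N * ε := mul_le_mul_of_nonneg_left e9 (Nat.cast_nonneg N)
      nlinarith
    have hFu : ∀ u ∈ (s.erase x).erase n, 1 / ((N : ℝ) + 1) ≤ F u := by
      intro u hu
      rw [Finset.mem_erase, Finset.mem_erase] at hu
      obtain ⟨h1, h2, h3⟩ := hu
      have e1 : cyl x₀ g x n u = 0 := hs2 n hns u h3 h1.symm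
      have e2 : cyl x₀ g x x u = 0 := hs2 x hxs u h3 h2.symm
      have e3 : β x u = 0 := by rw [hβZ, e1, mul_zero]
      have e4 := hN ⟨x, mem_sphere_zero_iff_norm.2 hx⟩ u (hperp u e2)
      simp only at e4
      rw [e3, hs1 u h3] at e4
      simp only [hF]
      rw [e3]
      simp only [mul_zero, zero_div, sub_zero]
      have e5 : (N : ℝ) * 0 ^ 2 = 0 := by ring
      linarith
    have hcard : 1 ≤ ((s.erase x).erase n).card := by
      have h1 : n ∈ s.erase x := Finset.mem_erase.2 ⟨hxnne, hns⟩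
      rw [Finset.card_erase_of_mem h1, Finset.card_erase_of_mem hxs, hscard, hfin]
      omega
    have hsum : ∑ u ∈ s, F u = F x + (F n + ∑ u ∈ (s.erase x).erase n, F u) := by
      rw [Finset.add_sum_erase _ _ (Finset.mem_erase.2 ⟨hxnne, hns⟩), Finset.add_sum_erase _ _ hxs]
    have hlow : 1 / ((N : ℝ) + 1) ≤ ∑ u ∈ (s.erase x).erase n, F u := by
      have h1 := Finset.card_nsmul_le_sum _ _ _ hFu
      rw [nsmul_eq_mul] at h1
      have h2 : (1 : ℝ) ≤ (((s.erase x).erase n).card : ℝ) := by exact_mod_cast hcard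
      have h3 : 0 < 1 / ((N : ℝ) + 1) := by positivity
      nlinarith
    rw [hsum, hFx]
    linarith

end

end Pool.Agent.Helper20.PC
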