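import Pool.Agent.Helper20.PC.RankOne

/-!
# Curvature of `A ⊕ B + 2 d₁ d₂ F`
-/

open Filter
open scoped Topology ContDiff

namespace Pool.Agent.Helper20.PC

section
variable {F : Type*} [NormedAddCommGroup F] [NormedSpace ℝ F]

/-- directional derivative in a constant direction. -/
noncomputable def pd (s : F) (f : F → ℝ) (z : F) : ℝ := fderiv ℝ f z s

lemma pd_contDiffAt {f : F → ℝ} {z : F} {n m : WithTop ℕ∞} (hf : ContDiffAt ℝ n f z) (h : m + 1 ≤ n)
    (s : F) : ContDiffAt ℝ m (pd s f) z :=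
  (hf.fderiv_right h).clm_apply contDiffAt_const

lemma pd_congr {f g : F → ℝ} {z : F} (h : f =ᶠ[𝓝 z] g) (s : F) : pd s f =ᶠ[𝓝 z] pd s g :=
  h.eventuallyEq_nhds.mono (fun z' hz' => by rw [pd, pd, hz'.fderiv_eq])

lemma pd_comm {f : F → ℝ} {z : F} (hf : ContDiffAt ℝ 2 f z) (s t : F) :
    pd s (pd t f) =ᶠ[𝓝 z] pd t (pd s f) := by
  filter_upwards [hf.eventually (by norm_num)] with z' hz'
  have h1 : ∀ s t : F, pd s (pd t f) z' = fderiv ℝ (fderiv ℝ f) z' s t := by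
    intro s t
    rw [pd]
    have : pd t f = fun z' => fderiv ℝ f z' t := rfl
    rw [this, (hasFDerivAt_fderiv_apply hz' t).fderiv]
    simp
  rw [h1, h1]
  exact (hz'.isSymmSndFDerivAt (by simp)) s t

lemma pd_add {f g : F → ℝ} {z : F} (hf : DifferentiableAt ℝ f z) (hg : DifferentiableAt ℝ g z) (s : F) :
    pd s (fun z' => f z' + g z') z = pd s f z + pd s g z := by
  have h1 : HasFDerivAt (fun z' => f z' + g z') (fderiv ℝ f z + fderiv ℝ g z) z :=
    hf.hasFDerivAt.add hg.hasFDerivAt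
  rw [pd, h1.fderiv]
  rfl

lemma pd_sub {f g : F → ℝ} {z : F} (hf : DifferentiableAt ℝ f z) (hg : DifferentiableAt ℝ g z) (s : F) :
    pd s (fun z' => f z' - g z') z = pd s f z - pd s g z := by
  have h1 : HasFDerivAt (fun z' => f z' - g z') (fderiv ℝ f z - fderiv ℝ g z) z :=
    hf.hasFDerivAt.sub hg.hasFDerivAt
  rw [pd, h1.fderiv]
  rfl

lemma pd_vec_add (f : F → ℝ) (z s t : F) : pd (s + t) f z = pd s f z + pd t f z := by
  simp [pd]

end

section
variable {E₁ : Type*} [NormedAddCommGroup E₁] [NormedSpace ℝ E₁]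
variable {E₂ : Type*} [NormedAddCommGroup E₂] [NormedSpace ℝ E₂]

lemma pd_fst {A : E₁ → ℝ} {z : E₁ × E₂} (h : DifferentiableAt ℝ A z.1) (t : E₁ × E₂) :
    pd t (fun z' : E₁ × E₂ => A z'.1) z = fderiv ℝ A z.1 t.1 := by
  have h1 : HasFDerivAt (fun z' : E₁ × E₂ => A z'.1)
      ((fderiv ℝ A z.1) ∘L (ContinuousLinearMap.fst ℝ E₁ E₂)) z :=
    HasFDerivAt.comp (g := A) z h.hasFDerivAt hasFDerivAt_fst
  rw [pd, h1.fderiv]
  rfl

lemma pd_snd {B : E₂ → ℝ} {z : E₁ × E₂} (h : DifferentiableAt ℝ B z.2) (t : E₁ × E₂) :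
    pd t (fun z' : E₁ × E₂ => B z'.2) z = fderiv ℝ B z.2 t.2 := by
  have h1 : HasFDerivAt (fun z' : E₁ × E₂ => B z'.2)
      ((fderiv ℝ B z.2) ∘L (ContinuousLinearMap.snd ℝ E₁ E₂)) z :=
    HasFDerivAt.comp (g := B) z h.hasFDerivAt hasFDerivAt_snd
  rw [pd, h1.fderiv]
  rfl

variable {A : E₁ → E₁ →L[ℝ] E₁ →L[ℝ] ℝ} {B : E₂ → E₂ →L[ℝ] E₂ →L[ℝ] ℝ} {f : E₁ × E₂ → ℝ}
  {G : E₁ × E₂ → (E₁ × E₂) →L[ℝ] (E₁ × E₂) →L[ℝ] ℝ} {z : E₁ × E₂}

/-- `G = A ⊕ B + 2 d₁ d₂ f` near `z`. -/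
structure IsMix (A : E₁ → E₁ →L[ℝ] E₁ →L[ℝ] ℝ) (B : E₂ → E₂ →L[ℝ] E₂ →L[ℝ] ℝ) (f : E₁ × E₂ → ℝ)
    (G : E₁ × E₂ → (E₁ × E₂) →L[ℝ] (E₁ × E₂) →L[ℝ] ℝ) (z : E₁ × E₂) : Prop where
  eq : ∀ᶠ z' in 𝓝 z, ∀ u v : E₁ × E₂, G z' u v = A z'.1 u.1 v.1 + B z'.2 u.2 v.2
    + (pd (u.1, 0) (pd (0, v.2) f) z' + pd (v.1, 0) (pd (0, u.2) f) z')
  smoothA : ContDiffAt ℝ 2 A z.1
  smoothB : ContDiffAt ℝ 2 B z.2
  smoothf : ContDiffAt ℝ 4 f z

lemma IsMix.eventually (h : IsMix A B f G z) : ∀ᶠ z' in 𝓝 z, IsMix A B f G z' := by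
  have c1 := (continuous_fst (X := E₁) (Y := E₂)).continuousAt (x := z)
  have c2 := (continuous_snd (X := E₁) (Y := E₂)).continuousAt (x := z)
  filter_upwards [h.eq.eventually_nhds, c1.eventually (h.smoothA.eventually (by norm_num)),
    c2.eventually (h.smoothB.eventually (by norm_num)), h.smoothf.eventually (by norm_num)]
    with z' a b c d
  exact ⟨a, b, c, d⟩

lemma IsMix.dG (h : IsMix A B f G z) (t u v : E₁ × E₂) :
    dG G z t u v = PC.dG A z.1 t.1 u.1 v.1 + PC.dG B z.2 t.2 u.2 v.2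
      + (pd t (pd (u.1, 0) (pd (0, v.2) f)) z + pd t (pd (v.1, 0) (pd (0, u.2) f)) z) := by
  have e : (fun z' => G z' u v) =ᶠ[𝓝 z] fun z' => A z'.1 u.1 v.1 + B z'.2 u.2 v.2
    + (pd (u.1, 0) (pd (0, v.2) f) z' + pd (v.1, 0) (pd (0, u.2) f) z') := h.eq.mono (fun z' a => a u v)
  have hA : DifferentiableAt ℝ (fun x => A x u.1 v.1) z.1 :=
    (smooth2 h.smoothA _ _).differentiableAt (by norm_num)
  have hB : DifferentiableAt ℝ (fun y => B y u.2 v.2) z.2 :=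
    (smooth2 h.smoothB _ _).differentiableAt (by norm_num)
  have hA' : DifferentiableAt ℝ (fun z' : E₁ × E₂ => A z'.1 u.1 v.1) z :=
    DifferentiableAt.comp (g := fun x => A x u.1 v.1) z hA differentiableAt_fst
  have hB' : DifferentiableAt ℝ (fun z' : E₁ × E₂ => B z'.2 u.2 v.2) z :=
    DifferentiableAt.comp (g := fun x => B x u.2 v.2) z hB differentiableAt_snd
  have hc : ∀ s t : E₁ × E₂, DifferentiableAt ℝ (pd s (pd t f)) z := fun s t =>
    (pd_contDiffAt (m := 2) (pd_contDiffAt (m := 3) h.smoothf (by norm_num) t) (by norm_num) s).differentiableAt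
      (by norm_num)
  have e1 : PC.dG G z t u v = pd t (fun z' => A z'.1 u.1 v.1 + B z'.2 u.2 v.2
    + (pd (u.1, 0) (pd (0, v.2) f) z' + pd (v.1, 0) (pd (0, u.2) f) z')) z := by
    rw [PC.dG, pd, e.fderiv_eq]
  have hAB : DifferentiableAt ℝ (fun z' : E₁ × E₂ => A z'.1 u.1 v.1 + B z'.2 u.2 v.2) z := hA'.add hB'
  have hcc : DifferentiableAt ℝ (fun z' => pd (u.1, 0) (pd (0, v.2) f) z'
    + pd (v.1, 0) (pd (0, u.2) f) z') z := (hc _ _).add (hc _ _)
  rw [e1, pd_add hAB hcc, pd_add hA' hB', pd_add (hc _ _) (hc _ _),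
    pd_fst hA, pd_snd hB, PC.dG, PC.dG]

variable [FiniteDimensional ℝ E₁] [FiniteDimensional ℝ E₂]

/-- **Curvature of `A ⊕ B + 2 d₁ d₂ f`** where the gradient term vanishes. -/
theorem IsMix.num (h : IsMix A B f G z) (hG : MetAt G z) (hB : MetAt B z.2)
    (X : E₁) (V : E₂)
    (hcrit : ∀ w : E₁, pd (w, 0) (fun z' => pd (0, V) (pd (0, V) f) z'
      - pd (0, Gam B z.2 V V) f z') z = 0) :
    num G z (X, 0) (0, V) = pd (X, 0) (pd (X, 0) (fun z' => pd (0, V) (pd (0, V) f) z'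
      - pd (0, Gam B z.2 V V) f z')) z := by
  have hf := h.smoothf
  have s1 : ∀ s, ContDiffAt ℝ 3 (pd s f) z := fun s => pd_contDiffAt hf (by norm_num) s
  have s2 : ∀ s t, ContDiffAt ℝ 2 (pd s (pd t f)) z := fun s t => pd_contDiffAt (s1 t) (by norm_num) s
  have s3 : ∀ r s t, ContDiffAt ℝ 1 (pd r (pd s (pd t f))) z := fun r s t =>
    pd_contDiffAt (s2 s t) (by norm_num) r
  have c1 : ∀ s t, pd s (pd t f) =ᶠ[𝓝 z] pd t (pd s f) := fun s t =>
    pd_comm (hf.of_le (by norm_num)) s t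
  have c2 : ∀ r s t, pd r (pd s (pd t f)) =ᶠ[𝓝 z] pd s (pd r (pd t f)) := fun r s t =>
    pd_comm ((s1 t).of_le (by norm_num)) r s
  -- chr(u,v) = 0
  have e5 : chr G z (X, 0) (0, V) = 0 := by
    refine ContinuousLinearMap.ext (fun w => ?_)
    rw [chr_apply hG.smooth, h.dG, h.dG, h.dG]
    have k1 : pd (X, 0) (pd (w.1, 0) (pd (0, V) f)) z = pd (w.1, 0) (pd (X, 0) (pd (0, V) f)) z :=
      (c2 _ _ _).self_of_nhds
    have k2 : pd (0, V) (pd (X, 0) (pd (0, w.2) f)) z = pd (0, w.2) (pd (X, 0) (pd (0, V) f)) z := by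
      rw [(pd_congr (c1 (X, 0) (0, w.2)) (0, V)).self_of_nhds, (c2 _ _ _).self_of_nhds,
        (pd_congr (c1 (0, V) (X, 0)) (0, w.2)).self_of_nhds]
    have k3 : pd w (pd (X, 0) (pd (0, V) f)) z = pd (w.1, 0) (pd (X, 0) (pd (0, V) f)) z
        + pd (0, w.2) (pd (X, 0) (pd (0, V) f)) z := by
      rw [← pd_vec_add]; simp
    have k4 : ∀ (t : E₁ × E₂) (g : E₁ × E₂ → ℝ), pd t (pd (0 : E₁ × E₂) g) z = 0 := by
      intro t g
      have : pd (0 : E₁ × E₂) g = fun _ => 0 := by funext z'; simp [pd]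
      rw [this]; simp [pd]
    have k5 : ∀ (t s : E₁ × E₂), pd t (pd s (pd (0 : E₁ × E₂) f)) z = 0 := by
      intro t s
      have h0 : pd (0 : E₁ × E₂) f = fun _ => 0 := by funext z'; simp [pd]
      have h1 : pd s (fun _ : E₁ × E₂ => (0 : ℝ)) = fun _ => 0 := by funext z'; simp [pd]
      rw [h0, h1]; simp [pd]
    have z0 : ((0 : E₁), (0 : E₂)) = 0 := rfl
    have d1 : ∀ (x s u : E₁), PC.dG A x s u 0 = 0 := fun x s u => by simp [PC.dG]
    have d2 : ∀ (x s u : E₁), PC.dG A x s 0 u = 0 := fun x s u => by simp [PC.dG]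
    have d3 : ∀ (x u v : E₁), PC.dG A x 0 u v = 0 := fun x s u => by simp [PC.dG]
    have d5 : ∀ (x s u : E₂), PC.dG B x s 0 u = 0 := fun x s u => by simp [PC.dG]
    have d6 : ∀ (x u v : E₂), PC.dG B x 0 u v = 0 := fun x s u => by simp [PC.dG]
    simp only [z0, k4, k5, d1, d2, d3, d5, d6, k1, k2, k3, _root_.zero_apply]
    ring
  -- the connection of the second factor
  have e6 : Gam G z (0, V) (0, V) = (0, Gam B z.2 V V) := by
    refine Gam_unique hG (fun w => ?_)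
    have hc := hcrit w.1
    rw [pd_sub ((s2 _ _).differentiableAt (by norm_num)) ((s1 _).differentiableAt (by norm_num))] at hc
    rw [chr_apply hG.smooth, h.dG, h.dG, h.eq.self_of_nhds]
    have k1 : pd (0, V) (pd (w.1, 0) (pd (0, V) f)) z = pd (w.1, 0) (pd (0, V) (pd (0, V) f)) z :=
      (c2 _ _ _).self_of_nhds
    have k4 : ∀ (t : E₁ × E₂) (g : E₁ × E₂ → ℝ), pd t (pd (0 : E₁ × E₂) g) z = 0 := by
      intro t g
      have : pd (0 : E₁ × E₂) g = fun _ => 0 := by funext z'; simp [pd]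
      rw [this]; simp [pd]
    have k6 : ∀ (g : E₁ × E₂ → ℝ), pd (0 : E₁ × E₂) g z = 0 := by
      intro g; simp [pd]
    have z0 : ((0 : E₁), (0 : E₂)) = 0 := rfl
    have d2 : ∀ (x s u : E₁), PC.dG A x s 0 u = 0 := fun x s u => by simp [PC.dG]
    have hBG : B z.2 (Gam B z.2 V V) w.2 = chr B z.2 V V w.2 := G_Gam hB _ _ _
    rw [chr_apply hB.smooth] at hBG
    simp only [z0, k4, k6, d2, map_zero, _root_.zero_apply, k1, hBG]
    linarith
  -- chr(u,u) on the second factor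
  have e7 : chr G z (X, 0) (X, 0) (0, Gam B z.2 V V)
      = pd (X, 0) (pd (X, 0) (pd (0, Gam B z.2 V V) f)) z := by
    rw [chr_apply hG.smooth, h.dG, h.dG]
    have k4 : ∀ (t : E₁ × E₂) (g : E₁ × E₂ → ℝ), pd t (pd (0 : E₁ × E₂) g) z = 0 := by
      intro t g
      have : pd (0 : E₁ × E₂) g = fun _ => 0 := by funext z'; simp [pd]
      rw [this]; simp [pd]
    have k5 : ∀ (t s : E₁ × E₂), pd t (pd s (pd (0 : E₁ × E₂) f)) z = 0 := by
      intro t s
      have h0 : pd (0 : E₁ × E₂) f = fun _ => 0 := by funext z'; simp [pd]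
      have h1 : pd s (fun _ : E₁ × E₂ => (0 : ℝ)) = fun _ => 0 := by funext z'; simp [pd]
      rw [h0, h1]; simp [pd]
    have z0 : ((0 : E₁), (0 : E₂)) = 0 := rfl
    have d1 : ∀ (x s u : E₁), PC.dG A x s u 0 = 0 := fun x s u => by simp [PC.dG]
    have d3 : ∀ (x u v : E₁), PC.dG A x 0 u v = 0 := fun x s u => by simp [PC.dG]
    have d5 : ∀ (x s u : E₂), PC.dG B x s 0 u = 0 := fun x s u => by simp [PC.dG]
    simp only [z0, k4, k5, d1, d3, d5]
    ring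
  -- second derivatives
  have e1 : ddG G z (X, 0) (0, V) (X, 0) (0, V)
      = pd (X, 0) (pd (X, 0) (pd (0, V) (pd (0, V) f))) z := by
    have k : (fun z' => PC.dG G z' (0, V) (X, 0) (0, V)) =ᶠ[𝓝 z]
        pd (X, 0) (pd (0, V) (pd (0, V) f)) := by
      filter_upwards [h.eventually, c2 (0, V) (X, 0) (0, V)] with z' hz' k2
      rw [hz'.dG]
      have z0 : ((0 : E₁), (0 : E₂)) = 0 := rfl
      have k5 : ∀ (t s : E₁ × E₂), pd t (pd s (pd (0 : E₁ × E₂) f)) z' = 0 := by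
        intro t s
        have h0 : pd (0 : E₁ × E₂) f = fun _ => 0 := by funext z'; simp [pd]
        have h1 : pd s (fun _ : E₁ × E₂ => (0 : ℝ)) = fun _ => 0 := by funext z'; simp [pd]
        rw [h0, h1]; simp [pd]
      have d1 : ∀ (x s u : E₁), PC.dG A x s u 0 = 0 := fun x s u => by simp [PC.dG]
      have d5 : ∀ (x s u : E₂), PC.dG B x s 0 u = 0 := fun x s u => by simp [PC.dG]
      simp only [z0, k5, d1, d5, k2]
      ring
    rw [ddG, k.fderiv_eq]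
    rfl
  have e2 : ddG G z (X, 0) (X, 0) (0, V) (0, V) = 0 := by
    have k : (fun z' => PC.dG G z' (X, 0) (0, V) (0, V)) =ᶠ[𝓝 z] fun _ => 0 := by
      filter_upwards [h.eventually] with z' hz'
      rw [hz'.dG]
      have z0 : ((0 : E₁), (0 : E₂)) = 0 := rfl
      have k4 : ∀ (t : E₁ × E₂) (g : E₁ × E₂ → ℝ), pd t (pd (0 : E₁ × E₂) g) z' = 0 := by
        intro t g
        have : pd (0 : E₁ × E₂) g = fun _ => 0 := by funext z'; simp [pd]
        rw [this]; simp [pd]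
      have d1 : ∀ (x s u : E₁), PC.dG A x s u 0 = 0 := fun x s u => by simp [PC.dG]
      have d6 : ∀ (x u v : E₂), PC.dG B x 0 u v = 0 := fun x s u => by simp [PC.dG]
      simp only [z0, k4, d1, d6]
      ring
    rw [ddG, k.fderiv_eq]
    simp
  have e3 : ddG G z (0, V) (0, V) (X, 0) (X, 0) = 0 := by
    have k : (fun z' => PC.dG G z' (0, V) (X, 0) (X, 0)) =ᶠ[𝓝 z] fun _ => 0 := by
      filter_upwards [h.eventually] with z' hz'
      rw [hz'.dG]
      have z0 : ((0 : E₁), (0 : E₂)) = 0 := rfl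
      have k5 : ∀ (t s : E₁ × E₂), pd t (pd s (pd (0 : E₁ × E₂) f)) z' = 0 := by
        intro t s
        have h0 : pd (0 : E₁ × E₂) f = fun _ => 0 := by funext z'; simp [pd]
        have h1 : pd s (fun _ : E₁ × E₂ => (0 : ℝ)) = fun _ => 0 := by funext z'; simp [pd]
        rw [h0, h1]; simp [pd]
      have d3 : ∀ (x u v : E₁), PC.dG A x 0 u v = 0 := fun x s u => by simp [PC.dG]
      have d5 : ∀ (x s u : E₂), PC.dG B x s 0 u = 0 := fun x s u => by simp [PC.dG]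
      simp only [z0, k5, d3, d5]
      ring
    rw [ddG, k.fderiv_eq]
    simp
  have e8 : pd (X, 0) (pd (X, 0) (fun z' => pd (0, V) (pd (0, V) f) z' - pd (0, Gam B z.2 V V) f z')) z
      = pd (X, 0) (pd (X, 0) (pd (0, V) (pd (0, V) f))) z
        - pd (X, 0) (pd (X, 0) (pd (0, Gam B z.2 V V) f)) z := by
    have k : pd (X, 0) (fun z' => pd (0, V) (pd (0, V) f) z' - pd (0, Gam B z.2 V V) f z') =ᶠ[𝓝 z]
        fun z' => pd (X, 0) (pd (0, V) (pd (0, V) f)) z' - pd (X, 0) (pd (0, Gam B z.2 V V) f) z' := by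
      filter_upwards [(s2 (0, V) (0, V)).eventually (by norm_num),
        (s1 (0, Gam B z.2 V V)).eventually (by norm_num)] with z' a b
      exact pd_sub (a.differentiableAt (by norm_num)) (b.differentiableAt (by norm_num)) _
    rw [(pd_congr k (X, 0)).self_of_nhds, pd_sub ((s3 _ _ _).differentiableAt (by norm_num))
      ((s2 _ _).differentiableAt (by norm_num))]
  rw [PC.num, e1, e2, e3, e5, e6, e7, e8]
  simp

end

end Pool.Agent.Helper20.PC
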