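import Pool.Agent.Helper20.PC.Curv

/-!
# Curvature of `G₀ + ω ⊗ ω`
-/

open Filter
open scoped Topology ContDiff

namespace Pool.Agent.Helper20.PC

variable {F : Type*} [NormedAddCommGroup F] [NormedSpace ℝ F]

/-- the metric `G₀ + ω ⊗ ω`. -/
noncomputable def rankOne (G : F → F →L[ℝ] F →L[ℝ] ℝ) (α : F → F →L[ℝ] ℝ) (z : F) :
    F →L[ℝ] F →L[ℝ] ℝ := G z + (α z).smulRight (α z)

lemma rankOne_apply (G : F → F →L[ℝ] F →L[ℝ] ℝ) (α : F → F →L[ℝ] ℝ) (z u v : F) :
    rankOne G α z u v = G z u v + α z u * α z v := by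
  simp [rankOne]

/-- derivative of a one-form. -/
noncomputable def dα (α : F → F →L[ℝ] ℝ) (z t u : F) : ℝ := fderiv ℝ (fun z' => α z' u) z t

/-- second derivative of a function. -/
noncomputable def D2 (f : F → ℝ) (z s t : F) : ℝ := fderiv ℝ (fun z' => fderiv ℝ f z' t) z s

lemma hasFDerivAt_fderiv_apply {f : F → ℝ} {z : F} (hf : ContDiffAt ℝ 2 f z) (t : F) :
    HasFDerivAt (fun z' => fderiv ℝ f z' t) ((fderiv ℝ (fderiv ℝ f) z).flip t) z := by
  have h0 : DifferentiableAt ℝ (fderiv ℝ f) z :=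
    (hf.fderiv_right (m := 1) (by norm_num)).differentiableAt (by norm_num)
  have h1 := h0.hasFDerivAt.clm_apply (hasFDerivAt_const t z)
  refine h1.congr_fderiv ?_
  ext s
  simp

lemma D2_mul {f g : F → ℝ} {z : F} (hf : ContDiffAt ℝ 2 f z) (hg : ContDiffAt ℝ 2 g z) (s t : F) :
    D2 (fun z' => f z' * g z') z s t = f z * D2 g z s t + fderiv ℝ f z s * fderiv ℝ g z t
      + fderiv ℝ f z t * fderiv ℝ g z s + D2 f z s t * g z := by
  have h1 : (fun z' => fderiv ℝ (fun z'' => f z'' * g z'') z' t) =ᶠ[𝓝 z]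
      (fun z' => f z' * fderiv ℝ g z' t + g z' * fderiv ℝ f z' t) := by
    filter_upwards [hf.eventually (by norm_num), hg.eventually (by norm_num)] with z' a b
    have h2 := (a.differentiableAt (by norm_num)).hasFDerivAt.mul (b.differentiableAt (by norm_num)).hasFDerivAt
    have h3 : HasFDerivAt (fun z'' => f z'' * g z'') (f z' • fderiv ℝ g z' + g z' • fderiv ℝ f z') z' := h2
    rw [h3.fderiv]
    simp
  have h4 := ((hf.differentiableAt (by norm_num)).hasFDerivAt.mul (hasFDerivAt_fderiv_apply hg t)).add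
    ((hg.differentiableAt (by norm_num)).hasFDerivAt.mul (hasFDerivAt_fderiv_apply hf t))
  have h5 : HasFDerivAt (fun z' => f z' * fderiv ℝ g z' t + g z' * fderiv ℝ f z' t) _ z := h4
  rw [D2, h1.fderiv_eq, h5.fderiv]
  simp only [_root_.add_apply, _root_.smul_apply, smul_eq_mul, ContinuousLinearMap.flip_apply, D2,
    (hasFDerivAt_fderiv_apply hg t).fderiv, (hasFDerivAt_fderiv_apply hf t).fderiv]
  ring

section
variable {G : F → F →L[ℝ] F →L[ℝ] ℝ} {α : F → F →L[ℝ] ℝ} {z : F}

lemma smoothα (hα : ContDiffAt ℝ 2 α z) (u : F) : ContDiffAt ℝ 2 (fun z' => α z' u) z :=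
  hα.clm_apply contDiffAt_const

lemma metAt_rankOne (h : MetAt G z) (hα : ContDiffAt ℝ 2 α z) : MetAt (rankOne G α) z where
  smooth := by
    unfold rankOne
    refine h.smooth.add ?_
    exact hα.smulRight hα
  symm := h.symm.mono (fun z' hz' u v => by rw [rankOne_apply, rankOne_apply, hz' u v]; ring)
  pos := h.pos.mono (fun z' hz' u hu => by
    rw [rankOne_apply]
    have := hz' u hu
    nlinarith [mul_self_nonneg (α z' u)])

lemma ddG_D2 (G : F → F →L[ℝ] F →L[ℝ] ℝ) (z s t u v : F) :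
    ddG G z s t u v = D2 (fun z' => G z' u v) z s t := rfl

lemma dG_rankOne (h : ContDiffAt ℝ 2 G z) (hα : ContDiffAt ℝ 2 α z) (t u v : F) :
    dG (rankOne G α) z t u v = dG G z t u v + dα α z t u * α z v + α z u * dα α z t v := by
  have h1 := ((smooth2 h u v).differentiableAt (by norm_num)).hasFDerivAt.add
    ((((smoothα hα u).differentiableAt (by norm_num)).hasFDerivAt).mul
      ((smoothα hα v).differentiableAt (by norm_num)).hasFDerivAt)
  have h2 : HasFDerivAt (fun z' => G z' u v + α z' u * α z' v) _ z := h1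
  rw [dG]
  simp_rw [rankOne_apply]
  rw [h2.fderiv]
  simp [dG, dα]
  ring

lemma ddG_rankOne (h : ContDiffAt ℝ 2 G z) (hα : ContDiffAt ℝ 2 α z) (s t u v : F)
    (hu : α z u = 0) (hv : α z v = 0) :
    ddG (rankOne G α) z s t u v = ddG G z s t u v + dα α z s u * dα α z t v
      + dα α z t u * dα α z s v := by
  have e : (fun z' => rankOne G α z' u v) = (fun z' => G z' u v + α z' u * α z' v) := by
    funext z'; rw [rankOne_apply]
  have h1 := D2_mul (smoothα hα u) (smoothα hα v) s t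
  have h2 : D2 (fun z' => G z' u v + α z' u * α z' v) z s t
      = D2 (fun z' => G z' u v) z s t + D2 (fun z' => α z' u * α z' v) z s t := by
    have h3 : (fun z' => fderiv ℝ (fun z'' => G z'' u v + α z'' u * α z'' v) z' t) =ᶠ[𝓝 z]
        (fun z' => fderiv ℝ (fun z'' => G z'' u v) z' t
          + fderiv ℝ (fun z'' => α z'' u * α z'' v) z' t) := by
      filter_upwards [h.eventually (by norm_num), hα.eventually (by norm_num)] with z' a b
      have h4 := ((smooth2 a u v).differentiableAt (by norm_num)).hasFDerivAt.add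
        (((smoothα b u).mul (smoothα b v)).differentiableAt (by norm_num)).hasFDerivAt
      have h5 : HasFDerivAt (fun z'' => G z'' u v + α z'' u * α z'' v)
        (fderiv ℝ (fun z'' => G z'' u v) z' + fderiv ℝ (fun z'' => α z'' u * α z'' v) z') z' := h4
      rw [h5.fderiv]
      simp
    have h6 := (hasFDerivAt_fderiv_apply (smooth2 h u v) t).add
      (hasFDerivAt_fderiv_apply ((smoothα hα u).mul (smoothα hα v)) t)
    have h7 : HasFDerivAt (fun z' => fderiv ℝ (fun z'' => G z'' u v) z' t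
          + fderiv ℝ (fun z'' => α z'' u * α z'' v) z' t) _ z := h6
    rw [D2, h3.fderiv_eq, h7.fderiv, D2, D2, (hasFDerivAt_fderiv_apply (smooth2 h u v) t).fderiv]
    have h8 : HasFDerivAt (fun z' => fderiv ℝ (fun z'' => α z'' u * α z'' v) z' t) _ z :=
      hasFDerivAt_fderiv_apply ((smoothα hα u).mul (smoothα hα v)) t
    rw [h8.fderiv]
    simp
  rw [ddG_D2, e, h2, h1, hu, hv, ddG_D2]
  simp only [dα]
  ring

variable [FiniteDimensional ℝ F]

/-- the dual vector of the one-form. -/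
noncomputable def nv (G : F → F →L[ℝ] F →L[ℝ] ℝ) (α : F → F →L[ℝ] ℝ) (z : F) : F :=
  (G z).inverse (α z)

/-- `|ω|²`. -/
noncomputable def wv (G : F → F →L[ℝ] F →L[ℝ] ℝ) (α : F → F →L[ℝ] ℝ) (z : F) : ℝ := α z (nv G α z)

/-- the symmetrised covariant derivative of the one-form. -/
noncomputable def Sv (G : F → F →L[ℝ] F →L[ℝ] ℝ) (α : F → F →L[ℝ] ℝ) (z u v : F) : ℝ :=
  1 / 2 * (dα α z u v + dα α z v u) - α z (Gam G z u v)

lemma G_nv (h : MetAt G z) (u : F) : G z (nv G α z) u = α z u := by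
  rw [nv, h.inv.self_apply_inverse]

lemma wv_nonneg (h : MetAt G z) : 0 ≤ wv G α z := by
  rw [wv, ← G_nv h]
  by_cases h0 : nv G α z = 0
  · rw [h0]; simp
  · exact (h.pos.self_of_nhds _ h0).le

lemma chr_rankOne (h : MetAt G z) (hα : ContDiffAt ℝ 2 α z) (u v w : F)
    (hu : α z u = 0) (hv : α z v = 0) :
    chr (rankOne G α) z u v w = chr G z u v w + 1 / 2 * (dα α z u v + dα α z v u) * α z w := by
  rw [chr_apply (metAt_rankOne h hα).smooth, chr_apply h.smooth, dG_rankOne h.smooth hα,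
    dG_rankOne h.smooth hα, dG_rankOne h.smooth hα, hu, hv]
  ring

lemma Gam_rankOne (h : MetAt G z) (hα : ContDiffAt ℝ 2 α z) (u v : F)
    (hu : α z u = 0) (hv : α z v = 0) :
    Gam (rankOne G α) z u v = Gam G z u v + (Sv G α z u v / (1 + wv G α z)) • nv G α z := by
  have hw := wv_nonneg (α := α) h
  refine Gam_unique (metAt_rankOne h hα) (fun w => ?_)
  rw [rankOne_apply, chr_rankOne h hα u v w hu hv]
  simp only [map_add, map_smul, _root_.add_apply, _root_.smul_apply, smul_eq_mul]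
  rw [G_Gam h, G_nv h]
  have e : α z (nv G α z) = wv G α z := rfl
  rw [e, Sv]
  field_simp
  ring

/-- **Curvature of a rank-one perturbation** on planes in the kernel of the one-form. -/
theorem num_rankOne (h : MetAt G z) (hα : ContDiffAt ℝ 2 α z) (u v : F)
    (hu : α z u = 0) (hv : α z v = 0) :
    num (rankOne G α) z u v = num G z u v
      + 1 / (1 + wv G α z) * (Sv G α z u u * Sv G α z v v - Sv G α z u v ^ 2)
      - 3 / 4 * (dα α z u v - dα α z v u) ^ 2 := by
  have hw := wv_nonneg (α := α) h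
  have e : α z (nv G α z) = wv G α z := rfl
  have g1 : chr G z u u (nv G α z) = α z (Gam G z u u) := by
    rw [← G_Gam h, h.symm.self_of_nhds, G_nv h]
  have g2 : chr G z u v (nv G α z) = α z (Gam G z u v) := by
    rw [← G_Gam h, h.symm.self_of_nhds, G_nv h]
  rw [num, num, ddG_rankOne h.smooth hα _ _ _ _ hu hv, ddG_rankOne h.smooth hα _ _ _ _ hv hv,
    ddG_rankOne h.smooth hα _ _ _ _ hu hu, chr_rankOne h hα _ _ _ hu hu, chr_rankOne h hα _ _ _ hu hv,
    Gam_rankOne h hα _ _ hv hv, Gam_rankOne h hα _ _ hu hv]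
  simp only [map_add, map_smul, smul_eq_mul]
  rw [g1, g2, e]
  have s1 : Sv G α z u u = dα α z u u - α z (Gam G z u u) := by rw [Sv]; ring
  have s2 : Sv G α z v v = dα α z v v - α z (Gam G z v v) := by rw [Sv]; ring
  have s3 : Sv G α z u v = 1 / 2 * (dα α z u v + dα α z v u) - α z (Gam G z u v) := rfl
  rw [s1, s2, s3]
  field_simp
  ring

end

end Pool.Agent.Helper20.PC
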