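import Pool.Agent.Helper20.PC.RankOne

/-!
# Curvature of `G₀ + p α² + 2 r α β + s β²`
-/

open Filter
open scoped Topology ContDiff

namespace Pool.Agent.Helper20.PC

variable {F : Type*} [NormedAddCommGroup F] [NormedSpace ℝ F]

/-- the metric `G₀ + p α ⊗ α + r (α ⊗ β + β ⊗ α) + s β ⊗ β`. -/
noncomputable def rankTwo (G : F → F →L[ℝ] F →L[ℝ] ℝ) (α β : F → F →L[ℝ] ℝ) (p r s : F → ℝ) (z : F) :
    F →L[ℝ] F →L[ℝ] ℝ :=
  G z + (p z • (α z).smulRight (α z) + r z • ((α z).smulRight (β z) + (β z).smulRight (α z))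
    + s z • (β z).smulRight (β z))

lemma rankTwo_apply (G : F → F →L[ℝ] F →L[ℝ] ℝ) (α β : F → F →L[ℝ] ℝ) (p r s : F → ℝ) (z u v : F) :
    rankTwo G α β p r s z u v = G z u v + (p z * (α z u * α z v)
      + r z * (α z u * β z v + β z u * α z v) + s z * (β z u * β z v)) := by
  simp [rankTwo]
  ring

lemma D2_add {f g : F → ℝ} {z : F} (hf : ContDiffAt ℝ 2 f z) (hg : ContDiffAt ℝ 2 g z) (s t : F) :
    D2 (fun z' => f z' + g z') z s t = D2 f z s t + D2 g z s t := by
  have h1 : (fun z' => fderiv ℝ (fun z'' => f z'' + g z'') z' t) =ᶠ[𝓝 z]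
      (fun z' => fderiv ℝ f z' t + fderiv ℝ g z' t) := by
    filter_upwards [hf.eventually (by norm_num), hg.eventually (by norm_num)] with z' a b
    have h2 := (a.differentiableAt (by norm_num)).hasFDerivAt.add (b.differentiableAt (by norm_num)).hasFDerivAt
    have h3 : HasFDerivAt (fun z'' => f z'' + g z'') (fderiv ℝ f z' + fderiv ℝ g z') z' := h2
    rw [h3.fderiv]
    simp
  have h4 := (hasFDerivAt_fderiv_apply hf t).add (hasFDerivAt_fderiv_apply hg t)
  have h5 : HasFDerivAt (fun z' => fderiv ℝ f z' t + fderiv ℝ g z' t) _ z := h4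
  rw [D2, h1.fderiv_eq, h5.fderiv]
  simp only [_root_.add_apply, ContinuousLinearMap.flip_apply, D2,
    (hasFDerivAt_fderiv_apply hg t).fderiv, (hasFDerivAt_fderiv_apply hf t).fderiv]

/-- first derivative of a product of three functions, one of the last two vanishing. -/
lemma fderiv_mul3 {p f g : F → ℝ} {z : F} (hp : ContDiffAt ℝ 2 p z) (hf : ContDiffAt ℝ 2 f z)
    (hg : ContDiffAt ℝ 2 g z) (hf0 : f z = 0) (t : F) :
    fderiv ℝ (fun z' => p z' * (f z' * g z')) z t = p z * (fderiv ℝ f z t * g z) := by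
  have h1 := (hf.differentiableAt (by norm_num)).hasFDerivAt.mul
    (hg.differentiableAt (by norm_num)).hasFDerivAt
  have h2 := (hp.differentiableAt (by norm_num)).hasFDerivAt.mul h1
  have h3 : HasFDerivAt (fun z' => p z' * (f z' * g z')) _ z := h2
  rw [h3.fderiv]
  simp only [_root_.add_apply, _root_.smul_apply, smul_eq_mul, Pi.mul_apply, hf0]
  ring

lemma fderiv_mul3' {p f g : F → ℝ} {z : F} (hp : ContDiffAt ℝ 2 p z) (hf : ContDiffAt ℝ 2 f z)
    (hg : ContDiffAt ℝ 2 g z) (hg0 : g z = 0) (t : F) :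
    fderiv ℝ (fun z' => p z' * (f z' * g z')) z t = p z * (f z * fderiv ℝ g z t) := by
  have h1 := fderiv_mul3 hp hg hf hg0 t
  have h2 : (fun z' => p z' * (f z' * g z')) = fun z' => p z' * (g z' * f z') := by
    funext z'; ring
  rw [h2, h1]
  ring

/-- second derivative of a product of three functions, the last two vanishing. -/
lemma D2_mul3 {p f g : F → ℝ} {z : F} (hp : ContDiffAt ℝ 2 p z) (hf : ContDiffAt ℝ 2 f z)
    (hg : ContDiffAt ℝ 2 g z) (hf0 : f z = 0) (hg0 : g z = 0) (s t : F) :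
    D2 (fun z' => p z' * (f z' * g z')) z s t
      = p z * (fderiv ℝ f z s * fderiv ℝ g z t + fderiv ℝ f z t * fderiv ℝ g z s) := by
  have h1 := (hf.differentiableAt (by norm_num)).hasFDerivAt.mul
    (hg.differentiableAt (by norm_num)).hasFDerivAt
  have h2 : HasFDerivAt (fun z' => f z' * g z') (0 : F →L[ℝ] ℝ) z := by
    refine HasFDerivAt.congr_fderiv h1 ?_
    rw [hf0, hg0]
    simp
  rw [D2_mul hp (hf.mul hg), D2_mul hf hg, h2.fderiv, hf0, hg0]
  simp

section
variable {G : F → F →L[ℝ] F →L[ℝ] ℝ} {α β : F → F →L[ℝ] ℝ} {p r s : F → ℝ} {z : F}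

/-- smoothness data. -/
structure Two (G : F → F →L[ℝ] F →L[ℝ] ℝ) (α β : F → F →L[ℝ] ℝ) (p r s : F → ℝ) (z : F) : Prop where
  hG : ContDiffAt ℝ 2 G z
  hα : ContDiffAt ℝ 2 α z
  hβ : ContDiffAt ℝ 2 β z
  hp : ContDiffAt ℝ 2 p z
  hr : ContDiffAt ℝ 2 r z
  hs : ContDiffAt ℝ 2 s z

lemma Two.smooth (h : Two G α β p r s z) : ContDiffAt ℝ 2 (rankTwo G α β p r s) z := by
  unfold rankTwo
  exact h.hG.add (((h.hp.smul (h.hα.smulRight h.hα)).add
    (h.hr.smul ((h.hα.smulRight h.hβ).add (h.hβ.smulRight h.hα)))).add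
    (h.hs.smul (h.hβ.smulRight h.hβ)))

lemma rankTwo_fun (u v : F) : (fun z' => rankTwo G α β p r s z' u v) = fun z' => G z' u v
    + (p z' * (α z' u * α z' v) + r z' * (α z' u * β z' v) + r z' * (β z' u * α z' v)
      + s z' * (β z' u * β z' v)) := by
  funext z'
  rw [rankTwo_apply]
  ring

lemma dG_rankTwo (h : Two G α β p r s z) (t u w : F) (hu : α z u = 0) (hu' : β z u = 0) :
    dG (rankTwo G α β p r s) z t u w = dG G z t u w
      + (dα α z t u * (p z * α z w + r z * β z w) + dα β z t u * (r z * α z w + s z * β z w)) := by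
  have hα := fun u => smoothα h.hα u
  have hβ := fun u => smoothα h.hβ u
  have d0 := ((smooth2 h.hG u w).differentiableAt (by norm_num)).hasFDerivAt
  have d1 := ((h.hp.mul ((hα u).mul (hα w))).differentiableAt (by norm_num)).hasFDerivAt
  have d2 := ((h.hr.mul ((hα u).mul (hβ w))).differentiableAt (by norm_num)).hasFDerivAt
  have d3 := ((h.hr.mul ((hβ u).mul (hα w))).differentiableAt (by norm_num)).hasFDerivAt
  have d4 := ((h.hs.mul ((hβ u).mul (hβ w))).differentiableAt (by norm_num)).hasFDerivAt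
  have d5 : HasFDerivAt (fun z' => G z' u w
    + (p z' * (α z' u * α z' w) + r z' * (α z' u * β z' w) + r z' * (β z' u * α z' w)
      + s z' * (β z' u * β z' w))) _ z := d0.add (((d1.add d2).add d3).add d4)
  rw [dG, rankTwo_fun, d5.fderiv]
  simp only [_root_.add_apply, fderiv_mul3 h.hp (hα u) (hα w) hu, fderiv_mul3 h.hr (hα u) (hβ w) hu,
    fderiv_mul3 h.hr (hβ u) (hα w) hu', fderiv_mul3 h.hs (hβ u) (hβ w) hu', dG, dα]
  ring

lemma ddG_rankTwo (h : Two G α β p r s z) (t' t u w : F) (hu : α z u = 0) (hu' : β z u = 0)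
    (hw : α z w = 0) (hw' : β z w = 0) :
    ddG (rankTwo G α β p r s) z t' t u w = ddG G z t' t u w
      + (p z * (dα α z t' u * dα α z t w + dα α z t u * dα α z t' w)
        + r z * (dα α z t' u * dα β z t w + dα α z t u * dα β z t' w)
        + r z * (dα β z t' u * dα α z t w + dα β z t u * dα α z t' w)
        + s z * (dα β z t' u * dα β z t w + dα β z t u * dα β z t' w)) := by
  have hα := fun u => smoothα h.hα u
  have hβ := fun u => smoothα h.hβ u
  have c1 := h.hp.mul ((hα u).mul (hα w))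
  have c2 := h.hr.mul ((hα u).mul (hβ w))
  have c3 := h.hr.mul ((hβ u).mul (hα w))
  have c4 := h.hs.mul ((hβ u).mul (hβ w))
  rw [ddG_D2, rankTwo_fun, D2_add (smooth2 h.hG u w) (((c1.add c2).add c3).add c4),
    D2_add ((c1.add c2).add c3) c4, D2_add (c1.add c2) c3, D2_add c1 c2,
    D2_mul3 h.hp (hα u) (hα w) hu hw, D2_mul3 h.hr (hα u) (hβ w) hu hw',
    D2_mul3 h.hr (hβ u) (hα w) hu' hw, D2_mul3 h.hs (hβ u) (hβ w) hu' hw', ddG_D2]
  rfl

variable [FiniteDimensional ℝ F]

omit [FiniteDimensional ℝ F] in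
lemma chr_rankTwo (h : Two G α β p r s z) (u v w : F) (hu : α z u = 0) (hu' : β z u = 0) (hv : α z v = 0) (hv' : β z v = 0) :
    chr (rankTwo G α β p r s) z u v w = chr G z u v w
      + (1 / 2 * (dα α z u v + dα α z v u) * (p z * α z w + r z * β z w)
        + 1 / 2 * (dα β z u v + dα β z v u) * (r z * α z w + s z * β z w)) := by
  rw [chr_apply h.smooth, chr_apply h.hG, dG_rankTwo h _ _ _ hv hv', dG_rankTwo h _ _ _ hu hu',
    dG_rankTwo h _ _ _ hu hu', hv, hv']
  ring

/-- the entries of `M (1 + N M)⁻¹`. -/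
noncomputable def DD (G : F → F →L[ℝ] F →L[ℝ] ℝ) (α β : F → F →L[ℝ] ℝ) (p r s : F → ℝ) (z : F) : ℝ :=
  (1 + p z * wv G α z) * (1 + s z * wv G β z) - r z ^ 2 * wv G α z * wv G β z

lemma Gam_rankTwo (hG : MetAt G z) (h : Two G α β p r s z) (hR : MetAt (rankTwo G α β p r s) z)
    (hort : α z (nv G β z) = 0) (hD : DD G α β p r s z ≠ 0)
    (u v : F) (hu : α z u = 0) (hu' : β z u = 0) (hv : α z v = 0) (hv' : β z v = 0) :
    Gam (rankTwo G α β p r s) z u v = Gam G z u v
      + ((Sv G α z u v * (p z + (p z * s z - r z ^ 2) * wv G β z) + Sv G β z u v * r z)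
          / DD G α β p r s z) • nv G α z
      + ((Sv G α z u v * r z + Sv G β z u v * (s z + (p z * s z - r z ^ 2) * wv G α z))
          / DD G α β p r s z) • nv G β z := by
  have hort' : β z (nv G α z) = 0 := by
    rw [← G_nv hG, hG.symm.self_of_nhds, G_nv hG, hort]
  refine Gam_unique hR (fun w => ?_)
  rw [rankTwo_apply, chr_rankTwo h u v w hu hu' hv hv']
  simp only [map_add, map_smul, _root_.add_apply, _root_.smul_apply, smul_eq_mul]
  rw [G_Gam hG, G_nv hG, G_nv hG, hort, hort']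
  have e : α z (nv G α z) = wv G α z := rfl
  have e' : β z (nv G β z) = wv G β z := rfl
  rw [e, e', Sv, Sv]
  field_simp
  rw [DD]
  ring

/-- **Curvature of a rank-two perturbation** on planes in the kernel of both one-forms. -/
theorem num_rankTwo (hG : MetAt G z) (h : Two G α β p r s z) (hR : MetAt (rankTwo G α β p r s) z)
    (hort : α z (nv G β z) = 0) (hD : DD G α β p r s z ≠ 0)
    (u v : F) (hu : α z u = 0) (hu' : β z u = 0) (hv : α z v = 0) (hv' : β z v = 0) :
    num (rankTwo G α β p r s) z u v = num G z u v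
      + 1 / DD G α β p r s z * ((p z + (p z * s z - r z ^ 2) * wv G β z)
            * (Sv G α z u u * Sv G α z v v - Sv G α z u v ^ 2)
          + r z * (Sv G α z u u * Sv G β z v v + Sv G β z u u * Sv G α z v v
            - 2 * (Sv G α z u v * Sv G β z u v))
          + (s z + (p z * s z - r z ^ 2) * wv G α z)
            * (Sv G β z u u * Sv G β z v v - Sv G β z u v ^ 2))
      - 3 / 4 * (p z * (dα α z u v - dα α z v u) ^ 2
        + 2 * r z * (dα α z u v - dα α z v u) * (dα β z u v - dα β z v u)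
        + s z * (dα β z u v - dα β z v u) ^ 2) := by
  have hort' : β z (nv G α z) = 0 := by
    rw [← G_nv hG, hG.symm.self_of_nhds, G_nv hG, hort]
  have e : α z (nv G α z) = wv G α z := rfl
  have e' : β z (nv G β z) = wv G β z := rfl
  have g1 : ∀ u v : F, chr G z u v (nv G α z) = α z (Gam G z u v) := fun u v => by
    rw [← G_Gam hG, hG.symm.self_of_nhds, G_nv hG]
  have g2 : ∀ u v : F, chr G z u v (nv G β z) = β z (Gam G z u v) := fun u v => by
    rw [← G_Gam hG, hG.symm.self_of_nhds, G_nv hG]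
  rw [num, num, ddG_rankTwo h _ _ _ _ hu hu' hv hv', ddG_rankTwo h _ _ _ _ hv hv' hv hv',
    ddG_rankTwo h _ _ _ _ hu hu' hu hu', chr_rankTwo h _ _ _ hu hu' hu hu',
    chr_rankTwo h _ _ _ hu hu' hv hv', Gam_rankTwo hG h hR hort hD _ _ hv hv' hv hv',
    Gam_rankTwo hG h hR hort hD _ _ hu hu' hv hv']
  simp only [map_add, map_smul, smul_eq_mul]
  rw [g1, g1, g2, g2, e, e', hort, hort']
  have s1 : ∀ u, Sv G α z u u = dα α z u u - α z (Gam G z u u) := fun u => by rw [Sv]; ring
  have s1' : ∀ u, Sv G β z u u = dα β z u u - β z (Gam G z u u) := fun u => by rw [Sv]; ring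
  have s3 : Sv G α z u v = 1 / 2 * (dα α z u v + dα α z v u) - α z (Gam G z u v) := rfl
  have s3' : Sv G β z u v = 1 / 2 * (dα β z u v + dα β z v u) - β z (Gam G z u v) := rfl
  rw [s1, s1, s1', s1', s3, s3']
  generalize hDD : DD G α β p r s z = D at hD
  have hD' : D = (1 + p z * wv G α z) * (1 + s z * wv G β z) - r z ^ 2 * wv G α z * wv G β z := by
    rw [← hDD, DD]
  field_simp
  rw [hD']
  ring

end

end Pool.Agent.Helper20.PC
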