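import Pool.Agent.Helper20.PC.TwoBlock
import Pool.Agent.Helper20.PC.DefsTwo

/-!
# No positive curvature for psd rank-two perturbations
-/

set_option maxSynthPendingDepth 3

open Filter Metric Module Set
open scoped Topology ContDiff RealInnerProductSpace Manifold

namespace Pool.Agent.Helper20.PC

section
variable {E : Type*} [NormedAddCommGroup E] [InnerProductSpace ℝ E] [FiniteDimensional ℝ E]
  {k : ℕ} [Fact (finrank ℝ E = k + 1)]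

/-- A one-form on the sphere whose symmetrised covariant derivative is definite on its kernel at
every point does not exist. -/
theorem no_definite (hk : 2 ≤ k) {g : sphere (0 : E) 1 → E →L[ℝ] E →L[ℝ] ℝ} (hg : IsMetricS k g)
    (x₀ : sphere (0 : E) 1) {β : E → E →L[ℝ] ℝ} (hβ : ∀ x, x ≠ 0 → ContDiffAt ℝ 1 β x)
    (hβx : ∀ x, x ≠ 0 → β x x = 0)
    (h : ∀ x : sphere (0 : E) 1, ∃ σ : ℝ, ∀ u, ⟪(x : E), u⟫ = 0 → u ≠ 0 → β x u = 0 →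
      0 < σ * Bv (cyl x₀ g) β x u u) : False := by
  have hfin : finrank ℝ E = k + 1 := Fact.out
  have hsign := sign_lemma (E := E) (by omega) (fun x => β x) (fun x u => Bv (cyl x₀ g) β x u u)
    (continuous_sphere_of (fun x hx => (hβ x hx).continuousAt)) (continuous_Bv hg x₀ hβ)
    (fun x u t => Bv_smul_smul (metAt_cyl hg x₀ (sphere_ne_zero x)) (hβ _ (sphere_ne_zero x)) t u) h
  rcases hsign with h | h
  · exact lemD hk hg x₀ hβ hβx h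
  · refine lemD hk hg x₀ (β := fun x => -β x) (fun x hx => (hβ x hx).neg)
      (fun x hx => by rw [neg_apply, hβx x hx, neg_zero]) (fun x u hu hu0 hℓ => ?_)
    have h1 := h x u hu hu0 (by simpa using hℓ)
    have h2 : Bv (cyl x₀ g) (fun x => -β x) x u u = -Bv (cyl x₀ g) β x u u := by
      have h3 : (fun z' => (fun x => -β x) z' u) = fun z' => -(β z' u) := by
        funext z'; simp
      rw [Bv, Bv, dα, dα, h3, fderiv_fun_neg]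
      simp
      ring
    rw [h2]
    linarith

end

lemma psd_quad {p r s : ℝ} (hp : 0 ≤ p) (hs : 0 ≤ s) (h : r ^ 2 ≤ p * s) (x y : ℝ) :
    0 ≤ p * x ^ 2 + 2 * r * x * y + s * y ^ 2 := by
  rcases hp.eq_or_lt with h0 | h0
  · rw [← h0] at h ⊢
    have hr : r = 0 := by nlinarith [sq_nonneg r]
    rw [hr]
    nlinarith [mul_nonneg hs (sq_nonneg y)]
  · have h1 : 0 ≤ p * (p * x ^ 2 + 2 * r * x * y + s * y ^ 2) := by
      nlinarith [sq_nonneg (p * x + r * y), mul_nonneg (sub_nonneg.2 h) (sq_nonneg y)]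
    exact nonneg_of_mul_nonneg_right h1 h0

section
variable {E₁ : Type*} [NormedAddCommGroup E₁] [InnerProductSpace ℝ E₁]
variable {E₂ : Type*} [NormedAddCommGroup E₂] [InnerProductSpace ℝ E₂]

/-- the extension of a family of metrics on the first sphere. -/
noncomputable def cylA (x₀ : sphere (0 : E₁) 1) (y₀ : sphere (0 : E₂) 1)
    (h : sphere (0 : E₁) 1 × sphere (0 : E₂) 1 → E₁ →L[ℝ] E₁ →L[ℝ] ℝ) (z : E₁ × E₂) :
    E₁ →L[ℝ] E₁ →L[ℝ] ℝ := cyl x₀ (fun x => h (x, toS y₀ z.2)) z.1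

/-- the extension of a form along the first sphere. -/
noncomputable def extA (x₀ : sphere (0 : E₁) 1) (y₀ : sphere (0 : E₂) 1)
    (a : sphere (0 : E₁) 1 × sphere (0 : E₂) 1 → E₁ →L[ℝ] ℝ) (z : E₁ × E₂) : E₁ →L[ℝ] ℝ :=
  a (toS x₀ z.1, toS y₀ z.2) ∘L dn z.1

/-- the extension of a form along the second sphere. -/
noncomputable def extB (x₀ : sphere (0 : E₁) 1) (y₀ : sphere (0 : E₂) 1)
    (b : sphere (0 : E₁) 1 × sphere (0 : E₂) 1 → E₂ →L[ℝ] ℝ) (z : E₁ × E₂) : E₂ →L[ℝ] ℝ :=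
  b (toS x₀ z.1, toS y₀ z.2) ∘L dn z.2

lemma extM_twoMetric (x₀ : sphere (0 : E₁) 1) (y₀ : sphere (0 : E₂) 1)
    (h : sphere (0 : E₁) 1 × sphere (0 : E₂) 1 → E₁ →L[ℝ] E₁ →L[ℝ] ℝ)
    (g₂ : sphere (0 : E₂) 1 → E₂ →L[ℝ] E₂ →L[ℝ] ℝ)
    (a : sphere (0 : E₁) 1 × sphere (0 : E₂) 1 → E₁ →L[ℝ] ℝ)
    (b : sphere (0 : E₁) 1 × sphere (0 : E₂) 1 → E₂ →L[ℝ] ℝ)
    (p r s : sphere (0 : E₁) 1 × sphere (0 : E₂) 1 → ℝ) :
    extM (x₀, y₀) (twoMetric h g₂ a b p r s)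
      = rankTwo (blockA (cylA x₀ y₀ h) (cyl y₀ g₂)) (lf (extA x₀ y₀ a)) (rf (extB x₀ y₀ b))
          (extF (x₀, y₀) p) (extF (x₀, y₀) r) (extF (x₀, y₀) s) := by
  funext z
  refine ContinuousLinearMap.ext (fun u => ContinuousLinearMap.ext (fun v => ?_))
  rw [extM_apply, rankTwo_apply, blockA_apply, cyl_apply, cylA, cyl_apply]
  simp only [lf_apply, rf_apply, extA, extB, extF, ContinuousLinearMap.comp_apply, twoMetric,
    sumForm, quadForm, add_apply, smul_apply, ContinuousLinearMap.bilinearComp_apply, ContinuousLinearMap.smulRight_apply,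
    ContinuousLinearMap.coe_fst', ContinuousLinearMap.coe_snd', smul_eq_mul]
  ring

variable [FiniteDimensional ℝ E₁] [FiniteDimensional ℝ E₂] {k l : ℕ}
  [Fact (finrank ℝ E₁ = k + 1)] [Fact (finrank ℝ E₂ = l + 1)]

lemma contDiffAt_extA {a : sphere (0 : E₁) 1 × sphere (0 : E₂) 1 → E₁ →L[ℝ] ℝ}
    (ha : ContMDiff ((𝓡 k).prod (𝓡 l)) 𝓘(ℝ, E₁ →L[ℝ] ℝ) 2 a)
    (x₀ : sphere (0 : E₁) 1) (y₀ : sphere (0 : E₂) 1)
    {z : E₁ × E₂} (h1 : z.1 ≠ 0) (h2 : z.2 ≠ 0) : ContDiffAt ℝ 2 (extA x₀ y₀ a) z :=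
  (contDiffAt_comp_toS₂ (r := 2) ha (x₀, y₀) h1 h2).clm_comp
    ((contDiffAt_dn h1).comp z contDiffAt_fst)

lemma contDiffAt_extB {b : sphere (0 : E₁) 1 × sphere (0 : E₂) 1 → E₂ →L[ℝ] ℝ}
    (hb : ContMDiff ((𝓡 k).prod (𝓡 l)) 𝓘(ℝ, E₂ →L[ℝ] ℝ) 2 b)
    (x₀ : sphere (0 : E₁) 1) (y₀ : sphere (0 : E₂) 1)
    {z : E₁ × E₂} (h1 : z.1 ≠ 0) (h2 : z.2 ≠ 0) : ContDiffAt ℝ 2 (extB x₀ y₀ b) z :=
  (contDiffAt_comp_toS₂ (r := 2) hb (x₀, y₀) h1 h2).clm_comp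
    ((contDiffAt_dn h2).comp z contDiffAt_snd)

lemma contDiffAt_cylA {h : sphere (0 : E₁) 1 × sphere (0 : E₂) 1 → E₁ →L[ℝ] E₁ →L[ℝ] ℝ}
    (hh : IsFamilySS k l h) (x₀ : sphere (0 : E₁) 1) (y₀ : sphere (0 : E₂) 1)
    {z : E₁ × E₂} (h1 : z.1 ≠ 0) (h2 : z.2 ≠ 0) : ContDiffAt ℝ 2 (cylA x₀ y₀ h) z := by
  have c1 : ContDiffAt ℝ 2 (fun z : E₁ × E₂ => dl z.1) z := (contDiffAt_dl h1).comp z contDiffAt_fst
  have c2 : ContDiffAt ℝ 2 (fun z : E₁ × E₂ => dn z.1) z := (contDiffAt_dn h1).comp z contDiffAt_fst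
  exact (c1.smulRight c1).add (contDiffAt_bilinearComp
    (contDiffAt_comp_toS₂ (r := 2) hh.smooth (x₀, y₀) h1 h2) c2)

lemma IsFamilySS.slice {h : sphere (0 : E₁) 1 × sphere (0 : E₂) 1 → E₁ →L[ℝ] E₁ →L[ℝ] ℝ}
    (hh : IsFamilySS k l h) (y : sphere (0 : E₂) 1) : IsMetricS k (fun x => h (x, y)) where
  smooth := ContMDiff.comp hh.smooth (contMDiff_id.prodMk contMDiff_const)
  symm := fun x u v => hh.symm (x, y) u v
  pos := fun x u => hh.pos (x, y) u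

lemma sliceMin_cylA {h : sphere (0 : E₁) 1 × sphere (0 : E₂) 1 → E₁ →L[ℝ] E₁ →L[ℝ] ℝ}
    (hh : IsFamilySS k l h) {g₂ : sphere (0 : E₂) 1 → E₂ →L[ℝ] E₂ →L[ℝ] ℝ} (hg₂ : IsMetricS l g₂)
    (x₀ : sphere (0 : E₁) 1) (y₀ : sphere (0 : E₂) 1)
    (hmin : ∀ x : sphere (0 : E₁) 1, ∀ y : sphere (0 : E₂) 1, ∀ X : E₁, ⟪(x : E₁), X⟫ = 0 →
      h (x, y₀) X X ≤ h (x, y) X X) {x : E₁} (hx : x ≠ 0) :
    SliceMin (cylA x₀ y₀ h) (cyl y₀ g₂) x (y₀ : E₂) where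
  smoothA := contDiffAt_cylA hh x₀ y₀ hx (sphere_ne_zero y₀)
  symmA := by
    have e1 : ∀ᶠ z' : E₁ × E₂ in 𝓝 (x, (y₀ : E₂)), z'.1 ≠ 0 :=
      continuous_fst.continuousAt.eventually_ne hx
    filter_upwards [e1] with z hz
    exact (metAt_cyl (hh.slice (toS y₀ z.2)) x₀ hz).symm.self_of_nhds
  posA := by
    have e1 : ∀ᶠ z' : E₁ × E₂ in 𝓝 (x, (y₀ : E₂)), z'.1 ≠ 0 :=
      continuous_fst.continuousAt.eventually_ne hx
    filter_upwards [e1] with z hz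
    exact (metAt_cyl (hh.slice (toS y₀ z.2)) x₀ hz).pos.self_of_nhds
  metB := metAt_cyl hg₂ y₀ (sphere_ne_zero y₀)
  min := by
    intro u
    refine Eventually.of_forall (fun y' => ?_)
    simp only [cylA, cyl_apply, toS_self]
    have := hmin (toS x₀ x) (toS y₀ y') (dn x u) (inner_toS_dn x₀ hx u)
    linarith

lemma metAt_psd {G : E₁ × E₂ → (E₁ × E₂) →L[ℝ] (E₁ × E₂) →L[ℝ] ℝ} {α β : E₁ × E₂ → (E₁ × E₂) →L[ℝ] ℝ}
    {p r s : E₁ × E₂ → ℝ} {z : E₁ × E₂} (hG : MetAt G z) (ht : Two G α β p r s z)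
    (hp : ∀ z, 0 ≤ p z) (hs : ∀ z, 0 ≤ s z) (hr : ∀ z, r z ^ 2 ≤ p z * s z) :
    MetAt (rankTwo G α β p r s) z where
  smooth := ht.smooth
  symm := hG.symm.mono (fun z' hz' u v => by
    rw [rankTwo_apply, rankTwo_apply, hz' u v]; ring)
  pos := hG.pos.mono (fun z' hz' u hu => by
    rw [rankTwo_apply]
    have h1 := hz' u hu
    have h2 := psd_quad (hp z') (hs z') (hr z') (α z' u) (β z' u)
    nlinarith)

lemma DD_pos_psd {G : E₁ × E₂ → (E₁ × E₂) →L[ℝ] (E₁ × E₂) →L[ℝ] ℝ} {α β : E₁ × E₂ → (E₁ × E₂) →L[ℝ] ℝ}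
    {p r s : E₁ × E₂ → ℝ} {z : E₁ × E₂} (hG : MetAt G z)
    (hp : 0 ≤ p z) (hs : 0 ≤ s z) (hr : r z ^ 2 ≤ p z * s z) : 0 < DD G α β p r s z := by
  have h1 := wv_nonneg (α := α) hG
  have h2 := wv_nonneg (α := β) hG
  have h3 : DD G α β p r s z = 1 + p z * wv G α z + s z * wv G β z
      + (p z * s z - r z ^ 2) * (wv G α z * wv G β z) := by rw [DD]; ring
  have h4 := mul_nonneg hp h1
  have h5 := mul_nonneg hs h2
  have h6 := mul_nonneg (sub_nonneg.2 hr) (mul_nonneg h1 h2)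
  rw [h3]
  linarith

/-- **Theorem.** Positive semidefinite rank-two perturbations of a family with a minimal slice. -/
theorem thmRankTwo (hk : 2 ≤ k) (hl : 2 ≤ l)
    {h : sphere (0 : E₁) 1 × sphere (0 : E₂) 1 → E₁ →L[ℝ] E₁ →L[ℝ] ℝ} (hh : IsFamilySS k l h)
    {g₂ : sphere (0 : E₂) 1 → E₂ →L[ℝ] E₂ →L[ℝ] ℝ} (hg₂ : IsMetricS l g₂)
    {a : sphere (0 : E₁) 1 × sphere (0 : E₂) 1 → E₁ →L[ℝ] ℝ}
    {b : sphere (0 : E₁) 1 × sphere (0 : E₂) 1 → E₂ →L[ℝ] ℝ}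
    {p r s : sphere (0 : E₁) 1 × sphere (0 : E₂) 1 → ℝ} (hd : IsTwoData k l a b p r s)
    (hpsd : IsPsd p r s)
    (y₀ : sphere (0 : E₂) 1)
    (hmin : ∀ x : sphere (0 : E₁) 1, ∀ y : sphere (0 : E₂) 1, ∀ X : E₁, ⟪(x : E₁), X⟫ = 0 →
      h (x, y₀) X X ≤ h (x, y) X X) :
    ∃ x : sphere (0 : E₁) 1, ∃ X : E₁, ∃ V : E₂, ⟪(x : E₁), X⟫ = 0 ∧ ⟪(y₀ : E₂), V⟫ = 0 ∧
      X ≠ 0 ∧ V ≠ 0 ∧
      secCurv (extM (x, y₀) (twoMetric h g₂ a b p r s)) ((x : E₁), (y₀ : E₂)) (X, 0) (0, V) ≤ 0 := by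
  obtain ⟨ha, hb, hp, hr, hs⟩ := hd
  have hp0 : ∀ q, 0 ≤ p q := fun q => (hpsd q).1
  have hs0 : ∀ q, 0 ≤ s q := fun q => (hpsd q).2.1
  have hrps : ∀ q, r q ^ 2 ≤ p q * s q := fun q => (hpsd q).2.2
  have hfin₁ : finrank ℝ E₁ = k + 1 := Fact.out
  have hfin₂ : finrank ℝ E₂ = l + 1 := Fact.out
  by_contra hcon
  push Not at hcon
  obtain ⟨e, he⟩ : ∃ e : E₁, ‖e‖ = 1 :=
    (exists_unit_perp (by omega : 3 ≤ finrank ℝ E₁) (0 : E₁) 0).imp (fun _ h => h.1)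
  set x₀ : sphere (0 : E₁) 1 := ⟨e, mem_sphere_zero_iff_norm.2 he⟩ with hx₀
  have hy0 : (y₀ : E₂) ≠ 0 := sphere_ne_zero y₀
  set A := cylA x₀ y₀ h with hA
  set B := cyl y₀ g₂ with hB
  set a' := extA x₀ y₀ a with ha'
  set b' := extB x₀ y₀ b with hb'
  set P := extF (x₀, y₀) p with hP
  set R := extF (x₀, y₀) r with hRd
  set S := extF (x₀, y₀) s with hS
  have hSM : ∀ x : E₁, x ≠ 0 → SliceMin A B x (y₀ : E₂) := fun x hx =>
    sliceMin_cylA hh hg₂ x₀ y₀ hmin hx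
  have hT : ∀ x : E₁, x ≠ 0 → Two (blockA A B) (lf a') (rf b') P R S (x, (y₀ : E₂)) := fun x hx =>
    ⟨(hSM x hx).smooth, contDiffAt_lf (contDiffAt_extA ha x₀ y₀ hx hy0),
      contDiffAt_rf (contDiffAt_extB hb x₀ y₀ hx hy0),
      contDiffAt_comp_toS₂ (r := 2) hp (x₀, y₀) hx hy0,
      contDiffAt_comp_toS₂ (r := 2) hr (x₀, y₀) hx hy0,
      contDiffAt_comp_toS₂ (r := 2) hs (x₀, y₀) hx hy0⟩
  have hM : ∀ x : E₁, x ≠ 0 → MetAt (rankTwo (blockA A B) (lf a') (rf b') P R S) (x, (y₀ : E₂)) :=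
    fun x hx => metAt_psd (hSM x hx).met (hT x hx) (fun z => hp0 _) (fun z => hs0 _) (fun z => hrps _)
  have hslice : (fun x' => A (x', (y₀ : E₂))) = cyl x₀ (fun x => h (x, y₀)) := by
    funext x'
    simp only [hA, cylA, toS_self]
  set β : E₁ → E₁ →L[ℝ] ℝ := fun x => a' (x, (y₀ : E₂)) with hβ
  have hβs : ∀ x : E₁, x ≠ 0 → ContDiffAt ℝ 1 β x := fun x hx =>
    (ContDiffAt.comp (g := a') x (contDiffAt_extA ha x₀ y₀ (z := (x, (y₀ : E₂))) hx hy0)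
      (contDiffAt_inl x (y₀ : E₂))).of_le (by norm_num)
  have hβx : ∀ x : E₁, x ≠ 0 → β x x = 0 := by
    intro x hx
    simp only [hβ, ha', extA, ContinuousLinearMap.comp_apply, dn_self x hx, map_zero]
  refine no_definite hk (hh.slice y₀) x₀ hβs hβx (fun x => ?_)
  have hx0 := sphere_ne_zero x
  obtain ⟨V, hV1, hV2, hV3⟩ := exists_unit_perp (by omega : 3 ≤ finrank ℝ E₂) (y₀ : E₂)
    (b' ((x : E₁), (y₀ : E₂)))
  have hV0 : V ≠ 0 := by rintro rfl; rw [norm_zero] at hV1; exact zero_ne_one hV1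
  refine ⟨R ((x : E₁), (y₀ : E₂)) / DD (blockA A B) (lf a') (rf b') P R S ((x : E₁), (y₀ : E₂))
          * Sv (blockA A B) (rf b') ((x : E₁), (y₀ : E₂)) (0, V) (0, V), fun X hX hX0 hβX => ?_⟩
  have h1 := hcon x X V hX hV2 hX0 hV0
  have h2 : extM (x, y₀) (twoMetric h g₂ a b p r s) =ᶠ[𝓝 ((x : E₁), (y₀ : E₂))]
      rankTwo (blockA A B) (lf a') (rf b') P R S := by
    refine (extM_congr (x, y₀) (x₀, y₀) _ hx0 hy0).trans ?_
    rw [extM_twoMetric]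
  rw [secCurv_congr h2] at h1
  have h3 := num_pos_of_secCurv (hM x hx0)
    (fun t ht => hX0 (by simpa using congrArg Prod.fst ht))
    (fun hv => hV0 (by simpa using congrArg Prod.snd hv)) h1
  have n1 := wv_nonneg (α := lf a') (hSM x hx0).met
  have n2 := wv_nonneg (α := rf b') (hSM x hx0).met
  have c1 := hp0 (toS x₀ (x : E₁), toS y₀ (y₀ : E₂))
  have c2 := hs0 (toS x₀ (x : E₁), toS y₀ (y₀ : E₂))
  have c3 := hrps (toS x₀ (x : E₁), toS y₀ (y₀ : E₂))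
  have hD : 0 < DD (blockA A B) (lf a') (rf b') P R S ((x : E₁), (y₀ : E₂)) :=
    DD_pos_psd (hSM x hx0).met c1 c2 c3
  have h4 := (hSM x hx0).num_two (hT x hx0) (hM x hx0) hD X V hβX hV3 ?_ ?_
  · rw [hslice] at h4
    have h5 := h3.trans_le h4
    have h6 : Bv (cyl x₀ fun x => h (x, y₀)) β (x : E₁) X X = dα (fun x' => a' (x', (y₀ : E₂))) (x : E₁) X X
        - a' ((x : E₁), (y₀ : E₂)) (Gam (cyl x₀ fun x => h (x, y₀)) (x : E₁) X X) := rfl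
    rw [h6]
    exact h5
  · have q1 := psd_quad c1 c2 c3 (dα (lf a') ((x : E₁), (y₀ : E₂)) (0, V) (X, 0))
      (dα (rf b') ((x : E₁), (y₀ : E₂)) (X, 0) (0, V))
    have q2 := mul_nonneg (mul_nonneg (sub_nonneg.2 c3) n2)
      (sq_nonneg (dα (lf a') ((x : E₁), (y₀ : E₂)) (0, V) (X, 0)))
    have q3 := mul_nonneg (mul_nonneg (sub_nonneg.2 c3) n1)
      (sq_nonneg (dα (rf b') ((x : E₁), (y₀ : E₂)) (X, 0) (0, V)))
    have e1 : P ((x : E₁), (y₀ : E₂)) = p (toS x₀ (x : E₁), toS y₀ (y₀ : E₂)) := rfl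
    have e2 : R ((x : E₁), (y₀ : E₂)) = r (toS x₀ (x : E₁), toS y₀ (y₀ : E₂)) := rfl
    have e3 : S ((x : E₁), (y₀ : E₂)) = s (toS x₀ (x : E₁), toS y₀ (y₀ : E₂)) := rfl
    rw [e1, e2, e3]
    nlinarith
  · have q1 := psd_quad c1 c2 c3 (dα (lf a') ((x : E₁), (y₀ : E₂)) (0, V) (X, 0))
      (-dα (rf b') ((x : E₁), (y₀ : E₂)) (X, 0) (0, V))
    have e1 : P ((x : E₁), (y₀ : E₂)) = p (toS x₀ (x : E₁), toS y₀ (y₀ : E₂)) := rfl
    have e2 : R ((x : E₁), (y₀ : E₂)) = r (toS x₀ (x : E₁), toS y₀ (y₀ : E₂)) := rfl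
    have e3 : S ((x : E₁), (y₀ : E₂)) = s (toS x₀ (x : E₁), toS y₀ (y₀ : E₂)) := rfl
    rw [e1, e2, e3]
    nlinarith

end

end Pool.Agent.Helper20.PC
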