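import Pool.Agent.Helper20.PC.Hairy
import Pool.Agent.Helper20.PC.ThmRankTwo

/-!
# Metrics modified by a form pulled back from a sphere of even dimension
-/

set_option maxSynthPendingDepth 3

open Filter Metric Module Set
open scoped Topology ContDiff RealInnerProductSpace Manifold

namespace Pool.Agent.Helper20.PC

section
variable {E₁ : Type*} [NormedAddCommGroup E₁] [InnerProductSpace ℝ E₁] [FiniteDimensional ℝ E₁]
variable {E₂ : Type*} [NormedAddCommGroup E₂] [InnerProductSpace ℝ E₂] [FiniteDimensional ℝ E₂]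
variable {k l : ℕ} [Fact (finrank ℝ E₁ = k + 1)] [Fact (finrank ℝ E₂ = l + 1)]

theorem thmForms (hk : 2 ≤ k) (hl : 2 ≤ l) (hle : Even l)
    {g₁ : sphere (0 : E₁) 1 → E₁ →L[ℝ] E₁ →L[ℝ] ℝ} (hg₁ : IsMetricS k g₁)
    {g₂ : sphere (0 : E₂) 1 → E₂ →L[ℝ] E₂ →L[ℝ] ℝ} (hg₂ : IsMetricS l g₂)
    {a : sphere (0 : E₁) 1 × sphere (0 : E₂) 1 → E₁ →L[ℝ] ℝ}
    {b : sphere (0 : E₂) 1 → E₂ →L[ℝ] ℝ}
    {p r s : sphere (0 : E₁) 1 × sphere (0 : E₂) 1 → ℝ}
    (hd : IsTwoData k l a (fun q => b q.2) p r s)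
    (hpa : (∀ q, 0 ≤ p q) ∨ ∀ x y y', a (x, y) = a (x, y'))
    (hpos : ∀ q : sphere (0 : E₁) 1 × sphere (0 : E₂) 1, ∀ u : E₁ × E₂, ⟪(q.1 : E₁), u.1⟫ = 0 →
      ⟪(q.2 : E₂), u.2⟫ = 0 → u ≠ 0 →
      0 < twoMetric (fun q => g₁ q.1) g₂ a (fun q => b q.2) p r s q u u) :
    ∃ x : sphere (0 : E₁) 1, ∃ y : sphere (0 : E₂) 1, ∃ X : E₁, ∃ V : E₂, ⟪(x : E₁), X⟫ = 0 ∧
      ⟪(y : E₂), V⟫ = 0 ∧ X ≠ 0 ∧ V ≠ 0 ∧
      secCurv (extM (x, y) (twoMetric (fun q => g₁ q.1) g₂ a (fun q => b q.2) p r s))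
        ((x : E₁), (y : E₂)) (X, 0) (0, V) ≤ 0 := by
  obtain ⟨ha, hb, hp, hr, hs⟩ := hd
  have hfin₁ : finrank ℝ E₁ = k + 1 := Fact.out
  have hfin₂ : finrank ℝ E₂ = l + 1 := Fact.out
  obtain ⟨e, he⟩ : ∃ e : E₁, ‖e‖ = 1 :=
    (exists_unit_perp (by omega : 3 ≤ finrank ℝ E₁) (0 : E₁) 0).imp (fun _ h => h.1)
  set x₀ : sphere (0 : E₁) 1 := ⟨e, mem_sphere_zero_iff_norm.2 he⟩ with hx₀
  have hb1 : ContMDiff (𝓡 l) 𝓘(ℝ, E₂ →L[ℝ] ℝ) 1 b := by
    have h1 : ContMDiff (𝓡 l) 𝓘(ℝ, E₂ →L[ℝ] ℝ) 2 (fun y : sphere (0 : E₂) 1 => b ((x₀, y) :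
        sphere (0 : E₁) 1 × sphere (0 : E₂) 1).2) :=
      ContMDiff.comp (g := fun q : sphere (0 : E₁) 1 × sphere (0 : E₂) 1 => b q.2) hb
        (contMDiff_const.prodMk contMDiff_id)
    exact h1.of_le (by norm_num)
  obtain ⟨y₀, hy₀⟩ := exists_zero_form hl hle hb1
  by_contra hcon
  push Not at hcon
  have hcon := fun x => hcon x y₀
  have hy0 : (y₀ : E₂) ≠ 0 := sphere_ne_zero y₀
  set b2 : sphere (0 : E₁) 1 × sphere (0 : E₂) 1 → E₂ →L[ℝ] ℝ := fun q => b q.2 with hb2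
  set h : sphere (0 : E₁) 1 × sphere (0 : E₂) 1 → E₁ →L[ℝ] E₁ →L[ℝ] ℝ := fun q => g₁ q.1 with hh'
  have hh : IsFamilySS (E₂ := E₂) k l h :=
    ⟨hg₁.smooth.comp contMDiff_fst, fun q => hg₁.symm q.1, fun q => hg₁.pos q.1⟩
  set A := cylA x₀ y₀ h with hA
  set B := cyl y₀ g₂ with hB
  set a' := extA x₀ y₀ a with ha'
  set b' := extB x₀ y₀ b2 with hb'
  set P := extF (x₀, y₀) p with hP
  set R := extF (x₀, y₀) r with hRd
  set S := extF (x₀, y₀) s with hS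
  have hSM : ∀ x : E₁, x ≠ 0 → SliceMin A B x (y₀ : E₂) := fun x hx =>
    sliceMin_cylA hh hg₂ x₀ y₀ (fun x y X _ => le_rfl) hx
  have hT : ∀ x : E₁, x ≠ 0 → Two (blockA A B) (lf a') (rf b') P R S (x, (y₀ : E₂)) := fun x hx =>
    ⟨(hSM x hx).smooth, contDiffAt_lf (contDiffAt_extA ha x₀ y₀ hx hy0),
      contDiffAt_rf (contDiffAt_extB hb x₀ y₀ hx hy0),
      contDiffAt_comp_toS₂ (r := 2) hp (x₀, y₀) hx hy0,
      contDiffAt_comp_toS₂ (r := 2) hr (x₀, y₀) hx hy0,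
      contDiffAt_comp_toS₂ (r := 2) hs (x₀, y₀) hx hy0⟩
  have hM : ∀ x : E₁, x ≠ 0 → MetAt (rankTwo (blockA A B) (lf a') (rf b') P R S) (x, (y₀ : E₂)) := by
    intro x hx
    have h1 := (hT x hx).smooth
    rw [← extM_twoMetric] at h1 ⊢
    refine metAt_extM (x₀, y₀) hx hy0 h1 (fun q u v a1 b1 c1 d1 => ?_) hpos
    have s1 := hg₁.symm q.1 u.1 v.1 a1 c1
    have s2 := hg₂.symm q.2 u.2 v.2 b1 d1
    simp only [hh', twoMetric, sumForm, quadForm, add_apply, smul_apply,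
      ContinuousLinearMap.bilinearComp_apply, ContinuousLinearMap.smulRight_apply,
      ContinuousLinearMap.comp_apply, ContinuousLinearMap.coe_fst', ContinuousLinearMap.coe_snd',
      smul_eq_mul]
    rw [s1, s2]
    ring
  have hslice : (fun x' => A (x', (y₀ : E₂))) = cyl x₀ g₁ := by
    funext x'
    simp only [hA, cylA, hh']
  -- the second form vanishes on the slice
  have hbz : ∀ x : E₁, b' (x, (y₀ : E₂)) = 0 := by
    intro x
    refine ContinuousLinearMap.ext (fun u => ?_)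
    simp only [hb', extB, hb2, ContinuousLinearMap.comp_apply, toS_self, zero_apply]
    refine hy₀ _ ?_
    have := inner_toS_dn y₀ hy0 u
    rwa [toS_self] at this
  have hrfz : ∀ x : E₁, rf b' (x, (y₀ : E₂)) = 0 := by
    intro x
    rw [rf, hbz, ContinuousLinearMap.zero_comp]
  have hnb : ∀ x : E₁, wv (blockA A B) (rf b') (x, (y₀ : E₂)) = 0 := by
    intro x
    rw [wv, hrfz]
    rfl
  have hDD : ∀ x : E₁, DD (blockA A B) (lf a') (rf b') P R S (x, (y₀ : E₂))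
      = 1 + P (x, (y₀ : E₂)) * wv (blockA A B) (lf a') (x, (y₀ : E₂)) := by
    intro x
    rw [DD, hnb]
    ring
  have hD : ∀ x : E₁, x ≠ 0 → 0 < DD (blockA A B) (lf a') (rf b') P R S (x, (y₀ : E₂)) := by
    intro x hx
    rw [hDD]
    have n1 := wv_nonneg (α := lf a') (hSM x hx).met
    by_cases h0 : nv (blockA A B) (lf a') (x, (y₀ : E₂)) = 0
    · have : wv (blockA A B) (lf a') (x, (y₀ : E₂)) = 0 := by rw [wv, h0, map_zero]
      rw [this]
      norm_num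
    · have h1 := (hM x hx).pos.self_of_nhds _ h0
      rw [rankTwo_apply, G_nv (hSM x hx).met, hrfz] at h1
      have e : lf a' (x, (y₀ : E₂)) (nv (blockA A B) (lf a') (x, (y₀ : E₂)))
          = wv (blockA A B) (lf a') (x, (y₀ : E₂)) := rfl
      rw [e] at h1
      simp only [zero_apply, mul_zero, add_zero, zero_mul] at h1
      have h2 : 0 < wv (blockA A B) (lf a') (x, (y₀ : E₂))
          * (1 + P (x, (y₀ : E₂)) * wv (blockA A B) (lf a') (x, (y₀ : E₂))) := by nlinarith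
      by_contra hc
      push Not at hc
      have h3 := mul_nonpos_of_nonneg_of_nonpos n1 hc
      linarith
  set β : E₁ → E₁ →L[ℝ] ℝ := fun x => a' (x, (y₀ : E₂)) with hβ
  have hβs : ∀ x : E₁, x ≠ 0 → ContDiffAt ℝ 1 β x := fun x hx =>
    (ContDiffAt.comp (g := a') x (contDiffAt_extA ha x₀ y₀ (z := (x, (y₀ : E₂))) hx hy0)
      (contDiffAt_inl x (y₀ : E₂))).of_le (by norm_num)
  have hβx : ∀ x : E₁, x ≠ 0 → β x x = 0 := by
    intro x hx
    simp only [hβ, ha', extA, ContinuousLinearMap.comp_apply, dn_self x hx, map_zero]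
  refine no_definite hk hg₁ x₀ hβs hβx (fun x => ?_)
  have hx0 := sphere_ne_zero x
  obtain ⟨V, hV1, hV2, -⟩ := exists_unit_perp (by omega : 3 ≤ finrank ℝ E₂) (y₀ : E₂) 0
  have hV0 : V ≠ 0 := by rintro rfl; rw [norm_zero] at hV1; exact zero_ne_one hV1
  refine ⟨R ((x : E₁), (y₀ : E₂)) / DD (blockA A B) (lf a') (rf b') P R S ((x : E₁), (y₀ : E₂))
          * Sv (blockA A B) (rf b') ((x : E₁), (y₀ : E₂)) (0, V) (0, V), fun X hX hX0 hβX => ?_⟩
  have h1 := hcon x X V hX hV2 hX0 hV0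
  have h2 : extM (x, y₀) (twoMetric h g₂ a b2 p r s) =ᶠ[𝓝 ((x : E₁), (y₀ : E₂))]
      rankTwo (blockA A B) (lf a') (rf b') P R S := by
    refine (extM_congr (x, y₀) (x₀, y₀) _ hx0 hy0).trans ?_
    rw [extM_twoMetric]
  rw [secCurv_congr h2] at h1
  have h3 := num_pos_of_secCurv (hM x hx0)
    (fun t ht => hX0 (by simpa using congrArg Prod.fst ht))
    (fun hv => hV0 (by simpa using congrArg Prod.snd hv)) h1
  -- the mixed derivatives
  have hξ : dα (rf b') ((x : E₁), (y₀ : E₂)) (X, 0) (0, V) = 0 := by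
    have h5 := fderiv_slice' (f := fun z => rf b' z (0, V)) (x := (x : E₁)) (y := (y₀ : E₂))
      ((smoothα (hT x hx0).hβ (0, V)).differentiableAt (by norm_num)) X
    have h6 : (fun x' => rf b' (x', (y₀ : E₂)) ((0 : E₁), V)) = fun _ => 0 := by
      funext x'
      rw [hrfz, zero_apply]
    rw [dα, ← h5, h6]
    simp
  have hη : 0 ≤ P ((x : E₁), (y₀ : E₂)) * dα (lf a') ((x : E₁), (y₀ : E₂)) (0, V) (X, 0) ^ 2 := by
    rcases hpa with hp0 | hay
    · exact mul_nonneg (hp0 _) (sq_nonneg _)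
    · have h5 := fderiv_sliceR (f := fun z => lf a' z (X, 0)) (x := (x : E₁)) (y := (y₀ : E₂))
        ((smoothα (hT x hx0).hα (X, 0)).differentiableAt (by norm_num)) V
      have h6 : (fun y' => lf a' ((x : E₁), y') (X, (0 : E₂)))
          = fun _ => a (toS x₀ (x : E₁), y₀) (dn (x : E₁) X) := by
        funext y'
        rw [lf_apply]
        simp only [ha', extA, ContinuousLinearMap.comp_apply]
        rw [hay _ (toS y₀ y') y₀]
      have h7 : dα (lf a') ((x : E₁), (y₀ : E₂)) (0, V) (X, 0) = 0 := by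
        rw [dα, ← h5, h6]
        simp
      rw [h7]
      norm_num
  have h4 := (hSM x hx0).num_two (hT x hx0) (hM x hx0) (hD x hx0) X V hβX (by rw [hbz, zero_apply])
    (by rw [hnb, hξ]; simpa using hη) (by rw [hξ]; simpa using hη)
  rw [hslice] at h4
  exact h3.trans_le h4

end

end Pool.Agent.Helper20.PC
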