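import Pool.Agent.Helper20.PC.MixSphere
import Pool.Agent.Helper20.PC.ThmTwo

/-!
# No positive curvature for `g₁ + g₂ + 2 d₁ d₂ F`
-/

set_option maxSynthPendingDepth 3

open Filter Metric Module Set
open scoped Topology ContDiff RealInnerProductSpace Manifold

namespace Pool.Agent.Helper20.PC

section
variable {E₁ : Type*} [NormedAddCommGroup E₁] [NormedSpace ℝ E₁]
variable {E₂ : Type*} [NormedAddCommGroup E₂] [NormedSpace ℝ E₂]

/-- scaling of the first factor. -/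
noncomputable def scl (E₁ E₂ : Type*) [NormedAddCommGroup E₁] [NormedSpace ℝ E₁]
    [NormedAddCommGroup E₂] [NormedSpace ℝ E₂] (t : ℝ) : (E₁ × E₂) →L[ℝ] (E₁ × E₂) :=
  (t • ContinuousLinearMap.id ℝ E₁).prodMap (ContinuousLinearMap.id ℝ E₂)

lemma scl_apply (t : ℝ) (z : E₁ × E₂) : scl E₁ E₂ t z = (t • z.1, z.2) := rfl

/-- If `f` is invariant under the scaling of the first factor then so are its derivatives in the
direction of the second factor. -/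
lemma pd_scl {f : E₁ × E₂ → ℝ} {t : ℝ} {z : E₁ × E₂}
    (hf : ∀ᶠ z' : E₁ × E₂ in 𝓝 z, f (scl E₁ E₂ t z') = f z')
    (hd : DifferentiableAt ℝ f (scl E₁ E₂ t z)) (V : E₂) :
    pd (0, V) f (scl E₁ E₂ t z) = pd (0, V) f z := by
  have h1 : (f ∘ scl E₁ E₂ t) =ᶠ[𝓝 z] f := hf
  have h2 : HasFDerivAt (f ∘ scl E₁ E₂ t) ((fderiv ℝ f (scl E₁ E₂ t z)) ∘L (scl E₁ E₂ t)) z :=
    HasFDerivAt.comp z hd.hasFDerivAt (scl E₁ E₂ t).hasFDerivAt
  rw [pd, pd, ← h1.fderiv_eq, h2.fderiv]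
  simp [scl_apply]

end

section
variable {E₁ : Type*} [NormedAddCommGroup E₁] [InnerProductSpace ℝ E₁] [FiniteDimensional ℝ E₁]
variable {E₂ : Type*} [NormedAddCommGroup E₂] [InnerProductSpace ℝ E₂] [FiniteDimensional ℝ E₂]
variable {k l : ℕ} [Fact (finrank ℝ E₁ = k + 1)] [Fact (finrank ℝ E₂ = l + 1)]

lemma extM_mixedMetric {g₁ : sphere (0 : E₁) 1 → E₁ →L[ℝ] E₁ →L[ℝ] ℝ}
    {g₂ : sphere (0 : E₂) 1 → E₂ →L[ℝ] E₂ →L[ℝ] ℝ} {F : sphere (0 : E₁) 1 × sphere (0 : E₂) 1 → ℝ}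
    (hF : ContMDiff ((𝓡 k).prod (𝓡 l)) 𝓘(ℝ, ℝ) 4 F) (p : sphere (0 : E₁) 1 × sphere (0 : E₂) 1)
    {z : E₁ × E₂} (h1 : z.1 ≠ 0) (h2 : z.2 ≠ 0) (u v : E₁ × E₂) :
    extM p (mixedMetric g₁ g₂ F) z u v = cyl p.1 g₁ z.1 u.1 v.1 + cyl p.2 g₂ z.2 u.2 v.2
      + (pd (u.1, 0) (pd (0, v.2) (extF p F)) z + pd (v.1, 0) (pd (0, u.2) (extF p F)) z) := by
  rw [extM_apply, cyl_apply, cyl_apply, ← mixed_ext hF p h1 h2 u.1 v.2 (dn z.1 v.1) (dn z.2 u.2),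
    ← mixed_ext hF p h1 h2 v.1 u.2 (dn z.1 u.1) (dn z.2 v.2)]
  simp [mixedMetric]
  ring

lemma contDiffAt_extF {F : sphere (0 : E₁) 1 × sphere (0 : E₂) 1 → ℝ}
    (hF : ContMDiff ((𝓡 k).prod (𝓡 l)) 𝓘(ℝ, ℝ) 4 F) (p : sphere (0 : E₁) 1 × sphere (0 : E₂) 1)
    {z : E₁ × E₂} (h1 : z.1 ≠ 0) (h2 : z.2 ≠ 0) : ContDiffAt ℝ 4 (extF p F) z :=
  contDiffAt_comp_toS₂ (r := 4) hF p h1 h2

/-- **Theorem.** For `g = g₁ + g₂ + 2 d₁ d₂ F` and every nonzero `V` tangent to the second factor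
there is a point `x` such that all planes spanned by `V` and vectors at `x` tangent to the first
factor have curvature at most `0`. -/
theorem thmFour
    {g₁ : sphere (0 : E₁) 1 → E₁ →L[ℝ] E₁ →L[ℝ] ℝ} (hg₁ : IsMetricS k g₁)
    {g₂ : sphere (0 : E₂) 1 → E₂ →L[ℝ] E₂ →L[ℝ] ℝ} (hg₂ : IsMetricS l g₂)
    {F : sphere (0 : E₁) 1 × sphere (0 : E₂) 1 → ℝ}
    (hF : ContMDiff ((𝓡 k).prod (𝓡 l)) 𝓘(ℝ, ℝ) 4 F)
    (hpos : ∀ p : sphere (0 : E₁) 1 × sphere (0 : E₂) 1, ∀ u : E₁ × E₂, ⟪(p.1 : E₁), u.1⟫ = 0 →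
      ⟪(p.2 : E₂), u.2⟫ = 0 → u ≠ 0 → 0 < mixedMetric g₁ g₂ F p u u)
    (y : sphere (0 : E₂) 1) (V : E₂) (hV : V ≠ 0) :
    ∃ x : sphere (0 : E₁) 1, ∀ X : E₁, X ≠ 0 →
      secCurv (extM (x, y) (mixedMetric g₁ g₂ F)) ((x : E₁), (y : E₂)) (X, 0) (0, V) ≤ 0 := by
  have hfin₁ : finrank ℝ E₁ = k + 1 := Fact.out
  have : Nontrivial E₁ := Module.nontrivial_of_finrank_pos (R := ℝ) (by omega)
  obtain ⟨x₀⟩ : Nonempty (sphere (0 : E₁) 1) := (NormedSpace.sphere_nonempty.2 zero_le_one).to_subtype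
  have hy0 : (y : E₂) ≠ 0 := sphere_ne_zero y
  set f : E₁ × E₂ → ℝ := extF (x₀, y) F with hf
  set Γ : E₂ := Gam (cyl y g₂) (y : E₂) V V with hΓ
  set φ : E₁ × E₂ → ℝ := fun z => pd (0, V) (pd (0, V) f) z - pd (0, Γ) f z with hφ
  have hfs : ∀ z : E₁ × E₂, z.1 ≠ 0 → z.2 ≠ 0 → ContDiffAt ℝ 4 f z := fun z a b =>
    contDiffAt_extF hF (x₀, y) a b
  have hφs : ∀ z : E₁ × E₂, z.1 ≠ 0 → z.2 ≠ 0 → ContDiffAt ℝ 2 φ z := fun z a b =>
    (pd_contDiffAt (m := 2) (pd_contDiffAt (m := 3) (hfs z a b) (by norm_num) _) (by norm_num) _).sub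
      (pd_contDiffAt (m := 2) ((hfs z a b).of_le (by norm_num : (3 : WithTop ℕ∞) ≤ 4)) (by norm_num) _)
  -- homogeneity
  have hscl : ∀ t : ℝ, 0 < t → ∀ x : E₁, x ≠ 0 → φ (t • x, (y : E₂)) = φ (x, (y : E₂)) := by
    intro t ht x hx
    have h0 : ∀ z : E₁ × E₂, f (scl E₁ E₂ t z) = f z := by
      intro z
      rw [scl_apply, hf, extF, extF]
      simp only
      rw [toS_smul x₀ z.1 ht]
    have hne : ∀ z : E₁ × E₂, z.1 ≠ 0 → (scl E₁ E₂ t z).1 ≠ 0 := fun z a => by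
      rw [scl_apply]; exact smul_ne_zero ht.ne' a
    have h1 : ∀ W : E₂, ∀ z : E₁ × E₂, z.1 ≠ 0 → z.2 ≠ 0 →
        pd (0, W) f (scl E₁ E₂ t z) = pd (0, W) f z := fun W z a b =>
      pd_scl (Eventually.of_forall h0)
        ((hfs (scl E₁ E₂ t z) (hne z a) b).differentiableAt (by norm_num)) W
    have n1 : ∀ᶠ z' : E₁ × E₂ in 𝓝 (x, (y : E₂)), z'.1 ≠ 0 :=
      continuous_fst.continuousAt.eventually_ne hx
    have n2 : ∀ᶠ z' : E₁ × E₂ in 𝓝 (x, (y : E₂)), z'.2 ≠ 0 :=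
      continuous_snd.continuousAt.eventually_ne hy0
    have h2 : pd (0, V) (pd (0, V) f) (scl E₁ E₂ t (x, (y : E₂))) = pd (0, V) (pd (0, V) f) (x, (y : E₂)) := by
      refine pd_scl ?_ ((pd_contDiffAt (m := 3) (hfs (scl E₁ E₂ t (x, (y : E₂))) (hne _ hx) hy0)
        (by norm_num) _).differentiableAt (by norm_num)) V
      filter_upwards [n1, n2] with z' a b
      exact h1 V z' a b
    have h3 := h1 Γ (x, (y : E₂)) hx hy0
    rw [scl_apply] at h2 h3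
    rw [hφ]
    simp only
    rw [h2, h3]
  -- the maximum
  have hcont : Continuous fun x : sphere (0 : E₁) 1 => φ ((x : E₁), (y : E₂)) := by
    rw [continuous_iff_continuousAt]
    intro x
    have h1 : ContinuousAt φ ((x : E₁), (y : E₂)) := (hφs _ (sphere_ne_zero x) hy0).continuousAt
    have h2 : ContinuousAt (fun x : sphere (0 : E₁) 1 => ((x : E₁), (y : E₂))) x := by fun_prop
    exact ContinuousAt.comp (g := φ) h1 h2
  have : ProperSpace E₁ := FiniteDimensional.proper ℝ E₁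
  obtain ⟨x, hx⟩ : ∃ x : sphere (0 : E₁) 1, ∀ x' : sphere (0 : E₁) 1,
      φ ((x' : E₁), (y : E₂)) ≤ φ ((x : E₁), (y : E₂)) := by
    have : Nonempty (sphere (0 : E₁) 1) := ⟨x₀⟩
    obtain ⟨x, -, hx⟩ := isCompact_univ.exists_isMaxOn (univ_nonempty) hcont.continuousOn
    exact ⟨x, fun x' => hx (mem_univ x')⟩
  have hx0 := sphere_ne_zero x
  have hloc : IsLocalMax (fun x' : E₁ => φ (x', (y : E₂))) (x : E₁) := by
    filter_upwards [isOpen_ne.mem_nhds hx0] with x' hx'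
    have h1 := hx (toS x₀ x')
    rw [toS_val x₀ hx', hscl _ (inv_pos.2 (norm_pos_iff.2 hx')) x' hx'] at h1
    exact h1
  have hφx : ContDiffAt ℝ 2 φ ((x : E₁), (y : E₂)) := hφs _ hx0 hy0
  have hslice : ContDiffAt ℝ 2 (fun x' : E₁ => φ (x', (y : E₂))) (x : E₁) := by
    have h2 : ContDiffAt ℝ 2 (fun x' : E₁ => (x', (y : E₂))) (x : E₁) := contDiffAt_id.prodMk contDiffAt_const
    exact ContDiffAt.comp (g := φ) (x : E₁) hφx h2
  -- the metric near the point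
  set G := extM (x, y) (mixedMetric g₁ g₂ F) with hG
  have hfx : extF (x, y) F =ᶠ[𝓝 ((x : E₁), (y : E₂))] f := extF_congr (x, y) (x₀, y) F hx0 hy0
  have n1 : ∀ᶠ z' : E₁ × E₂ in 𝓝 ((x : E₁), (y : E₂)), z'.1 ≠ 0 :=
    continuous_fst.continuousAt.eventually_ne hx0
  have n2 : ∀ᶠ z' : E₁ × E₂ in 𝓝 ((x : E₁), (y : E₂)), z'.2 ≠ 0 :=
    continuous_snd.continuousAt.eventually_ne hy0
  have hmix : IsMix (cyl x g₁) (cyl y g₂) f G ((x : E₁), (y : E₂)) := by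
    refine ⟨?_, (metAt_cyl hg₁ x hx0).smooth, (metAt_cyl hg₂ y hy0).smooth, hfs _ hx0 hy0⟩
    filter_upwards [n1, n2, hfx.eventuallyEq_nhds] with z' a b c u v
    rw [hG, extM_mixedMetric hF (x, y) a b u v,
      (pd_congr (pd_congr c (0, v.2)) (u.1, 0)).self_of_nhds,
      (pd_congr (pd_congr c (0, u.2)) (v.1, 0)).self_of_nhds]
  have hGs : ContDiffAt ℝ 2 G ((x : E₁), (y : E₂)) := by
    refine contDiffAt_of_apply (fun u => contDiffAt_of_apply (fun v => ?_))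
    have e : (fun z => G z u v) =ᶠ[𝓝 ((x : E₁), (y : E₂))] fun z' => cyl x g₁ z'.1 u.1 v.1
        + cyl y g₂ z'.2 u.2 v.2 + (pd (u.1, 0) (pd (0, v.2) f) z' + pd (v.1, 0) (pd (0, u.2) f) z') :=
      hmix.eq.mono (fun z' h => h u v)
    refine ContDiffAt.congr_of_eventuallyEq ?_ e
    have a1 : ContDiffAt ℝ 2 (fun z' : E₁ × E₂ => cyl x g₁ z'.1 u.1 v.1) ((x : E₁), (y : E₂)) :=
      (((metAt_cyl hg₁ x hx0).smooth.comp ((x : E₁), (y : E₂)) contDiffAt_fst).clm_apply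
        contDiffAt_const).clm_apply contDiffAt_const
    have a2 : ContDiffAt ℝ 2 (fun z' : E₁ × E₂ => cyl y g₂ z'.2 u.2 v.2) ((x : E₁), (y : E₂)) :=
      (((metAt_cyl hg₂ y hy0).smooth.comp ((x : E₁), (y : E₂)) contDiffAt_snd).clm_apply
        contDiffAt_const).clm_apply contDiffAt_const
    have a3 : ∀ s t : E₁ × E₂, ContDiffAt ℝ 2 (fun z' => pd s (pd t f) z') ((x : E₁), (y : E₂)) :=
      fun s t => pd_contDiffAt (pd_contDiffAt (m := 3) (hfs _ hx0 hy0) (by norm_num) _) (by norm_num) _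
    exact (a1.add a2).add ((a3 _ _).add (a3 _ _))
  have hmet : MetAt G ((x : E₁), (y : E₂)) := by
    refine metAt_extM (x, y) hx0 hy0 hGs (fun q u v a b c d => ?_) hpos
    have s1 := hg₁.symm q.1 u.1 v.1 a c
    have s2 := hg₂.symm q.2 u.2 v.2 b d
    simp only [mixedMetric, add_apply, ContinuousLinearMap.bilinearComp_apply,
      ContinuousLinearMap.flip_apply, ContinuousLinearMap.coe_fst', ContinuousLinearMap.coe_snd']
    rw [s1, s2]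
    ring
  refine ⟨x, fun X hX => ?_⟩
  refine secCurv_nonpos_of_num hmet (fun t ht => hX (by simpa using congrArg Prod.fst ht))
    (fun hv => hV (by simpa using congrArg Prod.snd hv)) ?_
  have hcrit : ∀ w : E₁, pd (w, 0) φ ((x : E₁), (y : E₂)) = 0 := by
    intro w
    rw [pd, ← fderiv_slice' (hφx.differentiableAt (by norm_num)) w, hloc.fderiv_eq_zero]
    rfl
  rw [hmix.num hmet (metAt_cyl hg₂ y hy0) X V hcrit]
  have h3 := D2_nonpos_of_isLocalMax hslice hloc X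
  rw [← D2_slice hφx X X] at h3
  exact h3

end

end Pool.Agent.Helper20.PC
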