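import Pool.Agent.Helper20.PC.LemD3

/-!
# Rank-one perturbations of product metrics on `S^k × S^l`
-/

open Filter Metric Module Set
open scoped Topology ContDiff RealInnerProductSpace Manifold

namespace Pool.Agent.Helper20.PC

section
variable {E₁ : Type*} [NormedAddCommGroup E₁] [InnerProductSpace ℝ E₁] [FiniteDimensional ℝ E₁]
variable {E₂ : Type*} [NormedAddCommGroup E₂] [InnerProductSpace ℝ E₂] [FiniteDimensional ℝ E₂]
variable {k l : ℕ} [Fact (finrank ℝ E₁ = k + 1)] [Fact (finrank ℝ E₂ = l + 1)]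

omit [FiniteDimensional ℝ E₂] [Fact (finrank ℝ E₂ = l + 1)] in
/-- the restriction of a one-form on the product to a slice. -/
lemma contDiffAt_slice {α : E₁ × E₂ → (E₁ × E₂) →L[ℝ] ℝ} {x : E₁} {y : E₂} {r : WithTop ℕ∞}
    (h : ContDiffAt ℝ r α (x, y)) :
    ContDiffAt ℝ r (fun x' => (α (x', y)) ∘L ContinuousLinearMap.inl ℝ E₁ E₂) x := by
  have h1 : ContDiffAt ℝ r (fun x' : E₁ => α (x', y)) x :=
    ContDiffAt.comp (g := α) x h (contDiffAt_id.prodMk contDiffAt_const)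
  exact h1.clm_comp contDiffAt_const

omit [FiniteDimensional ℝ E₁] [FiniteDimensional ℝ E₂] [Fact (finrank ℝ E₁ = k + 1)]
  [Fact (finrank ℝ E₂ = l + 1)] in
lemma fderiv_slice {f : E₁ × E₂ → ℝ} {x : E₁} {y : E₂} (h : DifferentiableAt ℝ f (x, y)) (u : E₁) :
    fderiv ℝ (fun x' => f (x', y)) x u = fderiv ℝ f (x, y) (u, 0) := by
  have h1 : HasFDerivAt (fun x' : E₁ => f (x', y)) (fderiv ℝ f (x, y) ∘L
      ((ContinuousLinearMap.id ℝ E₁).prod (0 : E₁ →L[ℝ] E₂))) x :=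
    HasFDerivAt.comp (g := f) x h.hasFDerivAt ((hasFDerivAt_id x).prodMk (hasFDerivAt_const y x))
  rw [h1.fderiv]
  simp

theorem thmOne (hk : 2 ≤ k) (hl : 2 ≤ l)
    {g₁ : sphere (0 : E₁) 1 → E₁ →L[ℝ] E₁ →L[ℝ] ℝ} (hg₁ : IsMetricS k g₁)
    {g₂ : sphere (0 : E₂) 1 → E₂ →L[ℝ] E₂ →L[ℝ] ℝ} (hg₂ : IsMetricS l g₂)
    {η : sphere (0 : E₁) 1 × sphere (0 : E₂) 1 → (E₁ × E₂) →L[ℝ] ℝ}
    (hη : ContMDiff ((𝓡 k).prod (𝓡 l)) 𝓘(ℝ, (E₁ × E₂) →L[ℝ] ℝ) 2 η) (y : sphere (0 : E₂) 1) :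
    ∃ x : sphere (0 : E₁) 1, ∃ X : E₁, ∃ V : E₂, ⟪(x : E₁), X⟫ = 0 ∧ ⟪(y : E₂), V⟫ = 0 ∧
      X ≠ 0 ∧ V ≠ 0 ∧
      secCurv (extM (x, y) (sumMetric g₁ g₂ η)) ((x : E₁), (y : E₂)) (X, 0) (0, V) ≤ 0 := by
  have hfin₁ : finrank ℝ E₁ = k + 1 := Fact.out
  have hfin₂ : finrank ℝ E₂ = l + 1 := Fact.out
  by_contra hcon
  push Not at hcon
  obtain ⟨e, he⟩ : ∃ e : E₁, ‖e‖ = 1 :=
    (exists_unit_perp (by omega : 3 ≤ finrank ℝ E₁) (0 : E₁) 0).imp (fun _ h => h.1)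
  set x₀ : sphere (0 : E₁) 1 := ⟨e, mem_sphere_zero_iff_norm.2 he⟩ with hx₀
  set α := extForm (x₀, y) η with hα
  set H : E₁ × E₂ → E₂ →L[ℝ] E₂ →L[ℝ] ℝ := fun z => cyl y g₂ z.2 with hH
  set β : E₁ → E₁ →L[ℝ] ℝ := fun x => (α (x, (y : E₂))) ∘L ContinuousLinearMap.inl ℝ E₁ E₂ with hβ
  have hy0 : (y : E₂) ≠ 0 := sphere_ne_zero y
  have hαs : ∀ x : E₁, x ≠ 0 → ContDiffAt ℝ 2 α (x, (y : E₂)) := fun x hx =>
    contDiffAt_extForm (r := 2) hη (x₀, y) hx hy0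
  have hHs : ∀ x : E₁, x ≠ 0 → ContDiffAt ℝ 2 H (x, (y : E₂)) := fun x _ =>
    contDiffAt_cyl_snd hg₂ y hy0
  have hblock : ∀ x : E₁, x ≠ 0 → MetAt (block (cyl x₀ g₁) H) (x, (y : E₂)) := by
    intro x hx
    have c2 := (continuous_snd (X := E₁) (Y := E₂)).continuousAt (x := (x, (y : E₂)))
    exact metAt_block_cyl hg₁ x₀ hx (hHs x hx)
      (c2.eventually (metAt_cyl hg₂ y hy0).symm) (c2.eventually (metAt_cyl hg₂ y hy0).pos)
  have hβs : ∀ x : E₁, x ≠ 0 → ContDiffAt ℝ 1 β x := fun x hx =>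
    (contDiffAt_slice (hαs x hx)).of_le (by norm_num)
  have hβa : ∀ x u, β x u = α (x, (y : E₂)) (u, 0) := fun x u => rfl
  have hβx : ∀ x : E₁, x ≠ 0 → β x x = 0 := by
    intro x hx
    rw [hβa, hα, extForm]
    have e0 : ((dn x).prodMap (dn (y : E₂))) (x, 0) = 0 := by
      simp [dn_self x hx]
    rw [ContinuousLinearMap.comp_apply]
    simp only
    rw [e0, map_zero]
  have hSB : ∀ x : E₁, x ≠ 0 → ∀ u : E₁,
      Sv (block (cyl x₀ g₁) H) α (x, (y : E₂)) (u, 0) (u, 0) = Bv (cyl x₀ g₁) β x u u := by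
    intro x hx u
    have h1 : dα β x u u = dα α (x, (y : E₂)) (u, 0) (u, 0) := by
      rw [dα, dα]
      exact fderiv_slice (f := fun z => α z (u, 0))
        ((smoothα (hαs x hx) (u, 0)).differentiableAt (by norm_num)) u
    rw [Sv, Bv, Gam_block_X (metAt_cyl hg₁ x₀ hx) (hHs x hx) (hblock x hx), hβa, h1]
    ring
  have hnum0 : ∀ x : E₁, x ≠ 0 → ∀ X V, num (block (cyl x₀ g₁) H) (x, (y : E₂)) (X, 0) (0, V) = 0 := by
    intro x hx X V
    have hd : ∀ (z : E₁ × E₂), z.2 ≠ 0 → ∀ v w (u : E₁), fderiv ℝ (fun z' => H z' v w) z (u, 0) = 0 := by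
      intro z hz v w u
      have h1 : DifferentiableAt ℝ (fun y' => cyl y g₂ y' v w) z.2 :=
        (smooth2 (metAt_cyl hg₂ y hz).smooth v w).differentiableAt (by norm_num)
      have h2 : HasFDerivAt (fun z' : E₁ × E₂ => cyl y g₂ z'.2 v w)
          ((fderiv ℝ (fun y' => cyl y g₂ y' v w) z.2) ∘L (ContinuousLinearMap.snd ℝ E₁ E₂)) z :=
        HasFDerivAt.comp (g := fun y' => cyl y g₂ y' v w) z h1.hasFDerivAt hasFDerivAt_snd
      rw [h2.fderiv]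
      simp
    rw [num_block (metAt_cyl hg₁ x₀ hx) (hHs x hx) (hblock x hx) X V (fun v => hd (x, (y : E₂)) hy0 V v X),
      hd (x, (y : E₂)) hy0]
    have h3 : (fun z' => fderiv ℝ (fun z'' => H z'' V V) z' (X, 0)) =ᶠ[𝓝 (x, (y : E₂))] fun _ => 0 := by
      have c2 := (continuous_snd (X := E₁) (Y := E₂)).continuousAt (x := (x, (y : E₂)))
      filter_upwards [c2.eventually_ne hy0] with z hz
      exact hd z hz V V X
    rw [D2, h3.fderiv_eq]
    simp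
  -- positivity of the numerator
  have hpos : ∀ x : sphere (0 : E₁) 1, ∀ X V, ⟪(x : E₁), X⟫ = 0 → ⟪(y : E₂), V⟫ = 0 → X ≠ 0 → V ≠ 0 →
      β x X = 0 → α ((x : E₁), (y : E₂)) (0, V) = 0 →
      0 < Sv (block (cyl x₀ g₁) H) α ((x : E₁), (y : E₂)) (0, V) (0, V) * Bv (cyl x₀ g₁) β x X X := by
    intro x X V hX hV hX0 hV0 hβX hαV
    have hx0 := sphere_ne_zero x
    have h1 := hcon x X V hX hV hX0 hV0
    have h2 : extM (x, y) (sumMetric g₁ g₂ η) =ᶠ[𝓝 ((x : E₁), (y : E₂))]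
        rankOne (block (cyl x₀ g₁) H) α := by
      rw [← extM_sumMetric (x₀, y)]
      exact extM_congr _ _ _ hx0 hy0
    rw [secCurv_congr h2] at h1
    have h3 := num_pos_of_secCurv (metAt_rankOne (hblock x hx0) (hαs x hx0))
      (fun t ht => hX0 (by simpa using congrArg Prod.fst ht))
      (fun hv => hV0 (by simpa using congrArg Prod.snd hv)) h1
    have hw := wv_nonneg (α := α) (hblock x hx0)
    rw [num_rankOne (hblock x hx0) (hαs x hx0) _ _ (by rw [← hβa]; exact hβX) hαV, hnum0 x hx0,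
      hSB x hx0] at h3
    have h4 : 0 < 1 / (1 + wv (block (cyl x₀ g₁) H) α ((x : E₁), (y : E₂))) := by positivity
    by_contra hc
    have h5 : Bv (cyl x₀ g₁) β x X X * Sv (block (cyl x₀ g₁) H) α ((x : E₁), (y : E₂)) (0, V) (0, V)
        - Sv (block (cyl x₀ g₁) H) α ((x : E₁), (y : E₂)) (X, 0) (0, V) ^ 2 ≤ 0 := by
      nlinarith [sq_nonneg (Sv (block (cyl x₀ g₁) H) α ((x : E₁), (y : E₂)) (X, 0) (0, V))]
    have h6 := mul_nonpos_of_nonneg_of_nonpos h4.le h5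
    nlinarith [sq_nonneg (dα α ((x : E₁), (y : E₂)) (X, 0) (0, V) - dα α ((x : E₁), (y : E₂)) (0, V) (X, 0))]
  -- the sign lemma
  have hsign := sign_lemma (E := E₁) (by omega) (fun x => β x) (fun x u => Bv (cyl x₀ g₁) β x u u)
    (continuous_sphere_of (fun x hx => (hβs x hx).continuousAt)) (continuous_Bv hg₁ x₀ hβs)
    (fun x u t => Bv_smul_smul (metAt_cyl hg₁ x₀ (sphere_ne_zero x)) (hβs _ (sphere_ne_zero x)) t u)
    (fun x => by
      obtain ⟨V, hV1, hV2, hV3⟩ := exists_unit_perp (by omega : 3 ≤ finrank ℝ E₂) (y : E₂)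
        ((α ((x : E₁), (y : E₂))) ∘L ContinuousLinearMap.inr ℝ E₁ E₂)
      have hV0 : V ≠ 0 := by rintro rfl; rw [norm_zero] at hV1; exact zero_ne_one hV1
      exact ⟨_, fun u hu hu0 hℓ => hpos x u V hu hV2 hu0 hV0 hℓ (by simpa using hV3)⟩)
  rcases hsign with h | h
  · exact lemD hk hg₁ x₀ hβs hβx h
  · refine lemD hk hg₁ x₀ (β := fun x => -β x) (fun x hx => (hβs x hx).neg)
      (fun x hx => by rw [_root_.neg_apply, hβx x hx, neg_zero]) (fun x u hu hu0 hℓ => ?_)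
    have h1 := h x u hu hu0 (by simpa using hℓ)
    have h2 : Bv (cyl x₀ g₁) (fun x => -β x) x u u = -Bv (cyl x₀ g₁) β x u u := by
      have h3 : (fun z' => (fun x => -β x) z' u) = fun z' => -(β z' u) := by
        funext z'; simp
      rw [Bv, Bv, dα, dα, h3, fderiv_fun_neg]
      simp
      ring
    rw [h2]
    linarith

end

end Pool.Agent.Helper20.PC
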